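import Mathlib

/-! # The value of the lower bound function -/

open MeasureTheory Set Filter Topology

namespace Pool.Agent.R482.GB

/-- Taylor polynomials of cosine and sine -/
lemma cs_bound {x : ℝ} (hx : |x| ≤ 1) :
    |Real.cos x - (1 - x ^ 2 / 2 + x ^ 4 / 24 - x ^ 6 / 720)| ≤ |x| ^ 8 * (9 / 322560) ∧
    |Real.sin x - (x - x ^ 3 / 6 + x ^ 5 / 120 - x ^ 7 / 5040)| ≤ |x| ^ 8 * (9 / 322560) := by
  have h := Complex.exp_bound (x := (x : ℂ) * Complex.I) (n := 8) (by
    rw [norm_mul, Complex.norm_I, mul_one, Complex.norm_real]; exact hx) (by norm_num)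
  rw [norm_mul, Complex.norm_I, mul_one, Complex.norm_real, Real.norm_eq_abs] at h
  have e1 : Complex.exp ((x : ℂ) * Complex.I) - ∑ m ∈ Finset.range 8,
      ((x : ℂ) * Complex.I) ^ m / (m.factorial : ℂ) =
      ((Real.cos x - (1 - x ^ 2 / 2 + x ^ 4 / 24 - x ^ 6 / 720) : ℝ) : ℂ) +
      ((Real.sin x - (x - x ^ 3 / 6 + x ^ 5 / 120 - x ^ 7 / 5040) : ℝ) : ℂ) * Complex.I := by
    rw [Complex.exp_mul_I]
    simp only [Finset.sum_range_succ, Finset.sum_range_zero, Nat.factorial, mul_pow]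
    have i2 : Complex.I ^ 2 = -1 := Complex.I_sq
    have i3 : Complex.I ^ 3 = -Complex.I := by rw [pow_succ, i2]; ring
    have i4 : Complex.I ^ 4 = 1 := Complex.I_pow_four
    have i5 : Complex.I ^ 5 = Complex.I := by rw [pow_succ, i4]; ring
    have i6 : Complex.I ^ 6 = -1 := by rw [pow_succ, i5, Complex.I_mul_I]
    have i7 : Complex.I ^ 7 = -Complex.I := by rw [pow_succ, i6]; ring
    rw [i2, i3, i4, i5, i6, i7]
    push_cast
    ring
  rw [e1] at h
  have h8 : ((8 : ℕ).succ : ℝ) * (((8 : ℕ).factorial : ℝ) * ((8 : ℕ) : ℝ))⁻¹ = 9 / 322560 := by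
    norm_num [Nat.factorial]
  rw [h8] at h
  constructor
  · refine le_trans ?_ h
    refine le_trans (le_of_eq ?_) (Complex.abs_re_le_norm _)
    rw [Complex.add_re, Complex.ofReal_re, Complex.re_ofReal_mul, Complex.I_re, mul_zero, add_zero]
  · refine le_trans ?_ h
    refine le_trans (le_of_eq ?_) (Complex.abs_im_le_norm _)
    rw [Complex.add_im, Complex.ofReal_im, Complex.im_ofReal_mul, Complex.I_im, mul_one, zero_add]

/-- the main integral -/
lemma int_val {β : ℝ} (hβ : 0 < β) :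
    ∫ x in (0 : ℝ)..1, x * (1 - β * x + Real.sin (2 * Real.pi * (β * x)) / (2 * Real.pi)) =
      1 / 2 - β / 3 + (Real.sin (2 * Real.pi * β) / (2 * Real.pi * β) ^ 2 -
        Real.cos (2 * Real.pi * β) / (2 * Real.pi * β)) / (2 * Real.pi) := by
  have hpi := Real.pi_pos
  set k : ℝ := 2 * Real.pi * β with hk
  have hk0 : 0 < k := by positivity
  have h1 : ∫ x in (0 : ℝ)..1, x * (1 - β * x + Real.sin (2 * Real.pi * (β * x)) / (2 * Real.pi)) =
      ∫ α in (0 : ℝ)..1, α * (1 - β * α + Real.sin (k * α) / (2 * Real.pi)) := by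
    refine intervalIntegral.integral_congr fun α _ => ?_
    have e : 2 * Real.pi * (β * α) = k * α := by rw [hk]; ring
    show α * (1 - β * α + Real.sin (2 * Real.pi * (β * α)) / (2 * Real.pi)) = _
    rw [e]
  rw [h1]
  have hd : ∀ α ∈ Set.uIcc (0 : ℝ) 1, HasDerivAt (fun α : ℝ => α ^ 2 / 2 - β * α ^ 3 / 3 +
      (Real.sin (k * α) / k ^ 2 - α * Real.cos (k * α) / k) / (2 * Real.pi))
      (α * (1 - β * α + Real.sin (k * α) / (2 * Real.pi))) α := by
    intro α _
    have g0 : HasDerivAt (fun α : ℝ => k * α) k α := by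
      simpa using (hasDerivAt_id α).const_mul k
    have g1 := g0.sin
    have g2 := g0.cos
    have g3 : HasDerivAt (fun α : ℝ => α ^ 2 / 2) α α := by
      refine ((hasDerivAt_pow 2 α).div_const 2).congr_deriv ?_
      simp
    have g4 : HasDerivAt (fun α : ℝ => β * α ^ 3 / 3) (β * α ^ 2) α := by
      refine (((hasDerivAt_pow 3 α).const_mul β).div_const 3).congr_deriv ?_
      simp
      ring
    have g5 := ((g1.div_const (k ^ 2)).sub (((hasDerivAt_id α).mul g2).div_const k)).div_const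
      (2 * Real.pi)
    refine ((g3.sub g4).add g5).congr_deriv ?_
    simp only [id]
    field_simp
    ring
  rw [intervalIntegral.integral_eq_sub_of_hasDerivAt hd (Continuous.intervalIntegrable
    (by fun_prop) _ _)]
  simp

/-- `V(0.6073) > 1` -/
lemma val_gt : 1 < (6073 / 10000 : ℝ) + 2 * (6073 / 10000 : ℝ) *
    ∫ x in (0 : ℝ)..1, x * (1 - (6073 / 10000 : ℝ) * x +
      Real.sin (2 * Real.pi * ((6073 / 10000 : ℝ) * x)) / (2 * Real.pi)) := by
  rw [int_val (by norm_num)]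
  have hp1 := Real.pi_gt_d6
  have hp2 := Real.pi_lt_d6
  have hpi := Real.pi_pos
  set x : ℝ := 1073 / 5000 * Real.pi with hx
  have e0 : 2 * Real.pi * (6073 / 10000 : ℝ) = x + Real.pi := by rw [hx]; ring
  have e1 : Real.sin (2 * Real.pi * (6073 / 10000)) = -Real.sin x := by rw [e0, Real.sin_add_pi]
  have e2 : Real.cos (2 * Real.pi * (6073 / 10000)) = -Real.cos x := by rw [e0, Real.cos_add_pi]
  have hx1 : 0.674185 < x := by rw [hx]; norm_num at hp1 ⊢; linarith
  have hx2 : x < 0.674187 := by rw [hx]; norm_num at hp2 ⊢; linarith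
  have hx0 : 0 < x := by linarith
  obtain ⟨c1, c2⟩ := cs_bound (x := x) (by rw [abs_of_pos hx0]; linarith)
  rw [abs_of_pos hx0] at c1 c2
  have hx8 : x ^ 8 ≤ 0.05 := by
    calc x ^ 8 ≤ 0.674187 ^ 8 := by gcongr
      _ ≤ 0.05 := by norm_num
  have hc : 0.78121 ≤ Real.cos x := by
    have h1 := (abs_le.1 c1).1
    have h2 : x ^ 2 ≤ 0.674187 ^ 2 := by gcongr
    have h4 : 0.674185 ^ 4 ≤ x ^ 4 := by gcongr
    have h6 : x ^ 6 ≤ 0.674187 ^ 6 := by gcongr
    norm_num at h2 h4 h6 ⊢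
    linarith
  have hs : Real.sin x ≤ 0.62429 := by
    have h1 := (abs_le.1 c2).2
    have h3 : 0.674185 ^ 3 ≤ x ^ 3 := by gcongr
    have h5 : x ^ 5 ≤ 0.674187 ^ 5 := by gcongr
    have h7 : 0.674185 ^ 7 ≤ x ^ 7 := by gcongr
    norm_num at h3 h5 h7 ⊢
    linarith
  rw [e1, e2]
  set k : ℝ := 2 * Real.pi * (6073 / 10000) with hk
  have hk1 : 3.815777 < k := by rw [hk]; norm_num at hp1 ⊢; linarith
  have hk2 : k < 3.815780 := by rw [hk]; norm_num at hp2 ⊢; linarith
  have hk0 : 0 < k := by linarith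
  have t1 : 0.20473 ≤ Real.cos x / k := by
    rw [le_div_iff₀ hk0]
    norm_num at hc hk2 ⊢
    nlinarith
  have t2 : Real.sin x / k ^ 2 ≤ 0.042877 := by
    rw [div_le_iff₀ (by positivity)]
    have : 3.815777 ^ 2 ≤ k ^ 2 := by gcongr
    norm_num at hs this ⊢
    nlinarith
  have t3 : 0.161853 ≤ -Real.sin x / k ^ 2 - -Real.cos x / k := by
    have e3 : -Real.sin x / k ^ 2 - -Real.cos x / k = Real.cos x / k - Real.sin x / k ^ 2 := by
      ring
    rw [e3]
    norm_num at t1 t2 ⊢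
    linarith
  have t4 : 0.025759 ≤ (-Real.sin x / k ^ 2 - -Real.cos x / k) / (2 * Real.pi) := by
    rw [le_div_iff₀ (by positivity)]
    norm_num at t3 hp2 ⊢
    nlinarith
  norm_num at t4 ⊢
  linarith

end Pool.Agent.R482.GB
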