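import Pool.Agent.R482.GB.Low
import Pool.Agent.R482.GB.Num
import Pool.Agent.TH803.TW.Jordan
import Pool.Agent.TH803.TW.Fin
import Pool.Agent.H345R2.A3.Ker

/-! # Pair sums in Bohr sets: lower bounds -/

open Complex Filter Topology Set MeasureTheory
open scoped BigOperators

namespace Pool.Agent.R482.GB

open H370 H370.A2 H370.AS H295SI TH803TW

lemma line_zeta (RH : RiemannHypothesis) : TH803TW.Line riemannZeta := by
  intro s h1 h2 h3 h4
  refine RH s h4 ?_ ?_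
  · rintro ⟨n, rfl⟩
    simp at h1
    have : (0 : ℝ) ≤ n := Nat.cast_nonneg n
    linarith
  · rintro rfl
    norm_num at h3

/-- **Montgomery's inequality with a weight on the torus** -/
theorem weights (hRH : RiemannHypothesis) {A : ℝ} (hA : 0 < A)
    {f : ℝ → ℝ} (hf : ContDiff ℝ 2 f) (hfA : f A = 0) {κ₀ : ℝ} (hκ₀ : κ₀ < 1)
    (hpos : ∀ α, κ₀ ≤ α → α ≤ A → 0 ≤ f α) {k : ℕ} {α : Fin k → ℝ}
    (hα : ∀ n : Fin k → ℤ, ∑ j, (n j : ℝ) * α j = 0 → n = 0)
    (F : C(UnitAddTorus (Fin k), ℝ)) (hF : ∀ x, 0 ≤ F x) {η : ℝ} (hη : 0 < η) :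
    ∃ T0 : ℝ, 10 ≤ T0 ∧ ∀ T : ℝ, T0 ≤ T →
      (T * Real.log T / (2 * Real.pi)) *
        ((∫ x, F x ∂(haarT k)) * (f 0 + 2 * ∫ x in (0 : ℝ)..(min 1 A), x * f x)) -
        η * (T * Real.log T) ≤ PQ f A T (fun t => F (torusPt α t)) := by
  set G : C(UnitAddTorus (Fin k), ℝ) := ⟨fun x => Real.sqrt (F x), by fun_prop⟩ with hG
  have hGF : ∀ x, G x ^ 2 = F x := fun x => Real.sq_sqrt (hF x)
  have h1 := APm_torus hα G
  have h2 := APm_torus hα F
  obtain ⟨T0, hT0, hT⟩ := transfer hRH (line_zeta hRH) hA hf hfA hκ₀ hpos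
    (g := fun t => G (torusPt α t)) (fun ε hε => by
      obtain ⟨S, c, -, h3, -⟩ := h1 ε hε
      exact ⟨S, c, h3⟩)
    (M := ∫ x, F x ∂(haarT k)) (by
      have e : (fun t => (fun t => G (torusPt α t)) t ^ 2) = fun t => F (torusPt α t) := by
        funext t
        exact hGF _
      rw [e]
      exact h2) hη
  refine ⟨T0, hT0, fun T hTT => ?_⟩
  have := hT T hTT
  simpa only [hGF] using this

lemma Zf_split {F : ℂ → ℂ} (hF : GoodL F) {a b c : ℝ} (ha : 1 ≤ a) (hab : a ≤ b) (hbc : b ≤ c)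
    (f : ℂ → ℝ) : ∑ s ∈ Zf F a c, f s = ∑ s ∈ Zf F a b, f s + ∑ s ∈ Zf F b c, f s := by
  classical
  rw [← Finset.sum_union]
  · congr 1
    ext s
    rw [Finset.mem_union, mem_Zf hF ha, mem_Zf hF ha, mem_Zf hF (ha.trans hab)]
    constructor
    · rintro ⟨h1, h2, h3, h4, h5⟩
      rcases le_or_gt s.im b with h | h
      · exact Or.inl ⟨h1, h2, h3, h, h5⟩
      · exact Or.inr ⟨h1, h2, h, h4, h5⟩
    · rintro (⟨h1, h2, h3, h4, h5⟩ | ⟨h1, h2, h3, h4, h5⟩)
      · exact ⟨h1, h2, h3, h4.trans hbc, h5⟩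
      · exact ⟨h1, h2, hab.trans_lt h3, h4, h5⟩
  · rw [Finset.disjoint_left]
    intro s hs hs'
    rw [mem_Zf hF ha] at hs
    rw [mem_Zf hF (ha.trans hab)] at hs'
    have h3 := hs.2.2.2.1
    have h4 := hs'.2.2.1
    linarith

lemma NN_Zf {F : ℂ → ℂ} (hF : GoodL F) {a b : ℝ} (ha : 1 ≤ a) :
    (NN F a b : ℝ) = ∑ s ∈ Zf F a b, (mult F s : ℝ) := by
  unfold NN
  rw [← Nat.cast_sum, ← H370.finsum_Zf hF ha]

/-- zeros in Bohr sets -/
theorem first (hRH : RiemannHypothesis) {φ : ℝ → ℝ} {M : ℝ} (hφ : APm φ M)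
    (hφ0 : ∀ t, 0 ≤ φ t) (hM : 0 ≤ M) {ε : ℝ} (hε : 0 < ε) :
    ∃ T0 : ℝ, 10 ≤ T0 ∧ ∀ T : ℝ, T0 ≤ T →
      |MW riemannZeta T (2 * T) φ - M * NN riemannZeta T (2 * T)| ≤
        ε * NN riemannZeta T (2 * T) := by
  obtain ⟨T0, hT0, h⟩ := shortW good_zeta (line_zeta hRH) hφ hφ0 hM (1 / 2) ε (by norm_num)
    (by norm_num) hε
  refine ⟨max T0 10, le_max_right _ _, fun T hT => ?_⟩
  have hTT0 : T0 ≤ T := (le_max_left _ _).trans hT
  have hT10 : 10 ≤ T := (le_max_right _ _).trans hT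
  have hp : ∀ x : ℝ, 4 ≤ x → x ^ (1 / 2 : ℝ) ≤ x / 2 := by
    intro x hx
    rw [← Real.sqrt_eq_rpow, Real.sqrt_le_left (by linarith)]
    nlinarith
  have hp1 := hp T (by linarith)
  have hp2 : (3 / 2 * T) ^ (1 / 2 : ℝ) ≤ T / 2 := by
    rw [← Real.sqrt_eq_rpow, Real.sqrt_le_left (by linarith)]
    nlinarith
  obtain ⟨a1, -, -⟩ := h T hTT0 (T / 2) hp1 le_rfl
  obtain ⟨b1, -, -⟩ := h (3 / 2 * T) (by linarith) (T / 2) hp2 (by linarith)
  rw [show T + T / 2 = 3 / 2 * T by ring] at a1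
  rw [show 3 / 2 * T + T / 2 = 2 * T by ring] at b1
  have e1 : MW riemannZeta T (2 * T) φ = MW riemannZeta T (3 / 2 * T) φ +
      MW riemannZeta (3 / 2 * T) (2 * T) φ := by
    unfold MW
    exact Zf_split good_zeta (by linarith) (by linarith) (by linarith) _
  have e2 : (NN riemannZeta T (2 * T) : ℝ) = NN riemannZeta T (3 / 2 * T) +
      NN riemannZeta (3 / 2 * T) (2 * T) := by
    rw [NN_Zf good_zeta (by linarith), NN_Zf good_zeta (by linarith),
      NN_Zf good_zeta (by linarith)]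
    exact Zf_split good_zeta (by linarith) (by linarith) (by linarith) _
  rw [e1, e2]
  obtain ⟨x1, x2⟩ := abs_le.1 a1
  obtain ⟨x3, x4⟩ := abs_le.1 b1
  rw [abs_le]
  constructor <;> linarith

/-- the number of zeros in a dyadic interval -/
lemma N_dyadic (η : ℝ) (hη : 0 < η) :
    ∃ T₀ : ℝ, 10 ≤ T₀ ∧ ∀ T : ℝ, T₀ ≤ T →
      |(NN riemannZeta T (2 * T) : ℝ) - T * Real.log T / (2 * Real.pi)| ≤
        η * (T * Real.log T) := by
  obtain ⟨C, hC, h⟩ := H965SI.countShort riemannZeta H370.good_zeta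
  have ev := TH803TW.ev_log_pow 1 1 1 2 one_pos one_pos one_pos
  have ev2 : ∀ᶠ T : ℝ in atTop, 3 * C / η ≤ Real.log T :=
    Real.tendsto_log_atTop.eventually_ge_atTop _
  obtain ⟨T1, hT1⟩ := (ev.and ev2).exists_forall_of_atTop
  refine ⟨max 10 T1, le_max_left _ _, fun T hT => ?_⟩
  have hT10 : 10 ≤ T := (le_max_left _ _).trans hT
  obtain ⟨e1, e2⟩ := hT1 T ((le_max_right _ _).trans hT)
  rw [Real.rpow_one, one_mul, one_mul] at e1
  have hL0 : 0 < Real.log T := Real.log_pos (by linarith)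
  obtain ⟨a1, -⟩ := h T hT10 T (by linarith) le_rfl T (2 * T) le_rfl (by linarith) (by linarith)
    (by linarith)
  refine a1.trans ?_
  rw [div_le_iff₀ hη] at e2
  have h3 : Real.log T ^ 2 ≤ T := by nlinarith
  calc C * (T + Real.log T ^ 2) ≤ C * (T + T) := by gcongr
    _ ≤ 3 * C * T := by nlinarith
    _ ≤ Real.log T * η * T := by gcongr
    _ = _ := by ring

/-- `V N ≤ V T log T / 2π + ε N`, for large `T` -/
lemma toN (V ε : ℝ) (hε : 0 < ε) : ∃ η T₀ : ℝ, 0 < η ∧ 10 ≤ T₀ ∧ ∀ T : ℝ, T₀ ≤ T →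
    (V - ε) * (NN riemannZeta T (2 * T) : ℝ) ≤ T * Real.log T / (2 * Real.pi) * V -
      η * (T * Real.log T) := by
  have hpi := Real.pi_lt_d2
  have hpi0 := Real.pi_pos
  set η : ℝ := ε / (16 * (|V| + 1)) with hη
  have hη0 : 0 < η := by positivity
  obtain ⟨T2, hT2, hN⟩ := N_dyadic (min η (1 / 40)) (lt_min hη0 (by norm_num))
  refine ⟨ε / 16, T2, by positivity, hT2, fun T hT => ?_⟩
  have hL0 : 0 < Real.log T := Real.log_pos (by linarith)
  have a2 := hN T hT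
  set Y := T * Real.log T with hY
  have hY0 : 0 < Y := by
    have : 0 < T := by linarith
    positivity
  have a3 : |(NN riemannZeta T (2 * T) : ℝ) - Y / (2 * Real.pi)| ≤ η * Y :=
    a2.trans (by gcongr; exact min_le_left _ _)
  have a4 : |(NN riemannZeta T (2 * T) : ℝ) - Y / (2 * Real.pi)| ≤ 1 / 40 * Y :=
    a2.trans (by gcongr; exact min_le_right _ _)
  have a5 : Y / 8 ≤ (NN riemannZeta T (2 * T) : ℝ) := by
    have h2 := (abs_le.1 a4).1
    have h3 : Y * (3 / 20) ≤ Y / (2 * Real.pi) := by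
      rw [le_div_iff₀ (by positivity)]
      nlinarith
    linarith
  have a6 : |V * ((NN riemannZeta T (2 * T) : ℝ) - Y / (2 * Real.pi))| ≤ ε / 16 * Y := by
    rw [abs_mul]
    calc |V| * |(NN riemannZeta T (2 * T) : ℝ) - Y / (2 * Real.pi)| ≤ |V| * (η * Y) := by gcongr
      _ = |V| / (|V| + 1) * (ε / 16 * Y) := by rw [hη]; field_simp
      _ ≤ 1 * (ε / 16 * Y) := by
          apply mul_le_mul_of_nonneg_right _ (by positivity)
          rw [div_le_one (by positivity)]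
          linarith
      _ = _ := one_mul _
  have a7 := (abs_le.1 a6).2
  have a8 := mul_le_mul_of_nonneg_left a5 hε.le
  have e1 : V * ((NN riemannZeta T (2 * T) : ℝ) - Y / (2 * Real.pi)) =
      V * (NN riemannZeta T (2 * T) : ℝ) - Y / (2 * Real.pi) * V := by ring
  rw [e1] at a7
  linarith

/-- the lower bound function -/
noncomputable def VV (β : ℝ) : ℝ := β + 2 * ∫ x in (0 : ℝ)..(min 1 (1 / β)),
  x * (β * (1 - β * x + Real.sin (2 * Real.pi * (β * x)) / (2 * Real.pi)))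

/-- the kernel of the close pairs -/
noncomputable def fb (β x : ℝ) : ℝ := β * A3.ss (β * x)

lemma CC_fb {β : ℝ} (hβ : 0 < β) (y : ℝ) : CC (fb β) (1 / β) y = A3.HH (y / (2 * Real.pi * β)) := by
  have hpi := Real.pi_pos
  unfold CC A3.HH fb
  congr 1
  have h2 := intervalIntegral.mul_integral_comp_mul_left (a := (0 : ℝ)) (b := 1 / β) (c := β)
    (f := fun α : ℝ => A3.ss α * Real.cos (2 * Real.pi * (y / (2 * Real.pi * β)) * α))
  rw [mul_zero, mul_one_div_cancel hβ.ne'] at h2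
  rw [← h2, ← intervalIntegral.integral_const_mul]
  refine intervalIntegral.integral_congr fun α _ => ?_
  show β * A3.ss (β * α) * Real.cos (y * α) =
    β * (A3.ss (β * α) * Real.cos (2 * Real.pi * (y / (2 * Real.pi * β)) * (β * α)))
  have e : 2 * Real.pi * (y / (2 * Real.pi * β)) * (β * α) = y * α := by
    field_simp
  rw [e]
  ring

/-- **close pairs with a weight on the torus** -/
theorem close_weights (hRH : RiemannHypothesis) {β : ℝ} (hβ : 0 < β) {k : ℕ} {α : Fin k → ℝ}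
    (hα : ∀ n : Fin k → ℤ, ∑ j, (n j : ℝ) * α j = 0 → n = 0)
    (F : C(UnitAddTorus (Fin k), ℝ)) (hF : ∀ x, 0 ≤ F x) {ε : ℝ} (hε : 0 < ε) :
    ∃ T0 : ℝ, 10 ≤ T0 ∧ ∀ T : ℝ, T0 ≤ T →
      ((∫ x, F x ∂(haarT k)) * VV β - ε) * (NN riemannZeta T (2 * T) : ℝ) ≤
        ∑ s ∈ Zf riemannZeta T (2 * T), ∑ s' ∈ Zf riemannZeta T (2 * T),
          (mult riemannZeta s : ℝ) * (mult riemannZeta s' : ℝ) *
            (if |s.im - s'.im| ≤ 2 * Real.pi * β / Real.log T then F (torusPt α s.im) else 0) := by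
  have hpi := Real.pi_pos
  have hsm : ContDiff ℝ 2 (fb β) := by
    unfold fb A3.ss
    fun_prop
  have h0 : fb β (1 / β) = 0 := by
    unfold fb
    rw [mul_one_div_cancel hβ.ne', A3.ss_one, mul_zero]
  have hpos : ∀ x : ℝ, 0 ≤ x → x ≤ 1 / β → 0 ≤ fb β x := by
    intro x _ hx
    refine mul_nonneg hβ.le (A3.ss_nonneg ?_)
    rw [le_div_iff₀ hβ] at hx
    linarith
  obtain ⟨η, T1, hη, hT1, h1⟩ := toN ((∫ x, F x ∂(haarT k)) * VV β) ε hε
  obtain ⟨T2, hT2, h2⟩ := weights hRH (by positivity : 0 < 1 / β) hsm h0 (κ₀ := 0) one_pos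
    hpos hα F hF hη
  refine ⟨max T1 T2, hT1.trans (le_max_left _ _), fun T hT => ?_⟩
  have b1 := h1 T ((le_max_left _ _).trans hT)
  have b2 := h2 T ((le_max_right _ _).trans hT)
  have hT10 : 10 ≤ T := hT1.trans ((le_max_left _ _).trans hT)
  have hL : 0 < Real.log T := Real.log_pos (by linarith)
  have e0 : fb β 0 + 2 * ∫ x in (0 : ℝ)..(min 1 (1 / β)), x * fb β x = VV β := by
    unfold VV fb A3.ss
    simp
  rw [e0] at b2
  refine b1.trans (b2.trans ?_)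
  unfold PQ
  refine Finset.sum_le_sum fun s _ => Finset.sum_le_sum fun s' _ => ?_
  apply mul_le_mul_of_nonneg_left _ (by positivity)
  rw [CC_fb hβ]
  have hF0 := hF (torusPt α s.im)
  split_ifs with h
  · have := A3.HH_le (Real.log T * (s.im - s'.im) / (2 * Real.pi * β))
    nlinarith
  · push Not at h
    apply mul_nonpos_of_nonpos_of_nonneg _ hF0
    apply A3.HH_neg
    rw [abs_div, abs_mul, abs_of_pos hL, abs_of_pos (by positivity : 0 < 2 * Real.pi * β),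
      lt_div_iff₀ (by positivity), one_mul]
    rw [div_lt_iff₀ hL] at h
    linarith

end Pool.Agent.R482.GB
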