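import Pool.Agent.H345R2.A3.Gap
import Pool.Agent.R482.GB.Main

/-! # Sums over zeros and sums over the indices of the ordinates -/

open Complex Filter Topology Set MeasureTheory

namespace Pool.Agent.R482.GB

open SP H370 H370.A2 H370.A3
open SG (ord NZ zmult ZS)

/-- the block of indices of a zero -/
noncomputable def Jb (s : ℂ) : Finset ℕ := Finset.Ioc (NZ s.im - mult riemannZeta s) (NZ s.im)

lemma Jb_facts (hRH : RiemannHypothesis) {A B : ℝ} (hA : 1 ≤ A) {s : ℂ}
    (hs : s ∈ Zf riemannZeta A B) :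
    1 ≤ mult riemannZeta s ∧ mult riemannZeta s ≤ NZ s.im ∧ (Jb s).card = mult riemannZeta s ∧
      ∀ n, NZ s.im < n + mult riemannZeta s → n ≤ NZ s.im → 1 ≤ n → ord n = s.im := by
  obtain ⟨h1, h2, h3, h4⟩ := on_line hRH hA hs
  have a1 : 1 ≤ mult riemannZeta s := SG.zmult_pos (s := s) (by linarith) (by rw [← h1]; exact h4)
  have a2 : mult riemannZeta s ≤ NZ s.im := by
    have := LG.CU.mult_le_NZ (by linarith : 0 < s.im) h4
    rw [h1] at this
    exact this
  refine ⟨a1, a2, ?_, fun n h5 h6 h7 => ?_⟩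
  · rw [Jb, Nat.card_Ioc]
    omega
  · exact LG.CU.ord_eq_of (by linarith) h4 (by rw [h1]; exact h5) h6 h7

lemma Jb_ord (hRH : RiemannHypothesis) {A B : ℝ} (hA : 1 ≤ A) {s : ℂ}
    (hs : s ∈ Zf riemannZeta A B) {n : ℕ} (hn : n ∈ Jb s) : 1 ≤ n ∧ ord n = s.im := by
  obtain ⟨a1, a2, a3, a4⟩ := Jb_facts hRH hA hs
  rw [Jb, Finset.mem_Ioc] at hn
  exact ⟨by omega, a4 n (by omega) hn.2 (by omega)⟩

lemma Jb_disj (hRH : RiemannHypothesis) {A B : ℝ} (hA : 1 ≤ A) {S : Finset ℂ}
    (hS : S ⊆ Zf riemannZeta A B) : (S : Set ℂ).PairwiseDisjoint Jb := by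
  intro s hs s' hs' hne
  rw [Function.onFun, Finset.disjoint_left]
  intro n hn hn'
  have hs := hS hs
  have hs' := hS hs'
  have e1 := (Jb_ord hRH hA hs hn).2
  have e2 := (Jb_ord hRH hA hs' hn').2
  apply hne
  obtain ⟨g1, _⟩ := on_line hRH hA hs
  obtain ⟨g2, _⟩ := on_line hRH hA hs'
  rw [← g1, ← g2, ← e1, ← e2]

lemma sum_blocks (hRH : RiemannHypothesis) {A B : ℝ} (hA : 1 ≤ A) {S : Finset ℂ}
    (hS : S ⊆ Zf riemannZeta A B) (φ : ℝ → ℝ) :
    ∑ s ∈ S, (mult riemannZeta s : ℝ) * φ s.im = ∑ n ∈ S.biUnion Jb, φ (ord n) := by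
  classical
  rw [Finset.sum_biUnion (Jb_disj hRH hA hS)]
  refine Finset.sum_congr rfl fun s hs => ?_
  rw [Finset.sum_congr rfl fun n hn => by rw [(Jb_ord hRH hA (hS hs) hn).2], Finset.sum_const,
    (Jb_facts hRH hA (hS hs)).2.2.1, nsmul_eq_mul]

lemma NZ_add {A B : ℝ} (hA : 1 ≤ A) (hAB : A ≤ B) :
    NZ B = NZ A + ∑ s ∈ Zf riemannZeta A B, mult riemannZeta s := by
  classical
  have hdisj : Disjoint (SG.ZS_finite A).toFinset (Zf riemannZeta A B) := by
    rw [Finset.disjoint_left]
    intro s hs hs'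
    rw [Set.Finite.mem_toFinset] at hs
    rw [mem_Zf good_zeta hA] at hs'
    have h1 := hs.2.2.2.2
    have h2 := hs'.2.2.1
    linarith
  have hu : (SG.ZS_finite B).toFinset = (SG.ZS_finite A).toFinset ∪ Zf riemannZeta A B := by
    ext s
    rw [Finset.mem_union, Set.Finite.mem_toFinset, Set.Finite.mem_toFinset, mem_Zf good_zeta hA]
    constructor
    · rintro ⟨h1, h2, h3, h4, h5⟩
      rcases le_or_gt s.im A with h | h
      · exact Or.inl ⟨h1, h2, h3, h4, h⟩
      · exact Or.inr ⟨h2, h3, h, h5, h1⟩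
    · rintro (⟨h1, h2, h3, h4, h5⟩ | ⟨h1, h2, h3, h4, h5⟩)
      · exact ⟨h1, h2, h3, h4, h5.trans hAB⟩
      · exact ⟨h5, h1, h2, by linarith, h4⟩
  rw [SG.NZ_eq, SG.NZ_eq, hu, Finset.sum_union hdisj]
  rfl

lemma blocks_all (hRH : RiemannHypothesis) {A B : ℝ} (hA : 1 ≤ A) (hAB : A ≤ B) :
    (Zf riemannZeta A B).biUnion Jb = Finset.Ioc (NZ A) (NZ B) := by
  classical
  apply Finset.eq_of_subset_of_card_le
  · intro n hn
    rw [Finset.mem_biUnion] at hn
    obtain ⟨s, hs, hn⟩ := hn
    obtain ⟨h1, h2⟩ := Jb_ord hRH hA hs hn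
    rw [mem_Zf good_zeta hA] at hs
    obtain ⟨a1, a2, a3, a4, a5⟩ := hs
    rw [Finset.mem_Ioc]
    constructor
    · by_contra hcon
      push Not at hcon
      have := (SG.ord_le_iff h1 A).mpr hcon
      linarith
    · exact (SG.ord_le_iff h1 B).mp (by linarith)
  · rw [Finset.card_biUnion (Jb_disj hRH hA (Finset.Subset.refl _)), Nat.card_Ioc,
      NZ_add hA hAB, Nat.add_sub_cancel_left]
    exact le_of_eq (Finset.sum_congr rfl fun s hs => (Jb_facts hRH hA hs).2.2.1.symm)

/-- **sums over zeros as sums over indices** -/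
lemma sum_idx (hRH : RiemannHypothesis) {A B : ℝ} (hA : 1 ≤ A) (hAB : A ≤ B) (φ : ℝ → ℝ) :
    ∑ s ∈ Zf riemannZeta A B, (mult riemannZeta s : ℝ) * φ s.im =
      ∑ n ∈ Finset.Ioc (NZ A) (NZ B), φ (ord n) := by
  classical
  rw [← blocks_all hRH hA hAB]
  exact sum_blocks hRH hA (Finset.Subset.refl _) φ

/-- weighted count of the zeros with a close neighbour -/
theorem W_le_w (hRH : RiemannHypothesis) {A B ρ : ℝ} (hA : 1 ≤ A) (hρ : 0 ≤ ρ) (φ : ℝ → ℝ)
    (hφ : ∀ t, 0 ≤ φ t) :
    ∑ s ∈ (Zf riemannZeta A B).filter (fun s => 2 ≤ kk A B ρ s),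
      (mult riemannZeta s : ℝ) * φ s.im ≤
      ∑ n ∈ (EE_finite A B ρ).toFinset, (φ (ord n) + φ (ord (n + 1))) := by
  classical
  set S := (Zf riemannZeta A B).filter (fun s => 2 ≤ kk A B ρ s) with hS
  have hSZ : S ⊆ Zf riemannZeta A B := Finset.filter_subset _ _
  rw [sum_blocks hRH hA hSZ]
  set E := (EE_finite A B ρ).toFinset with hE
  have hsub : S.biUnion Jb ⊆ E ∪ E.image (· + 1) := by
    intro n hn
    rw [Finset.mem_biUnion] at hn
    obtain ⟨s, hs, hn⟩ := hn
    have hsZ := hSZ hs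
    have hk : 2 ≤ kk A B ρ s := (Finset.mem_filter.1 hs).2
    rw [Jb, Finset.mem_Ioc] at hn
    obtain ⟨hn1, hn2⟩ := hn
    obtain ⟨-, hm, -, hord⟩ := Jb_facts hRH hA hsZ
    obtain ⟨g1, g2, g3, g4⟩ := on_line hRH hA hsZ
    have en := hord n (by omega) hn2 (by omega)
    rw [Finset.mem_union, Finset.mem_image]
    by_cases hm2 : 2 ≤ mult riemannZeta s
    · -- multiple zero
      by_cases hlast : n = NZ s.im
      · right
        refine ⟨n - 1, ?_, by omega⟩
        have e2 := hord (n - 1) (by omega) (by omega) (by omega)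
        rw [hE, Set.Finite.mem_toFinset]
        have e3 : n - 1 + 1 = n := by omega
        refine ⟨by omega, by rw [e2]; exact g2, by rw [e3, en]; exact g3, ?_⟩
        rw [e3, en, e2]
        linarith
      · left
        have e2 := hord (n + 1) (by omega) (by omega) (by omega)
        rw [hE, Set.Finite.mem_toFinset]
        refine ⟨by omega, by rw [en]; exact g2, by rw [e2]; exact g3, ?_⟩
        rw [e2, en]
        linarith
    · -- another zero
      have hm1 : mult riemannZeta s = 1 := by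
        have := (Jb_facts hRH hA hsZ).1
        omega
      obtain ⟨s', hs', hne, hclose⟩ : ∃ s' ∈ Zf riemannZeta A B, s' ≠ s ∧
          |s.im - s'.im| ≤ ρ := by
        by_contra hcon
        push Not at hcon
        have : kk A B ρ s ≤ 1 := by
          unfold kk
          calc ∑ s' ∈ Zf riemannZeta A B, (mult riemannZeta s' *
                if |s.im - s'.im| ≤ ρ then 1 else 0) ≤
              ∑ s' ∈ Zf riemannZeta A B, (if s' = s then 1 else 0) := by
                refine Finset.sum_le_sum fun s' hs' => ?_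
                by_cases h : s' = s
                · rw [if_pos h, h, hm1]
                  split_ifs <;> omega
                · rw [if_neg h, if_neg (not_le.2 (hcon s' hs' h))]
                  omega
            _ ≤ 1 := by
                rw [Finset.sum_ite_eq']
                split_ifs <;> omega
        omega
      obtain ⟨q1, q2, q3, q4⟩ := on_line hRH hA hs'
      obtain ⟨hp', hm', -, hord'⟩ := Jb_facts hRH hA hs'
      have hneim : s'.im ≠ s.im := by
        intro h
        apply hne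
        rw [← q1, ← g1, h]
      obtain ⟨c1, c2⟩ := abs_le.1 hclose
      rcases lt_or_gt_of_ne hneim with h | h
      · -- previous
        right
        have e2 := hord' (NZ s'.im) (by omega) le_rfl (by omega)
        have h5 : NZ s'.im < n := by
          by_contra h6
          push Not at h6
          have := SG.ord_mono (by omega : 1 ≤ n) h6
          rw [e2, en] at this
          linarith
        have h6 : s'.im ≤ ord (n - 1) := by
          rw [← e2]
          exact SG.ord_mono (by omega) (by omega)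
        refine ⟨n - 1, ?_, by omega⟩
        rw [hE, Set.Finite.mem_toFinset]
        have e3 : n - 1 + 1 = n := by omega
        refine ⟨by omega, by linarith, by rw [e3, en]; exact g3, ?_⟩
        rw [e3, en]
        linarith
      · -- next
        left
        have e2 := hord' (NZ s'.im) (by omega) le_rfl (by omega)
        have h5 : n < NZ s'.im := by
          by_contra h6
          push Not at h6
          have := SG.ord_mono (by omega : 1 ≤ NZ s'.im) h6
          rw [e2, en] at this
          linarith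
        have h6 : ord (n + 1) ≤ s'.im := by
          rw [← e2]
          exact SG.ord_mono (by omega) (by omega)
        rw [hE, Set.Finite.mem_toFinset]
        refine ⟨by omega, by rw [en]; exact g2, by linarith, ?_⟩
        rw [en]
        linarith
  calc ∑ n ∈ S.biUnion Jb, φ (ord n) ≤ ∑ n ∈ E ∪ E.image (· + 1), φ (ord n) :=
        Finset.sum_le_sum_of_subset_of_nonneg hsub fun n _ _ => hφ _
    _ ≤ ∑ n ∈ E, φ (ord n) + ∑ n ∈ E.image (· + 1), φ (ord n) := by
        rw [← Finset.sum_union_inter]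
        exact le_add_of_nonneg_right (Finset.sum_nonneg fun n _ => hφ _)
    _ = ∑ n ∈ E, φ (ord n) + ∑ n ∈ E, φ (ord (n + 1)) := by
        rw [Finset.sum_image (fun a _ b _ h => by simpa using h)]
    _ = _ := by rw [← Finset.sum_add_distrib]

lemma RHs_of (hRH : RiemannHypothesis) : RHs := by
  intro s h1 h2 h0
  apply hRH s h0
  · rintro ⟨k, hk⟩
    have := congrArg Complex.re hk
    simp at this
    have hk0 : (0 : ℝ) ≤ k := Nat.cast_nonneg k
    linarith
  · intro h; rw [h] at h2; simp at h2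

/-- third moment in dyadic intervals -/
theorem cube_dyadic (hRH : RiemannHypothesis) {β : ℝ} (hβ : 0 < β) :
    ∃ C T0 : ℝ, 0 < C ∧ 10 ≤ T0 ∧ ∀ T : ℝ, T0 ≤ T →
      ∑ s ∈ Zf riemannZeta T (2 * T), (mult riemannZeta s : ℝ) *
        (kk T (2 * T) (2 * Real.pi * β / Real.log T) s : ℝ) ^ 2 ≤ C * (T * Real.log T) := by
  classical
  have hpi := Real.pi_pos
  obtain ⟨C, T1, hC, hT1, h⟩ := cube_sum (RHs_of hRH) (1 / 2) (4 * Real.pi * β) (by norm_num)
    (by norm_num) (by positivity)
  have ev2 : ∀ᶠ T : ℝ in atTop, 8 * Real.log T ≤ T / 20 := by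
    have h1 := Real.isLittleO_log_id_atTop.bound (show (0 : ℝ) < 1 / 160 by norm_num)
    filter_upwards [h1, eventually_ge_atTop 1] with T h2 h3
    rw [Real.norm_of_nonneg (Real.log_nonneg h3), id, Real.norm_of_nonneg (by linarith)] at h2
    linarith
  have ev3 : ∀ᶠ T : ℝ in atTop, 20 * Real.pi * β ≤ Real.log T :=
    Real.tendsto_log_atTop.eventually_ge_atTop _
  obtain ⟨T3, hT3⟩ := (ev2.and ev3).exists_forall_of_atTop
  refine ⟨4 * C, max (max 100 (2 * T1)) T3, by positivity,
    le_trans (by norm_num) ((le_max_left _ _).trans (le_max_left _ _)), fun T hT => ?_⟩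
  have hT100 : 100 ≤ T := ((le_max_left _ _).trans (le_max_left _ _)).trans hT
  have hTT1 : 2 * T1 ≤ T := ((le_max_right _ _).trans (le_max_left _ _)).trans hT
  obtain ⟨e2, e3⟩ := hT3 T ((le_max_right _ _).trans hT)
  have hTpos : 0 < T := by linarith
  set L := Real.log T with hL
  have hLpos : 0 < L := Real.log_pos (by linarith)
  set ρ := 2 * Real.pi * β / L with hρ
  have hρ0 : 0 ≤ ρ := by positivity
  have hρ1 : ρ ≤ 1 / 10 := by
    rw [hρ, div_le_iff₀ hLpos]
    linarith
  have key : ∀ Tb A B : ℝ, T / 2 ≤ Tb → Tb ≤ 2 * T → Tb + 4 * Real.log Tb ≤ A →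
      B ≤ 2 * Tb - 4 * Real.log Tb → T / 2 ≤ B - A → B - A ≤ T →
      ∑ s ∈ Zf riemannZeta A B, (mult riemannZeta s : ℝ) * (kk A B ρ s : ℝ) ^ 2 ≤
        2 * C * (T * L) := by
    intro Tb A B h1 h2 h3 h4 h5 h6
    have hTb : 0 < Tb := by linarith
    have hlogb : Real.log Tb ≤ 2 * L := by
      have h1 : Real.log Tb ≤ Real.log (T ^ 2) := Real.log_le_log hTb (by nlinarith)
      rw [Real.log_pow] at h1
      push_cast at h1
      exact h1
    have hlogb0 : 0 < Real.log Tb := Real.log_pos (by linarith)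
    have hsq : Tb ^ (1 / 2 : ℝ) ≤ B - A := by
      rw [← Real.sqrt_eq_rpow]
      refine le_trans ?_ h5
      rw [Real.sqrt_le_left (by linarith)]
      nlinarith
    have h7 := h Tb (by linarith) A B h3 h4 hsq
    have hρρ : ρ ≤ 4 * Real.pi * β / Real.log Tb := by
      rw [hρ, div_le_div_iff₀ hLpos hlogb0]
      calc 2 * Real.pi * β * Real.log Tb ≤ 2 * Real.pi * β * (2 * L) := by gcongr
        _ = 4 * Real.pi * β * L := by ring
    calc _ ≤ ∑ s ∈ Zf riemannZeta A B, (mult riemannZeta s : ℝ) *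
        (kk A B (4 * Real.pi * β / Real.log Tb) s : ℝ) ^ 2 := by
          refine Finset.sum_le_sum fun s _ => ?_
          have h2 : (kk A B ρ s : ℝ) ≤ (kk A B (4 * Real.pi * β / Real.log Tb) s : ℝ) := by
            exact_mod_cast kk_mono A B hρρ s
          gcongr
      _ ≤ C * ((B - A) * Real.log Tb) := h7
      _ ≤ C * (T * (2 * L)) := by gcongr
      _ = _ := by ring
  have hlb : ∀ Tb : ℝ, 0 < Tb → Tb ≤ 2 * T → 4 * Real.log Tb ≤ T / 20 := by
    intro Tb h1 h2
    have h3 : Real.log Tb ≤ 2 * L := by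
      have h4 : Real.log Tb ≤ Real.log (T ^ 2) := Real.log_le_log h1 (by nlinarith)
      rw [Real.log_pow] at h4
      push_cast at h4
      exact h4
    linarith
  have k1 := key (9 / 10 * T) T (8 / 5 * T) (by linarith) (by linarith)
    (by linarith [hlb (9 / 10 * T) (by linarith) (by linarith)])
    (by linarith [hlb (9 / 10 * T) (by linarith) (by linarith)]) (by linarith) (by linarith)
  have k2 := key (13 / 10 * T) (7 / 5 * T) (2 * T) (by linarith) (by linarith)
    (by linarith [hlb (13 / 10 * T) (by linarith) (by linarith)])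
    (by linarith [hlb (13 / 10 * T) (by linarith) (by linarith)]) (by linarith) (by linarith)
  have hmono : ∀ (A B A' B' : ℝ) (s : ℂ), 1 ≤ A → 1 ≤ A' → A ≤ A' → B' ≤ B →
      (∀ s' ∈ Zf riemannZeta A B, |s.im - s'.im| ≤ ρ → A' < s'.im ∧ s'.im ≤ B') →
      (kk A B ρ s : ℝ) ≤ (kk A' B' ρ s : ℝ) := by
    intro A B A' B' s hA hA' hAA hBB hh
    rw [kk_cast, kk_cast]
    apply Finset.sum_le_sum_of_subset_of_nonneg
    · intro s' hs'
      rw [Finset.mem_filter] at hs' ⊢
      obtain ⟨h1, h2⟩ := hh s' hs'.1 hs'.2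
      have h3 := hs'.1
      rw [mem_Zf good_zeta hA] at h3
      refine ⟨?_, hs'.2⟩
      rw [mem_Zf good_zeta hA']
      exact ⟨h3.1, h3.2.1, h1, h2, h3.2.2.2.2⟩
    · intro _ _ _
      exact Nat.cast_nonneg _
  rw [Zf_split good_zeta (a := T) (b := 3 / 2 * T) (c := 2 * T) (by linarith) (by linarith)
    (by linarith)]
  have p1 : ∑ s ∈ Zf riemannZeta T (3 / 2 * T), (mult riemannZeta s : ℝ) *
      (kk T (2 * T) ρ s : ℝ) ^ 2 ≤ 2 * C * (T * L) := by
    refine le_trans ?_ k1
    calc ∑ s ∈ Zf riemannZeta T (3 / 2 * T), (mult riemannZeta s : ℝ) *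
          (kk T (2 * T) ρ s : ℝ) ^ 2 ≤ ∑ s ∈ Zf riemannZeta T (3 / 2 * T),
          (mult riemannZeta s : ℝ) * (kk T (8 / 5 * T) ρ s : ℝ) ^ 2 := by
          refine Finset.sum_le_sum fun s hs => ?_
          rw [mem_Zf good_zeta (by linarith)] at hs
          have h1 := hmono T (2 * T) T (8 / 5 * T) s (by linarith) (by linarith) le_rfl
            (by linarith) (fun s' hs' hd => by
              rw [mem_Zf good_zeta (by linarith)] at hs'
              have h2 := (abs_le.1 hd).1
              have h3 := hs.2.2.2.1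
              exact ⟨hs'.2.2.1, by linarith⟩)
          gcongr
      _ ≤ _ := by
          apply Finset.sum_le_sum_of_subset_of_nonneg
          · exact TH803TW.Zf_sub good_zeta (by linarith) le_rfl (by linarith)
          · intro _ _ _
            positivity
  have p2 : ∑ s ∈ Zf riemannZeta (3 / 2 * T) (2 * T), (mult riemannZeta s : ℝ) *
      (kk T (2 * T) ρ s : ℝ) ^ 2 ≤ 2 * C * (T * L) := by
    refine le_trans ?_ k2
    calc ∑ s ∈ Zf riemannZeta (3 / 2 * T) (2 * T), (mult riemannZeta s : ℝ) *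
          (kk T (2 * T) ρ s : ℝ) ^ 2 ≤ ∑ s ∈ Zf riemannZeta (3 / 2 * T) (2 * T),
          (mult riemannZeta s : ℝ) * (kk (7 / 5 * T) (2 * T) ρ s : ℝ) ^ 2 := by
          refine Finset.sum_le_sum fun s hs => ?_
          rw [mem_Zf good_zeta (by linarith)] at hs
          have h1 := hmono T (2 * T) (7 / 5 * T) (2 * T) s (by linarith) (by linarith)
            (by linarith) le_rfl (fun s' hs' hd => by
              rw [mem_Zf good_zeta (by linarith)] at hs'
              have h2 := (abs_le.1 hd).2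
              have h3 := hs.2.2.1
              exact ⟨by linarith, hs'.2.2.2.1⟩)
          gcongr
      _ ≤ _ := by
          apply Finset.sum_le_sum_of_subset_of_nonneg
          · exact TH803TW.Zf_sub good_zeta (by linarith) (by linarith) le_rfl
          · intro _ _ _
            positivity
  linarith

end Pool.Agent.R482.GB
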