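import Mathlib

/-! # Decay of cosine integrals, cut-off functions -/

open MeasureTheory Set Filter Topology

namespace Pool.Agent.R482.GB

/-- decay of the cosine integral of a `C²` function that vanishes at the right end point -/
lemma cos_dec {h : ℝ → ℝ} (hh : ContDiff ℝ 2 h) {a : ℝ} (ha : 0 ≤ a) (h1 : h a = 0) :
    ∃ K : ℝ, 0 ≤ K ∧ ∀ y : ℝ,
      |∫ α in (0 : ℝ)..a, h α * Real.cos (y * α)| ≤ K / (1 + y ^ 2) := by
  have hc0 : Continuous h := hh.continuous
  have hd : Differentiable ℝ h := hh.differentiable (by norm_num)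
  have hd1c : ContDiff ℝ 1 (deriv h) := by
    have h2 : ContDiff ℝ (1 + 1) h := by
      have : ((1 : WithTop ℕ∞) + 1) = 2 := by norm_num
      rw [this]; exact hh
    exact (contDiff_succ_iff_deriv.1 h2).2.2
  have hd1 : Differentiable ℝ (deriv h) := hd1c.differentiable (by norm_num)
  have hc1 : Continuous (deriv h) := hd1c.continuous
  have hc2 : Continuous (deriv (deriv h)) := by
    have h2 : ContDiff ℝ (0 + 1) (deriv h) := by
      rw [zero_add]; exact hd1c
    exact (contDiff_succ_iff_deriv.1 h2).2.2.continuous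
  set D : ℝ := |deriv h a| + |deriv h 0| + ∫ α in (0 : ℝ)..a, |deriv (deriv h) α| with hD
  set D0 : ℝ := ∫ α in (0 : ℝ)..a, |h α| with hD0
  have i2 : 0 ≤ ∫ α in (0 : ℝ)..a, |deriv (deriv h) α| :=
    intervalIntegral.integral_nonneg ha fun _ _ => abs_nonneg _
  have i0 : 0 ≤ D0 := intervalIntegral.integral_nonneg ha fun _ _ => abs_nonneg _
  have hDn : 0 ≤ D := by rw [hD]; positivity
  refine ⟨D0 + D, by positivity, fun y => ?_⟩
  set I : ℝ := ∫ α in (0 : ℝ)..a, h α * Real.cos (y * α) with hI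
  have hcc : Continuous fun α : ℝ => Real.cos (y * α) := by fun_prop
  have b0 : |I| ≤ D0 := by
    rw [hI, hD0]
    refine (intervalIntegral.abs_integral_le_integral_abs ha).trans ?_
    refine intervalIntegral.integral_mono_on ha ((hc0.mul hcc).abs.intervalIntegrable _ _)
      (hc0.abs.intervalIntegrable _ _) fun α _ => ?_
    rw [abs_mul]
    exact mul_le_of_le_one_right (abs_nonneg _) (Real.abs_cos_le_one _)
  have b2 : |∫ α in (0 : ℝ)..a, deriv (deriv h) α * Real.cos (y * α)| ≤
      ∫ α in (0 : ℝ)..a, |deriv (deriv h) α| := by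
    refine (intervalIntegral.abs_integral_le_integral_abs ha).trans ?_
    refine intervalIntegral.integral_mono_on ha ((hc2.mul hcc).abs.intervalIntegrable _ _)
      (hc2.abs.intervalIntegrable _ _) fun α _ => ?_
    rw [abs_mul]
    exact mul_le_of_le_one_right (abs_nonneg _) (Real.abs_cos_le_one _)
  have hG : ∀ α ∈ Set.uIcc (0 : ℝ) a, HasDerivAt
      (fun α : ℝ => h α * Real.sin (y * α) * y + deriv h α * Real.cos (y * α))
      (y ^ 2 * (h α * Real.cos (y * α)) + deriv (deriv h) α * Real.cos (y * α)) α := by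
    intro α _
    have g0 : HasDerivAt (fun α : ℝ => y * α) y α := by
      simpa using (hasDerivAt_id α).const_mul y
    have g1 := (hd α).hasDerivAt
    have g2 := (hd1 α).hasDerivAt
    refine (((g1.mul g0.sin).mul_const y).add (g2.mul g0.cos)).congr_deriv ?_
    ring
  have e1 := intervalIntegral.integral_eq_sub_of_hasDerivAt hG
    (Continuous.intervalIntegrable (by fun_prop) _ _)
  rw [intervalIntegral.integral_add ((Continuous.intervalIntegrable (by fun_prop) _ _))
    ((Continuous.intervalIntegrable (by fun_prop) _ _)),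
    intervalIntegral.integral_const_mul, ← hI, h1] at e1
  simp only [mul_zero, Real.sin_zero, Real.cos_zero, zero_mul, mul_one, zero_add] at e1
  have b1 : |y ^ 2 * I| ≤ D := by
    have e2 : y ^ 2 * I = deriv h a * Real.cos (y * a) - deriv h 0 -
        ∫ α in (0 : ℝ)..a, deriv (deriv h) α * Real.cos (y * α) := by linarith
    rw [e2]
    refine (abs_sub _ _).trans ?_
    have h3 : |deriv h a * Real.cos (y * a) - deriv h 0| ≤ |deriv h a| + |deriv h 0| := by
      refine (abs_sub _ _).trans ?_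
      rw [abs_mul]
      have := mul_le_of_le_one_right (abs_nonneg (deriv h a)) (Real.abs_cos_le_one (y * a))
      linarith
    rw [hD]
    linarith
  rw [le_div_iff₀ (by positivity)]
  rw [abs_mul, abs_of_nonneg (sq_nonneg y)] at b1
  nlinarith

/-- the even function `f(|α|)`, constant for `|α| ≥ a` -/
noncomputable def ev (f : ℝ → ℝ) (a α : ℝ) : ℝ := f (min |α| a)

lemma ev_cont {f : ℝ → ℝ} (hf : Continuous f) (a : ℝ) : Continuous (ev f a) := by
  unfold ev
  exact hf.comp (by fun_prop)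

lemma ev_even (f : ℝ → ℝ) (a α : ℝ) : ev f a (-α) = ev f a α := by
  unfold ev; rw [abs_neg]

lemma ev_zero {f : ℝ → ℝ} {a α : ℝ} (h : f a = 0) (hα : a ≤ |α|) : ev f a α = 0 := by
  unfold ev; rw [min_eq_right hα, h]

lemma ev_in {f : ℝ → ℝ} {a α : ℝ} (h0 : 0 ≤ α) (hα : α ≤ a) : ev f a α = f α := by
  unfold ev; rw [abs_of_nonneg h0, min_eq_left hα]

/-- integral of an even function -/
lemma int_even {F : ℝ → ℝ} (hF : Continuous F) (he : ∀ α, F (-α) = F α) (b : ℝ) :
    ∫ α in (-b)..b, F α = 2 * ∫ α in (0 : ℝ)..b, F α := by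
  have h1 : ∫ α in (-b)..(0 : ℝ), F α = ∫ α in (0 : ℝ)..b, F α := by
    have h2 := intervalIntegral.integral_comp_neg (a := 0) (b := b) (f := F)
    rw [neg_zero] at h2
    rw [← h2]
    exact intervalIntegral.integral_congr fun α _ => he α
  rw [← intervalIntegral.integral_add_adjacent_intervals (hF.intervalIntegrable (-b) 0)
    (hF.intervalIntegrable 0 b), h1]
  ring

/-- the cut-off function: `1` for `α ≤ κ₁`, `0` for `α ≥ κ` -/
noncomputable def ct (κ₁ κ α : ℝ) : ℝ := Real.smoothTransition ((κ ^ 2 - α ^ 2) / (κ ^ 2 - κ₁ ^ 2))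

lemma ct_smooth (κ₁ κ : ℝ) : ContDiff ℝ 2 (ct κ₁ κ) := by
  unfold ct
  exact Real.smoothTransition.contDiff.comp (by fun_prop)

lemma ct_nonneg (κ₁ κ α : ℝ) : 0 ≤ ct κ₁ κ α := Real.smoothTransition.nonneg _

lemma ct_le (κ₁ κ α : ℝ) : ct κ₁ κ α ≤ 1 := Real.smoothTransition.le_one _

lemma ct_one {κ₁ κ α : ℝ} (h0 : 0 < κ₁) (h1 : κ₁ < κ) (hα0 : 0 ≤ α) (hα : α ≤ κ₁) :
    ct κ₁ κ α = 1 := by
  unfold ct
  apply Real.smoothTransition.one_of_one_le
  rw [le_div_iff₀ (by nlinarith)]
  nlinarith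

lemma ct_zero {κ₁ κ α : ℝ} (h0 : 0 < κ₁) (h1 : κ₁ < κ) (hα : κ ≤ α) :
    ct κ₁ κ α = 0 := by
  unfold ct
  apply Real.smoothTransition.zero_of_nonpos
  apply div_nonpos_of_nonpos_of_nonneg
  · nlinarith
  · nlinarith

end Pool.Agent.R482.GB
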