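import Pool.Agent.R482.GB.Sm
import Pool.Agent.H382L.GapUnif

/-! # Small normalised gaps in Bohr sets: index form -/

open Complex Filter Topology Set MeasureTheory

namespace Pool.Agent.R482.GB

open SP H370 H370.A2 H370.A3 TH803TW
open SG (ord NZ zmult ZS)
open LG (dlt)

/-- a gap that is small at height `T` has a small normalised gap -/
lemma dlt_le {T β c : ℝ} (hT : 10 ≤ T) (hβ : 0 < β)
    (hL : β * (Real.log 2 + 1) ≤ (c - β) * Real.log T) {n : ℕ}
    (hn : n ∈ EE' T (2 * T) (2 * Real.pi * β / Real.log T)) : dlt n ≤ c := by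
  obtain ⟨h1, h2, h3, h4⟩ := hn
  have hpi := Real.pi_pos
  have hTpos : 0 < T := by linarith
  have hL0 : 0 < Real.log T := Real.log_pos (by linarith)
  have hmono := SG.ord_mono h1 (by omega : n ≤ n + 1)
  set x := ord n with hx
  set y := ord (n + 1) with hy
  have hx0 : 0 < x := by linarith
  have hy0 : 0 < y := by linarith
  unfold dlt
  rw [← hx, ← hy, div_le_iff₀ (by positivity)]
  have e1 : Real.log y - Real.log x ≤ (y - x) / x := by
    rw [← Real.log_div (by positivity) (by positivity)]
    have := Real.log_le_sub_one_of_pos (show 0 < y / x by positivity)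
    rw [sub_div, div_self hx0.ne']
    exact this
  have e2 : x * (Real.log y - Real.log x) ≤ y - x := by
    calc x * (Real.log y - Real.log x) ≤ x * ((y - x) / x) := by gcongr
      _ = y - x := by field_simp
  have e3 : Real.log y ≤ Real.log 2 + Real.log T := by
    rw [← Real.log_mul (by norm_num) (by positivity)]
    exact Real.log_le_log hy0 h3
  have hly : 0 ≤ Real.log y := Real.log_nonneg (by linarith)
  have e4 : (y - x) * Real.log T ≤ 2 * Real.pi * β := by
    calc (y - x) * Real.log T ≤ 2 * Real.pi * β / Real.log T * Real.log T := by gcongr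
      _ = _ := by field_simp
  have hl2 : 0 < Real.log 2 := Real.log_pos (by norm_num)
  -- multiply by log T
  have e5 : (y * Real.log y - x * Real.log x) * Real.log T ≤
      c * (2 * Real.pi) * Real.log T := by
    have g1 : y * Real.log y - x * Real.log x ≤ (y - x) * (Real.log 2 + Real.log T + 1) := by
      have : y * Real.log y - x * Real.log x = (y - x) * Real.log y +
        x * (Real.log y - Real.log x) := by ring
      rw [this]
      have g2 : (y - x) * Real.log y ≤ (y - x) * (Real.log 2 + Real.log T) := by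
        apply mul_le_mul_of_nonneg_left e3 (by linarith)
      linarith
    calc (y * Real.log y - x * Real.log x) * Real.log T ≤
        (y - x) * (Real.log 2 + Real.log T + 1) * Real.log T := by gcongr
      _ = (y - x) * Real.log T * (Real.log 2 + Real.log T + 1) := by ring
      _ ≤ 2 * Real.pi * β * (Real.log 2 + Real.log T + 1) := by gcongr
      _ = 2 * Real.pi * (β * (Real.log 2 + 1) + β * Real.log T) := by ring
      _ ≤ 2 * Real.pi * ((c - β) * Real.log T + β * Real.log T) := by gcongr
      _ = _ := by ring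
  exact le_of_mul_le_mul_right e5 hL0

/-- **a positive proportion of the zeros in a Bohr set is followed by a small gap** -/
theorem small_idx (hRH : RiemannHypothesis) {β c : ℝ} (hβ : 0 < β) (hc : β < c)
    (hV : 1 < VV β) : ∃ κ : ℝ, 0 < κ ∧ ∀ (k : ℕ) (α : Fin k → ℝ),
      (∀ n : Fin k → ℤ, ∑ j, (n j : ℝ) * α j = 0 → n = 0) →
      ∀ F : C(UnitAddTorus (Fin k), ℝ), (∀ x, 0 ≤ F x) → (∀ x, F x ≤ 1) →
      (0 < ∫ x, F x ∂(haarT k)) → ∃ N0 : ℕ, ∀ N : ℕ, N0 ≤ N →
      κ * (∫ x, F x ∂(haarT k)) ^ 2 * N ≤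
      ∑ n ∈ (Finset.Icc 1 N).filter (fun n => dlt n ≤ c), F (torusPt α (ord n)) := by
  classical
  obtain ⟨c1, hc1, h1'⟩ := small_w hRH hβ hV
  obtain ⟨C, T2, hC, hT2, h2⟩ := LG.GapAux.NZ_up
  refine ⟨c1 / (3 * C), by positivity, fun k α hα F hF hF1 hFM => ?_⟩
  obtain ⟨T1, hT1, h1⟩ := h1' k α hα F hF hF1 hFM
  obtain ⟨T3, hT3⟩ := (Real.tendsto_log_atTop.eventually_ge_atTop
    (β * (Real.log 2 + 1) / (c - β))).exists_forall_of_atTop
  set M := ∫ x, F x ∂(haarT k) with hM
  set X : ℝ := max T1 (max T2 T3) with hX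
  have hX1 : T1 ≤ X := le_max_left _ _
  have hX2 : T2 ≤ X := (le_max_left _ _).trans (le_max_right _ _)
  have hX3 : T3 ≤ X := (le_max_right _ _).trans (le_max_right _ _)
  refine ⟨NZ (3 * X) + 1, fun N hN => ?_⟩
  have hN1 : 1 ≤ N := by omega
  have hbig : 3 * X < ord N := by
    by_contra hcon
    push Not at hcon
    have := (SG.ord_le_iff hN1 (3 * X)).mp hcon
    omega
  set T : ℝ := ord N / 3 with hT
  have hTX : X ≤ T := by rw [hT]; linarith
  have hT10 : 10 ≤ T := by linarith
  have hTpos : 0 < T := by linarith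
  have hL0 : 0 < Real.log T := Real.log_pos (by linarith)
  have hNle : (N : ℝ) ≤ 3 * C * (T * Real.log T) := by
    have g1 : N ≤ NZ (2 * (3 / 2 * T)) := by
      apply (SG.ord_le_iff hN1 _).mp
      rw [hT]
      apply le_of_eq
      ring
    have g2 := h2 (3 / 2 * T) (by linarith)
    have g3 : (N : ℝ) ≤ NZ (2 * (3 / 2 * T)) := by exact_mod_cast g1
    have g4 : Real.log (3 / 2 * T) ≤ 2 * Real.log T := by
      have : Real.log (3 / 2 * T) ≤ Real.log (T ^ 2) := Real.log_le_log (by positivity) (by nlinarith)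
      rw [Real.log_pow] at this
      push_cast at this
      exact this
    calc (N : ℝ) ≤ C * (3 / 2 * T * Real.log (3 / 2 * T)) := g3.trans g2
      _ ≤ C * (3 / 2 * T * (2 * Real.log T)) := by gcongr
      _ = _ := by ring
  have hLc : β * (Real.log 2 + 1) ≤ (c - β) * Real.log T := by
    have := hT3 T (hX3.trans hTX)
    rw [div_le_iff₀ (by linarith)] at this
    linarith
  calc c1 / (3 * C) * M ^ 2 * N ≤ c1 / (3 * C) * M ^ 2 * (3 * C * (T * Real.log T)) := by gcongr
    _ = c1 * M ^ 2 * (T * Real.log T) := by field_simp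
    _ ≤ _ := h1 T (hX1.trans hTX)
    _ ≤ _ := by
      apply Finset.sum_le_sum_of_subset_of_nonneg _ fun _ _ _ => hF _
      intro n hn
      rw [Set.Finite.mem_toFinset] at hn
      rw [Finset.mem_filter, Finset.mem_Icc]
      refine ⟨⟨hn.1, ?_⟩, dlt_le hT10 hβ hLc hn⟩
      by_contra hcon
      push Not at hcon
      have g1 := SG.ord_mono hN1 (by omega : N ≤ n + 1)
      have g2 := hn.2.2.1
      rw [hT] at g2
      have : 0 < ord N := by linarith
      linarith

/-- inner approximation of an open set -/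
lemma open_inner {k : ℕ} {U : Set (UnitAddTorus (Fin k))} (hU : IsOpen U)
    (hpos : 0 < (haarT k U).toReal) : ∃ F : C(UnitAddTorus (Fin k), ℝ), (∀ x, 0 ≤ F x) ∧
      (∀ x, F x ≤ 1) ∧ (∀ x, x ∉ U → F x = 0) ∧ (haarT k U).toReal / 2 ≤ ∫ x, F x ∂(haarT k) := by
  have hlt : ENNReal.ofReal ((haarT k U).toReal / 2) < haarT k U := by
    rw [ENNReal.ofReal_lt_iff_lt_toReal (by positivity) (measure_ne_top _ _)]
    linarith
  obtain ⟨K, hKU, hK, hKm⟩ := hU.exists_lt_isCompact hlt
  obtain ⟨f, hf0, hf1, hf⟩ := exists_continuous_zero_one_of_isClosed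
    (s := Uᶜ) (t := K) hU.isClosed_compl hK.isClosed (by
      rw [Set.disjoint_compl_left_iff_subset]
      exact hKU)
  refine ⟨f, fun x => (hf x).1, fun x => (hf x).2, fun x hx => hf0 hx, ?_⟩
  have hint : Integrable f (haarT k) := (map_continuous f).integrable_of_hasCompactSupport
    (HasCompactSupport.of_compactSpace _)
  have h1 : (haarT k K).toReal ≤ ∫ x, f x ∂(haarT k) := by
    rw [← measureReal_def, ← integral_indicator_one hK.measurableSet]
    refine integral_mono ((integrable_const (1 : ℝ)).indicator hK.measurableSet) hint ?_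
    intro x
    by_cases hx : x ∈ K
    · rw [Set.indicator_of_mem hx, hf1 hx]
    · rw [Set.indicator_of_notMem hx]
      exact (hf x).1
  refine le_trans ?_ h1
  have h2 := ENNReal.toReal_mono (measure_ne_top (haarT k) K) hKm.le
  rwa [ENNReal.toReal_ofReal (by positivity)] at h2

/-- continuity of the lower bound function -/
lemma VV_cont : ∃ β : ℝ, 0 < β ∧ β < 6073 / 10000 ∧ 1 < VV β := by
  have hval : 1 < VV (6073 / 10000) := by
    have h := val_gt
    unfold VV
    rw [min_eq_left (by norm_num)]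
    have e : ∫ x in (0 : ℝ)..1, x * ((6073 / 10000 : ℝ) * (1 - (6073 / 10000 : ℝ) * x +
        Real.sin (2 * Real.pi * ((6073 / 10000 : ℝ) * x)) / (2 * Real.pi))) =
        (6073 / 10000 : ℝ) * ∫ x in (0 : ℝ)..1, x * (1 - (6073 / 10000 : ℝ) * x +
        Real.sin (2 * Real.pi * ((6073 / 10000 : ℝ) * x)) / (2 * Real.pi)) := by
      rw [← intervalIntegral.integral_const_mul]
      refine intervalIntegral.integral_congr fun x _ => ?_
      ring
    rw [e]
    linarith
  set W : ℝ → ℝ := fun β => β + 2 * ∫ x in (0 : ℝ)..1,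
    x * (β * (1 - β * x + Real.sin (2 * Real.pi * (β * x)) / (2 * Real.pi))) with hW
  have hWc : Continuous W := by
    apply Continuous.add continuous_id
    apply Continuous.mul continuous_const
    apply intervalIntegral.continuous_parametric_intervalIntegral_of_continuous'
    fun_prop
  have hWe : ∀ β : ℝ, 0 < β → β ≤ 1 → W β = VV β := by
    intro β h0 h1
    unfold VV
    rw [min_eq_left (by rw [le_div_iff₀ h0]; linarith)]
  have h1 : ∀ᶠ β in 𝓝 (6073 / 10000 : ℝ), 1 < W β := by
    apply (hWc.tendsto _).eventually_const_lt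
    rw [hWe _ (by norm_num) (by norm_num)]
    exact hval
  have h2 : ∀ᶠ β in 𝓝[<] (6073 / 10000 : ℝ), 1 < W β ∧ 0 < β ∧ β < 6073 / 10000 := by
    refine (h1.filter_mono nhdsWithin_le_nhds).and ((?_ : ∀ᶠ β in _, (0 : ℝ) < β).and
      self_mem_nhdsWithin)
    exact (lt_mem_nhds (by norm_num)).filter_mono nhdsWithin_le_nhds
  obtain ⟨β, a1, a2, a3⟩ := h2.exists
  exact ⟨β, a2, a3, by rw [← hWe β a2 (by linarith)]; exact a1⟩

end Pool.Agent.R482.GB
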