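import Pool.Agent.R482.GB.Fin

/-! # Zeros in Bohr sets are not close to a lattice coarser than the half-integers: the kernels -/

open Complex Filter Topology Set MeasureTheory

namespace Pool.Agent.R482.GB

open SP H370 H370.A2 H370.A3 TH803TW

/-- decay of the sine integral of a `C²` function that vanishes at both end points -/
lemma sin_dec {h : ℝ → ℝ} (hh : ContDiff ℝ 2 h) {a : ℝ} (ha : 0 ≤ a) (h0 : h 0 = 0)
    (h1 : h a = 0) : ∃ K : ℝ, 0 ≤ K ∧ ∀ y : ℝ,
      |∫ α in (0 : ℝ)..a, h α * Real.sin (y * α)| ≤ K / (1 + y ^ 2) := by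
  have hc0 : Continuous h := hh.continuous
  have hd : Differentiable ℝ h := hh.differentiable (by norm_num)
  have hd1c : ContDiff ℝ 1 (deriv h) := by
    have h2 : ContDiff ℝ (1 + 1) h := by
      have : ((1 : WithTop ℕ∞) + 1) = 2 := by norm_num
      rw [this]; exact hh
    exact (contDiff_succ_iff_deriv.1 h2).2.2
  have hd1 : Differentiable ℝ (deriv h) := hd1c.differentiable (by norm_num)
  have hc1 : Continuous (deriv h) := hd1c.continuous
  have hc2 : Continuous (deriv (deriv h)) := by
    have h2 : ContDiff ℝ (0 + 1) (deriv h) := by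
      rw [zero_add]; exact hd1c
    exact (contDiff_succ_iff_deriv.1 h2).2.2.continuous
  set D : ℝ := |deriv h a| + ∫ α in (0 : ℝ)..a, |deriv (deriv h) α| with hD
  set D0 : ℝ := ∫ α in (0 : ℝ)..a, |h α| with hD0
  have i2 : 0 ≤ ∫ α in (0 : ℝ)..a, |deriv (deriv h) α| :=
    intervalIntegral.integral_nonneg ha fun _ _ => abs_nonneg _
  have i0 : 0 ≤ D0 := intervalIntegral.integral_nonneg ha fun _ _ => abs_nonneg _
  have hDn : 0 ≤ D := by rw [hD]; positivity
  refine ⟨D0 + D, by positivity, fun y => ?_⟩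
  set I : ℝ := ∫ α in (0 : ℝ)..a, h α * Real.sin (y * α) with hI
  have hcc : Continuous fun α : ℝ => Real.sin (y * α) := by fun_prop
  have b0 : |I| ≤ D0 := by
    rw [hI, hD0]
    refine (intervalIntegral.abs_integral_le_integral_abs ha).trans ?_
    refine intervalIntegral.integral_mono_on ha ((hc0.mul hcc).abs.intervalIntegrable _ _)
      (hc0.abs.intervalIntegrable _ _) fun α _ => ?_
    rw [abs_mul]
    exact mul_le_of_le_one_right (abs_nonneg _) (Real.abs_sin_le_one _)
  have b2 : |∫ α in (0 : ℝ)..a, deriv (deriv h) α * Real.sin (y * α)| ≤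
      ∫ α in (0 : ℝ)..a, |deriv (deriv h) α| := by
    refine (intervalIntegral.abs_integral_le_integral_abs ha).trans ?_
    refine intervalIntegral.integral_mono_on ha ((hc2.mul hcc).abs.intervalIntegrable _ _)
      (hc2.abs.intervalIntegrable _ _) fun α _ => ?_
    rw [abs_mul]
    exact mul_le_of_le_one_right (abs_nonneg _) (Real.abs_sin_le_one _)
  have hG : ∀ α ∈ Set.uIcc (0 : ℝ) a, HasDerivAt
      (fun α : ℝ => deriv h α * Real.sin (y * α) - h α * Real.cos (y * α) * y)
      (y ^ 2 * (h α * Real.sin (y * α)) + deriv (deriv h) α * Real.sin (y * α)) α := by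
    intro α _
    have g0 : HasDerivAt (fun α : ℝ => y * α) y α := by
      simpa using (hasDerivAt_id α).const_mul y
    have g1 := (hd α).hasDerivAt
    have g2 := (hd1 α).hasDerivAt
    refine ((g2.mul g0.sin).sub ((g1.mul g0.cos).mul_const y)).congr_deriv ?_
    ring
  have e1 := intervalIntegral.integral_eq_sub_of_hasDerivAt hG
    (Continuous.intervalIntegrable (by fun_prop) _ _)
  rw [intervalIntegral.integral_add ((Continuous.intervalIntegrable (by fun_prop) _ _))
    ((Continuous.intervalIntegrable (by fun_prop) _ _)),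
    intervalIntegral.integral_const_mul, ← hI, h1, h0] at e1
  simp only [mul_zero, Real.sin_zero, Real.cos_zero, zero_mul, mul_one, sub_zero] at e1
  have b1 : |y ^ 2 * I| ≤ D := by
    have e2 : y ^ 2 * I = deriv h a * Real.sin (y * a) -
        ∫ α in (0 : ℝ)..a, deriv (deriv h) α * Real.sin (y * α) := by linarith
    rw [e2]
    refine (abs_sub _ _).trans ?_
    rw [abs_mul]
    have := mul_le_of_le_one_right (abs_nonneg (deriv h a)) (Real.abs_sin_le_one (y * a))
    rw [hD]
    linarith
  rw [le_div_iff₀ (by positivity)]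
  rw [abs_mul, abs_of_nonneg (sq_nonneg y)] at b1
  nlinarith

/-- the bump function -/
noncomputable def bmp (h : ℝ) (hh : 0 < h) : ContDiffBump h :=
  ⟨h / 4, h / 2, by positivity, by linarith⟩

lemma bmp_zero {h : ℝ} (hh : 0 < h) {w : ℝ} (hw : w ≤ h / 2 ∨ 3 / 2 * h ≤ w) :
    bmp h hh w = 0 := by
  apply (bmp h hh).zero_of_le_dist
  show h / 2 ≤ dist w h
  rw [Real.dist_eq]
  rcases hw with hw | hw
  · rw [abs_sub_comm]
    exact le_trans (by linarith) (le_abs_self _)
  · exact le_trans (by linarith) (le_abs_self _)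

lemma bmp_int {h : ℝ} (hh : 0 < h) : 0 < ∫ w, w * bmp h hh w := by
  have hc : Continuous fun w : ℝ => w * bmp h hh w :=
    continuous_id.mul (bmp h hh).continuous
  have hs : HasCompactSupport fun w : ℝ => w * bmp h hh w :=
    (bmp h hh).hasCompactSupport.mul_left
  apply hc.integral_pos_of_hasCompactSupport_nonneg_nonzero hs (x := h)
  · intro w
    rcases le_or_gt w (h / 2) with hw | hw
    · have := bmp_zero hh (Or.inl hw)
      show (0 : ℝ) ≤ w * bmp h hh w
      rw [this, mul_zero]
    · exact mul_nonneg (by linarith) (bmp h hh).nonneg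
  · have h1 : bmp h hh h = 1 := (bmp h hh).one_of_mem_closedBall
      (Metric.mem_closedBall_self (bmp h hh).rIn_pos.le)
    show h * bmp h hh h ≠ 0
    rw [h1, mul_one]
    exact hh.ne'

/-- the two kernels -/
noncomputable def kf (h : ℝ) (hh : 0 < h) (θ x : ℝ) : ℝ := bmp h hh (x - θ / 2)
noncomputable def kg (h : ℝ) (hh : 0 < h) (θ x : ℝ) : ℝ := bmp h hh (θ / 2 - x)

lemma int_kf {h θ A : ℝ} (hh : 0 < h) (hθ : 2 * h ≤ θ / 2) (hA : θ / 2 + 3 / 2 * h ≤ A)
    (G : ℝ → ℝ) : ∫ x in (0 : ℝ)..A, kf h hh θ x * G x =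
      ∫ w, bmp h hh w * G (w + θ / 2) := by
  rw [intervalIntegral.integral_eq_integral_of_support_subset]
  · have := integral_sub_right_eq_self (μ := volume)
      (fun w : ℝ => bmp h hh w * G (w + θ / 2)) (θ / 2)
    rw [← this]
    refine integral_congr_ae (Eventually.of_forall fun x => ?_)
    simp only [kf, sub_add_cancel]
  · intro x hx
    rw [Function.mem_support] at hx
    rw [Set.mem_Ioc]
    by_contra hcon
    apply hx
    have : kf h hh θ x = 0 := by
      apply bmp_zero
      by_contra hcon2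
      push Not at hcon2
      apply hcon
      constructor <;> linarith [hcon2.1, hcon2.2]
    rw [this, zero_mul]

lemma int_kg {h θ A : ℝ} (hh : 0 < h) (hθ : 2 * h ≤ θ / 2) (hA : θ / 2 ≤ A)
    (G : ℝ → ℝ) : ∫ x in (0 : ℝ)..A, kg h hh θ x * G x =
      ∫ w, bmp h hh w * G (θ / 2 - w) := by
  rw [intervalIntegral.integral_eq_integral_of_support_subset]
  · have := integral_sub_left_eq_self
      (fun w : ℝ => bmp h hh w * G (θ / 2 - w)) volume (θ / 2)
    rw [← this]
    refine integral_congr_ae (Eventually.of_forall fun x => ?_)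
    simp only [kg, sub_sub_cancel]
  · intro x hx
    rw [Function.mem_support] at hx
    rw [Set.mem_Ioc]
    by_contra hcon
    apply hx
    have : kg h hh θ x = 0 := by
      apply bmp_zero
      by_contra hcon2
      push Not at hcon2
      apply hcon
      constructor <;> linarith [hcon2.1, hcon2.2]
    rw [this, zero_mul]

lemma bint {h : ℝ} (hh : 0 < h) {G : ℝ → ℝ} (hG : Continuous G) :
    Integrable fun w => bmp h hh w * G w :=
  ((bmp h hh).continuous.mul hG).integrable_of_hasCompactSupport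
    (bmp h hh).hasCompactSupport.mul_right

/-- the difference of the cosine transforms -/
lemma CC_diff {h θ A : ℝ} (hh : 0 < h) (hθ : 2 * h ≤ θ / 2) (hA : θ / 2 + 3 / 2 * h ≤ A) :
    ∃ K : ℝ, 0 < K ∧ ∀ y : ℝ, |CC (kf h hh θ) A y - CC (kg h hh θ) A y| ≤
      K * (|Real.sin (θ / 2 * y)| / (1 + y ^ 2)) := by
  obtain ⟨K, hK, hdec⟩ := sin_dec (h := bmp h hh) ((bmp h hh).contDiff) (a := 2 * h)
    (by positivity) (bmp_zero hh (Or.inl (by positivity))) (bmp_zero hh (Or.inr (by linarith)))
  refine ⟨4 * (K + 1), by positivity, fun y => ?_⟩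
  have e1 : CC (kf h hh θ) A y = 2 * ∫ w, bmp h hh w * Real.cos (y * (w + θ / 2)) := by
    unfold CC
    rw [int_kf hh hθ hA (fun x => Real.cos (y * x))]
  have e2 : CC (kg h hh θ) A y = 2 * ∫ w, bmp h hh w * Real.cos (y * (θ / 2 - w)) := by
    unfold CC
    rw [int_kg hh hθ (by linarith) (fun x => Real.cos (y * x))]
  have e3 : ∫ w, bmp h hh w * Real.sin (y * w) =
      ∫ α in (0 : ℝ)..(2 * h), bmp h hh α * Real.sin (y * α) := by
    rw [intervalIntegral.integral_eq_integral_of_support_subset]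
    intro x hx
    rw [Function.mem_support] at hx
    rw [Set.mem_Ioc]
    by_contra hcon
    apply hx
    have : bmp h hh x = 0 := by
      apply bmp_zero
      by_contra hcon2
      push Not at hcon2
      apply hcon
      constructor <;> linarith [hcon2.1, hcon2.2]
    rw [this, zero_mul]
  have e4 : CC (kf h hh θ) A y - CC (kg h hh θ) A y =
      -(4 * Real.sin (θ / 2 * y) * ∫ w, bmp h hh w * Real.sin (y * w)) := by
    rw [e1, e2, ← mul_sub, ← integral_sub (bint hh (by fun_prop)) (bint hh (by fun_prop))]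
    have : ∀ w : ℝ, bmp h hh w * Real.cos (y * (w + θ / 2)) -
        bmp h hh w * Real.cos (y * (θ / 2 - w)) =
        (-(2 * Real.sin (θ / 2 * y))) * (bmp h hh w * Real.sin (y * w)) := by
      intro w
      have a1 : y * (w + θ / 2) = θ / 2 * y + y * w := by ring
      have a2 : y * (θ / 2 - w) = θ / 2 * y - y * w := by ring
      rw [a1, a2, Real.cos_add, Real.cos_sub]
      ring
    simp only [this]
    rw [integral_const_mul]
    ring
  rw [e4, abs_neg, abs_mul, abs_mul, e3, abs_of_pos (by norm_num : (0 : ℝ) < 4)]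
  have h5 := hdec y
  calc 4 * |Real.sin (θ / 2 * y)| * |∫ α in (0 : ℝ)..(2 * h), bmp h hh α * Real.sin (y * α)| ≤
      4 * |Real.sin (θ / 2 * y)| * (K / (1 + y ^ 2)) := by gcongr
    _ ≤ 4 * |Real.sin (θ / 2 * y)| * ((K + 1) / (1 + y ^ 2)) := by gcongr; linarith
    _ = _ := by ring

/-- **the weighted sum over pairs of zeros of the distance from the lattice** -/
theorem latA (hRH : RiemannHypothesis) {θ : ℝ} (hθ : 0 < θ) (hθ2 : θ < 2) :
    ∃ c : ℝ, 0 < c ∧ ∀ (k : ℕ) (α : Fin k → ℝ),
      (∀ n : Fin k → ℤ, ∑ j, (n j : ℝ) * α j = 0 → n = 0) →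
      ∀ F : C(UnitAddTorus (Fin k), ℝ), (∀ x, 0 ≤ F x) → (0 < ∫ x, F x ∂(haarT k)) →
      ∃ T0 : ℝ, 10 ≤ T0 ∧ ∀ T : ℝ, T0 ≤ T →
      c * (∫ x, F x ∂(haarT k)) * (T * Real.log T) ≤
      ∑ s ∈ Zf riemannZeta T (2 * T), ∑ s' ∈ Zf riemannZeta T (2 * T),
        (mult riemannZeta s : ℝ) * (mult riemannZeta s' : ℝ) * (F (torusPt α s.im) *
          (|Real.sin (θ / 2 * (Real.log T * (s.im - s'.im)))| /
            (1 + (Real.log T * (s.im - s'.im)) ^ 2))) := by
  classical
  have hpi := Real.pi_pos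
  set h : ℝ := (min 1 θ - θ / 2) / 2 with hh'
  have hm : θ / 2 < min 1 θ := lt_min (by linarith) (by linarith)
  have hh : 0 < h := by rw [hh']; linarith
  have hθh : 2 * h ≤ θ / 2 := by
    have := min_le_right 1 θ
    rw [hh']; linarith
  have h1 : θ / 2 + 2 * h ≤ 1 := by
    have := min_le_left 1 θ
    rw [hh']; linarith
  set A : ℝ := θ / 2 + 3 / 2 * h with hA
  have hA0 : 0 < A := by positivity
  have hA1 : A < 1 := by rw [hA]; linarith
  obtain ⟨K, hK, hKd⟩ := CC_diff hh hθh (A := A) le_rfl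
  set B1 : ℝ := ∫ w, w * bmp h hh w with hB1
  have hB1p : 0 < B1 := bmp_int hh
  refine ⟨B1 / (Real.pi * K), by positivity, fun k α hα F hF hM => ?_⟩
  set M := ∫ x, F x ∂(haarT k) with hMd
  set η : ℝ := B1 * M / (2 * Real.pi) with hη
  have hη0 : 0 < η := by positivity
  have cf : ContDiff ℝ 2 (kf h hh θ) := by
    unfold kf
    exact (bmp h hh).contDiff.comp (contDiff_id.sub contDiff_const)
  have cg : ContDiff ℝ 2 (fun x => -kg h hh θ x) := by
    unfold kg
    exact ((bmp h hh).contDiff.comp (contDiff_const.sub contDiff_id)).neg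
  have zf : kf h hh θ A = 0 := bmp_zero hh (Or.inr (by rw [hA]; linarith))
  have zg : (fun x => -kg h hh θ x) A = 0 := by
    show -kg h hh θ A = 0
    rw [neg_eq_zero]
    exact bmp_zero hh (Or.inl (by rw [hA]; linarith))
  have zf0 : kf h hh θ 0 = 0 := bmp_zero hh (Or.inl (by linarith))
  have zg0 : kg h hh θ 0 = 0 := bmp_zero hh (Or.inr (by linarith))
  obtain ⟨T1, hT1, w1⟩ := weights hRH hA0 cf zf (κ₀ := (A + 1) / 2) (by linarith)
    (fun x h1 h2 => absurd h2 (by linarith)) hα F hF hη0
  obtain ⟨T2, hT2, w2⟩ := weights hRH hA0 cg zg (κ₀ := (A + 1) / 2) (by linarith)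
    (fun x h1 h2 => absurd h2 (by linarith)) hα F hF hη0
  refine ⟨max T1 T2, hT1.trans (le_max_left _ _), fun T hT => ?_⟩
  have v1 := w1 T ((le_max_left _ _).trans hT)
  have v2 := w2 T ((le_max_right _ _).trans hT)
  have hT10 : 10 ≤ T := hT1.trans ((le_max_left _ _).trans hT)
  have hTpos : 0 < T := by linarith
  set L := Real.log T with hL
  have hLpos : 0 < L := Real.log_pos (by linarith)
  rw [min_eq_right hA1.le] at v1 v2
  have i1 : ∫ x in (0 : ℝ)..A, x * kf h hh θ x = B1 + θ / 2 * ∫ w, bmp h hh w := by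
    have e1 : ∫ x in (0 : ℝ)..A, x * kf h hh θ x = ∫ x in (0 : ℝ)..A, kf h hh θ x * x :=
      intervalIntegral.integral_congr fun x _ => mul_comm _ _
    rw [e1, int_kf hh hθh le_rfl (fun x => x)]
    have e2 : ∀ w : ℝ, bmp h hh w * (w + θ / 2) = bmp h hh w * w + θ / 2 * (bmp h hh w * 1) := by
      intro w; ring
    simp only [e2]
    have j1 : Integrable (fun w : ℝ => bmp h hh w * w) :=
      bint hh (G := fun w => w) continuous_id'
    have j2 : Integrable (fun w : ℝ => θ / 2 * (bmp h hh w * 1)) :=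
      (bint hh (G := fun _ => 1) continuous_const).const_mul (θ / 2)
    rw [integral_add j1 j2, integral_const_mul]
    congr 1
    · refine integral_congr_ae (Eventually.of_forall fun w => mul_comm _ _)
    · simp only [mul_one]
  have i2 : ∫ x in (0 : ℝ)..A, x * -kg h hh θ x = B1 - θ / 2 * ∫ w, bmp h hh w := by
    have e1 : ∫ x in (0 : ℝ)..A, x * -kg h hh θ x = ∫ x in (0 : ℝ)..A, kg h hh θ x * (-x) :=
      intervalIntegral.integral_congr fun x _ => by ring
    rw [e1, int_kg hh hθh (by rw [hA]; linarith) (fun x => -x)]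
    have e2 : ∀ w : ℝ, bmp h hh w * (-(θ / 2 - w)) =
        bmp h hh w * w - θ / 2 * (bmp h hh w * 1) := by
      intro w; ring
    simp only [e2]
    have j1 : Integrable (fun w : ℝ => bmp h hh w * w) :=
      bint hh (G := fun w => w) continuous_id'
    have j2 : Integrable (fun w : ℝ => θ / 2 * (bmp h hh w * 1)) :=
      (bint hh (G := fun _ => 1) continuous_const).const_mul (θ / 2)
    rw [integral_sub j1 j2, integral_const_mul]
    congr 1
    · refine integral_congr_ae (Eventually.of_forall fun w => mul_comm _ _)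
    · simp only [mul_one]
  rw [i1, zf0] at v1
  rw [i2, zg0, neg_zero] at v2
  have hneg : PQ (fun x => -kg h hh θ x) A T (fun t => F (torusPt α t)) =
      -PQ (kg h hh θ) A T (fun t => F (torusPt α t)) := by
    unfold PQ
    rw [← Finset.sum_neg_distrib]
    refine Finset.sum_congr rfl fun s _ => ?_
    rw [← Finset.sum_neg_distrib]
    refine Finset.sum_congr rfl fun s' _ => ?_
    have : CC (fun x => -kg h hh θ x) A (L * (s.im - s'.im)) =
        -CC (kg h hh θ) A (L * (s.im - s'.im)) := by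
      unfold CC
      rw [← mul_neg, ← intervalIntegral.integral_neg]
      congr 1
      refine intervalIntegral.integral_congr fun x _ => ?_
      ring
    rw [this]
    ring
  rw [hneg] at v2
  have hup : PQ (kf h hh θ) A T (fun t => F (torusPt α t)) -
      PQ (kg h hh θ) A T (fun t => F (torusPt α t)) ≤
      K * ∑ s ∈ Zf riemannZeta T (2 * T), ∑ s' ∈ Zf riemannZeta T (2 * T),
        (mult riemannZeta s : ℝ) * (mult riemannZeta s' : ℝ) * (F (torusPt α s.im) *
          (|Real.sin (θ / 2 * (L * (s.im - s'.im)))| / (1 + (L * (s.im - s'.im)) ^ 2))) := by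
    unfold PQ
    rw [← Finset.sum_sub_distrib, Finset.mul_sum]
    refine Finset.sum_le_sum fun s _ => ?_
    rw [← Finset.sum_sub_distrib, Finset.mul_sum]
    refine Finset.sum_le_sum fun s' _ => ?_
    have g1 := (le_abs_self _).trans (hKd (L * (s.im - s'.im)))
    have g2 : 0 ≤ (mult riemannZeta s : ℝ) * (mult riemannZeta s' : ℝ) *
        F (torusPt α s.im) := mul_nonneg (by positivity) (hF _)
    calc _ = ((mult riemannZeta s : ℝ) * (mult riemannZeta s' : ℝ) * F (torusPt α s.im)) *
        (CC (kf h hh θ) A (L * (s.im - s'.im)) - CC (kg h hh θ) A (L * (s.im - s'.im))) := by ring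
      _ ≤ ((mult riemannZeta s : ℝ) * (mult riemannZeta s' : ℝ) * F (torusPt α s.im)) *
        (K * (|Real.sin (θ / 2 * (L * (s.im - s'.im)))| / (1 + (L * (s.im - s'.im)) ^ 2))) :=
          mul_le_mul_of_nonneg_left g1 g2
      _ = _ := by ring
  set S0 := ∑ s ∈ Zf riemannZeta T (2 * T), ∑ s' ∈ Zf riemannZeta T (2 * T),
        (mult riemannZeta s : ℝ) * (mult riemannZeta s' : ℝ) * (F (torusPt α s.im) *
          (|Real.sin (θ / 2 * (L * (s.im - s'.im)))| / (1 + (L * (s.im - s'.im)) ^ 2))) with hS0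
  have hlow : B1 / Real.pi * M * (T * L) ≤ K * S0 := by
    refine le_trans ?_ hup
    have e : B1 / Real.pi * M * (T * L) =
        (T * L / (2 * Real.pi)) * (M * (2 * (B1 + θ / 2 * ∫ w, bmp h hh w))) +
        (T * L / (2 * Real.pi)) * (M * (2 * (B1 - θ / 2 * ∫ w, bmp h hh w))) -
        2 * (η * (T * L)) := by
      rw [hη]
      field_simp
      ring
    rw [e]
    simp only [zero_add] at v1 v2
    linarith
  calc B1 / (Real.pi * K) * M * (T * L) = (B1 / Real.pi * M * (T * L)) / K := by
        field_simp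
    _ ≤ (K * S0) / K := by gcongr
    _ = S0 := by field_simp

end Pool.Agent.R482.GB
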