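import Pool.Agent.R482.GB.LatA

/-! # The tail of the pair sum -/

open Complex Filter Topology Set MeasureTheory

namespace Pool.Agent.R482.GB

open SP H370 H370.A2 H370.A3 TH803TW

/-- Schur test for sums over pairs, grouped in cells -/
lemma schur_cells {ι : Type*} (S : Finset ι) (m : ι → ℝ) (c : ι → ℤ)
    (k : ℤ → ℝ) (hk : ∀ q, 0 ≤ k q) (hsym : ∀ q, k (-q) = k q) {K : ℝ}
    (hK : ∀ P : Finset ℤ, ∑ q ∈ P, k q ≤ K) (hm : ∀ i, 0 ≤ m i) :
    ∑ i ∈ S, ∑ j ∈ S, m i * m j * k (c i - c j) ≤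
      K * ∑ i ∈ S, m i * ∑ j ∈ S.filter (fun j => c j = c i), m j := by
  classical
  set P := S.image c with hP
  set M : ℤ → ℝ := fun p => ∑ j ∈ S.filter (fun j => c j = p), m j with hM
  have hM0 : ∀ p, 0 ≤ M p := fun p => Finset.sum_nonneg fun j _ => hm j
  have hgrp : ∀ f : ℤ → ℝ, ∑ i ∈ S, m i * f (c i) = ∑ p ∈ P, M p * f p := by
    intro f
    rw [← Finset.sum_fiberwise_of_maps_to (s := S) (t := P) (g := c)
      (fun i hi => Finset.mem_image_of_mem c hi)]
    refine Finset.sum_congr rfl fun p _ => ?_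
    rw [hM, Finset.sum_mul]
    refine Finset.sum_congr rfl fun i hi => ?_
    rw [(Finset.mem_filter.1 hi).2]
  have e1 : ∑ i ∈ S, ∑ j ∈ S, m i * m j * k (c i - c j) =
      ∑ p ∈ P, M p * ∑ q ∈ P, M q * k (p - q) := by
    rw [← hgrp (fun p => ∑ q ∈ P, M q * k (p - q))]
    refine Finset.sum_congr rfl fun i _ => ?_
    show _ = m i * ∑ q ∈ P, M q * k (c i - q)
    rw [← hgrp (fun q => k (c i - q)), Finset.mul_sum]
    refine Finset.sum_congr rfl fun j _ => by ring
  have e2 : ∑ i ∈ S, m i * ∑ j ∈ S.filter (fun j => c j = c i), m j =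
      ∑ p ∈ P, M p * M p := hgrp M
  rw [e1, e2]
  have hrow : ∀ p, ∑ q ∈ P, k (p - q) ≤ K := by
    intro p
    have h1 : ∑ q ∈ P, k (p - q) = ∑ r ∈ P.image (fun q => p - q), k r :=
      (Finset.sum_image fun a _ b _ h => by simpa using h).symm
    rw [h1]
    exact hK _
  have hcol : ∀ q, ∑ p ∈ P, k (p - q) ≤ K := by
    intro q
    have h1 : ∑ p ∈ P, k (p - q) = ∑ p ∈ P, k (q - p) := by
      refine Finset.sum_congr rfl fun p _ => ?_
      rw [← hsym, neg_sub]
    rw [h1]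
    exact hrow q
  calc ∑ p ∈ P, M p * ∑ q ∈ P, M q * k (p - q) =
      ∑ p ∈ P, ∑ q ∈ P, M p * M q * k (p - q) := by
        refine Finset.sum_congr rfl fun p _ => ?_
        rw [Finset.mul_sum]
        refine Finset.sum_congr rfl fun q _ => by ring
    _ ≤ ∑ p ∈ P, ∑ q ∈ P, (M p ^ 2 / 2 * k (p - q) + M q ^ 2 / 2 * k (p - q)) := by
        refine Finset.sum_le_sum fun p _ => Finset.sum_le_sum fun q _ => ?_
        have h1 := hk (p - q)
        have h2 : M p * M q ≤ M p ^ 2 / 2 + M q ^ 2 / 2 := by nlinarith [sq_nonneg (M p - M q)]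
        calc M p * M q * k (p - q) ≤ (M p ^ 2 / 2 + M q ^ 2 / 2) * k (p - q) := by gcongr
          _ = _ := by ring
    _ = ∑ p ∈ P, M p ^ 2 / 2 * ∑ q ∈ P, k (p - q) +
        ∑ q ∈ P, M q ^ 2 / 2 * ∑ p ∈ P, k (p - q) := by
        simp only [Finset.sum_add_distrib, Finset.mul_sum]
        congr 1
        rw [Finset.sum_comm]
    _ ≤ ∑ p ∈ P, M p ^ 2 / 2 * K + ∑ q ∈ P, M q ^ 2 / 2 * K := by
        gcongr with p _ q _
        · exact hrow p
        · exact hcol q
    _ = K * ∑ p ∈ P, M p * M p := by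
        rw [← Finset.sum_add_distrib, Finset.mul_sum]
        refine Finset.sum_congr rfl fun p _ => by ring

/-- the tail kernel on the integers -/
noncomputable def tk (Q : ℕ) (q : ℤ) : ℝ := if (Q : ℤ) < |q| then 1 / (q : ℝ) ^ 2 else 0

lemma tk_nonneg (Q : ℕ) (q : ℤ) : 0 ≤ tk Q q := by
  unfold tk
  split_ifs
  · positivity
  · exact le_rfl

lemma tk_neg (Q : ℕ) (q : ℤ) : tk Q (-q) = tk Q q := by
  unfold tk
  rw [abs_neg]
  push_cast
  rw [neg_sq]

lemma tk_small {ε : ℝ} (hε : 0 < ε) : ∃ Q : ℕ, 1 ≤ Q ∧ ∀ P : Finset ℤ,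
    ∑ q ∈ P, tk Q q ≤ ε := by
  classical
  have hs : Summable (fun n : ℤ => 1 / (n : ℝ) ^ 2) :=
    Real.summable_one_div_int_pow.mpr (by norm_num)
  obtain ⟨s, hs⟩ := summable_iff_vanishing_norm.1 hs ε hε
  refine ⟨s.sup (fun q => q.natAbs) + 1, by omega, fun P => ?_⟩
  set Q := s.sup (fun q => q.natAbs) + 1 with hQ
  have e : ∑ q ∈ P, tk Q q = ∑ q ∈ P.filter (fun q => (Q : ℤ) < |q|), 1 / (q : ℝ) ^ 2 := by
    rw [Finset.sum_filter]
    rfl
  rw [e]
  have hd : Disjoint (P.filter (fun q => (Q : ℤ) < |q|)) s := by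
    rw [Finset.disjoint_left]
    intro q hq hqs
    have h1 := (Finset.mem_filter.1 hq).2
    have h2 : q.natAbs ≤ s.sup (fun q => q.natAbs) :=
      Finset.le_sup (f := fun q : ℤ => q.natAbs) hqs
    rw [Int.abs_eq_natAbs] at h1
    omega
  exact (le_abs_self _).trans (hs _ hd).le

/-- the kernel is bounded by the integer kernel in cells -/
lemma ker_le {Q : ℕ} (hQ : 1 ≤ Q) {u : ℝ} {q : ℤ} (hq : |(q : ℝ) - u| < 1) :
    (if 2 * Real.pi * (Q + 1) < |2 * Real.pi * u| then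
      1 / (1 + (2 * Real.pi * u) ^ 2) else 0) ≤ tk Q q := by
  have hpi := Real.pi_gt_three
  split_ifs with h
  · rw [abs_mul, abs_of_pos (by positivity : 0 < 2 * Real.pi)] at h
    have h1 : (Q : ℝ) + 1 < |u| := lt_of_mul_lt_mul_left h (by positivity)
    have h2 : |u| < |(q : ℝ)| + 1 := by
      have := abs_sub_abs_le_abs_sub u (q : ℝ)
      rw [abs_sub_comm] at hq
      linarith
    have h2' : |(q : ℝ)| < |u| + 1 := by
      have := abs_sub_abs_le_abs_sub (q : ℝ) u
      linarith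
    have h3 : (Q : ℝ) < |(q : ℝ)| := by linarith
    have h4 : (Q : ℤ) < |q| := by
      rw [← Int.cast_abs] at h3
      exact_mod_cast h3
    rw [tk, if_pos h4]
    have hQ1 : (1 : ℝ) ≤ Q := by exact_mod_cast hQ
    have hq0 : 0 < |(q : ℝ)| := by linarith
    have h5 : |(q : ℝ)| ≤ 2 * |u| := by linarith
    have h6 : (q : ℝ) ^ 2 ≤ 1 + (2 * Real.pi * u) ^ 2 := by
      have a1 : (q : ℝ) ^ 2 ≤ (2 * |u|) ^ 2 := by
        rw [← sq_abs (q : ℝ)]
        gcongr
      have a2 : (2 * |u|) ^ 2 ≤ (2 * Real.pi * u) ^ 2 := by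
        rw [mul_pow, mul_pow, sq_abs, mul_pow]
        have : (1 : ℝ) ≤ Real.pi ^ 2 := by nlinarith
        nlinarith [sq_nonneg u]
      linarith
    have h7 : 0 < (q : ℝ) ^ 2 := by
      rw [← sq_abs]
      positivity
    exact one_div_le_one_div_of_le h7 h6
  · exact tk_nonneg _ _

/-- **the tail of the pair sum is small** -/
theorem pair_tail (hRH : RiemannHypothesis) {ε : ℝ} (hε : 0 < ε) :
    ∃ R T0 : ℝ, 1 ≤ R ∧ 10 ≤ T0 ∧ ∀ T : ℝ, T0 ≤ T →
      ∑ s ∈ Zf riemannZeta T (2 * T), ∑ s' ∈ Zf riemannZeta T (2 * T),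
        (mult riemannZeta s : ℝ) * (mult riemannZeta s' : ℝ) *
          (if R < |Real.log T * (s.im - s'.im)| then
            1 / (1 + (Real.log T * (s.im - s'.im)) ^ 2) else 0) ≤ ε * (T * Real.log T) := by
  classical
  have hpi := Real.pi_gt_three
  obtain ⟨C, T1, hC, hT1, h1⟩ := cube_dyadic hRH (β := 1) one_pos
  obtain ⟨Q, hQ, hP⟩ := tk_small (ε := ε / C) (by positivity)
  refine ⟨2 * Real.pi * (Q + 1), T1, ?_, hT1, fun T hT => ?_⟩
  · have : (0 : ℝ) ≤ Q := Nat.cast_nonneg Q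
    nlinarith
  have hT10 : 10 ≤ T := hT1.trans hT
  have hTpos : 0 < T := by linarith
  set L := Real.log T with hL
  have hLpos : 0 < L := Real.log_pos (by linarith)
  have hb := h1 T hT
  rw [mul_one] at hb
  set ρ := 2 * Real.pi / L with hρ
  have hρ0 : 0 < ρ := by positivity
  set c : ℂ → ℤ := fun s => ⌊s.im / ρ⌋ with hc
  have hcell : ∀ s s' : ℂ, |((c s - c s' : ℤ) : ℝ) - (s.im - s'.im) / ρ| < 1 := by
    intro s s'
    have a1 := Int.floor_le (s.im / ρ)
    have a2 := Int.lt_floor_add_one (s.im / ρ)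
    have a3 := Int.floor_le (s'.im / ρ)
    have a4 := Int.lt_floor_add_one (s'.im / ρ)
    rw [sub_div, abs_lt]
    simp only [hc]
    push_cast
    constructor <;> linarith
  have hy : ∀ s s' : ℂ, L * (s.im - s'.im) = 2 * Real.pi * ((s.im - s'.im) / ρ) := by
    intro s s'
    rw [hρ]
    field_simp
  calc _ ≤ ∑ s ∈ Zf riemannZeta T (2 * T), ∑ s' ∈ Zf riemannZeta T (2 * T),
        (mult riemannZeta s : ℝ) * (mult riemannZeta s' : ℝ) * tk Q (c s - c s') := by
        refine Finset.sum_le_sum fun s _ => Finset.sum_le_sum fun s' _ => ?_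
        rw [hy]
        exact mul_le_mul_of_nonneg_left (ker_le hQ (hcell s s')) (by positivity)
    _ ≤ ε / C * ∑ s ∈ Zf riemannZeta T (2 * T), (mult riemannZeta s : ℝ) *
        ∑ s' ∈ (Zf riemannZeta T (2 * T)).filter (fun s' => c s' = c s),
          (mult riemannZeta s' : ℝ) :=
        schur_cells _ _ c (tk Q) (tk_nonneg Q) (tk_neg Q) hP (fun _ => Nat.cast_nonneg _)
    _ ≤ ε / C * ∑ s ∈ Zf riemannZeta T (2 * T), (mult riemannZeta s : ℝ) *
        (kk T (2 * T) ρ s : ℝ) ^ 2 := by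
        gcongr with s _
        rw [kk_cast]
        have h2 : ∑ s' ∈ (Zf riemannZeta T (2 * T)).filter (fun s' => c s' = c s),
          (mult riemannZeta s' : ℝ) ≤ ∑ s' ∈ (Zf riemannZeta T (2 * T)).filter
            (fun s' => |s.im - s'.im| ≤ ρ), (mult riemannZeta s' : ℝ) := by
          apply Finset.sum_le_sum_of_subset_of_nonneg
          · intro s' hs'
            rw [Finset.mem_filter] at hs' ⊢
            refine ⟨hs'.1, ?_⟩
            have h3 := hcell s s'
            rw [hs'.2, sub_self, Int.cast_zero, zero_sub, abs_neg, abs_div, abs_of_pos hρ0,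
              div_lt_one hρ0] at h3
            exact h3.le
          · intro _ _ _
            exact Nat.cast_nonneg _
        refine h2.trans ?_
        rw [← kk_cast]
        have h4 : kk T (2 * T) ρ s ≤ kk T (2 * T) ρ s ^ 2 := Nat.le_self_pow (by norm_num) _
        exact_mod_cast h4
    _ ≤ ε / C * (C * (T * L)) := by gcongr
    _ = ε * (T * L) := by field_simp

end Pool.Agent.R482.GB
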