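import Pool.Agent.R482.GB.LatB

/-! # Pairs of zeros in Bohr sets that stay away from a lattice -/

open Complex Filter Topology Set MeasureTheory

namespace Pool.Agent.R482.GB

open SP H370 H370.A2 H370.A3 TH803TW

/-- the sum over close pairs is the sum of the local counts -/
lemma near_sum (T ρ : ℝ) :
    ∑ s ∈ Zf riemannZeta T (2 * T), ∑ s' ∈ Zf riemannZeta T (2 * T),
        (mult riemannZeta s : ℝ) * (mult riemannZeta s' : ℝ) *
          (if |s.im - s'.im| ≤ ρ then (1 : ℝ) else 0) =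
      ∑ s ∈ Zf riemannZeta T (2 * T), (mult riemannZeta s : ℝ) * (kk T (2 * T) ρ s : ℝ) := by
  classical
  refine Finset.sum_congr rfl fun s _ => ?_
  rw [kk_cast, Finset.sum_filter, Finset.mul_sum]
  refine Finset.sum_congr rfl fun s' _ => ?_
  split_ifs <;> ring

/-- **pairs of zeros in Bohr sets away from a lattice coarser than the half-integers** -/
theorem pair_lattice (hRH : RiemannHypothesis) {θ : ℝ} (hθ : 0 < θ) (hθ2 : θ < 2) :
    ∃ c : ℝ, 0 < c ∧ ∀ δ : ℝ, 0 < δ → ∃ R η : ℝ, 1 ≤ R ∧ 0 < η ∧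
      ∀ (k : ℕ) (α : Fin k → ℝ), (∀ n : Fin k → ℤ, ∑ j, (n j : ℝ) * α j = 0 → n = 0) →
      ∀ F : C(UnitAddTorus (Fin k), ℝ), (∀ x, 0 ≤ F x) → (∀ x, F x ≤ 1) →
      (δ ≤ ∫ x, F x ∂(haarT k)) → ∃ T0 : ℝ, 10 ≤ T0 ∧ ∀ T : ℝ, T0 ≤ T →
      c * (∫ x, F x ∂(haarT k)) * (T * Real.log T) ≤
      ∑ s ∈ Zf riemannZeta T (2 * T), ∑ s' ∈ Zf riemannZeta T (2 * T),
        (mult riemannZeta s : ℝ) * (mult riemannZeta s' : ℝ) *
          (if |Real.log T * (s.im - s'.im)| ≤ R ∧
            η < |Real.sin (θ / 2 * (Real.log T * (s.im - s'.im)))| then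
            F (torusPt α s.im) else 0) := by
  classical
  have hpi := Real.pi_pos
  obtain ⟨c0, hc0, hA⟩ := latA hRH hθ hθ2
  refine ⟨c0 / 2, by positivity, fun δ hδ => ?_⟩
  obtain ⟨R, T1, hR, hT1, hB⟩ := pair_tail hRH (ε := c0 * δ / 4) (by positivity)
  obtain ⟨C, T2, hC, hT2, hD⟩ := cube_dyadic hRH (β := R / (2 * Real.pi)) (by positivity)
  set η : ℝ := c0 * δ / (4 * C) with hη
  have hη0 : 0 < η := by positivity
  refine ⟨R, η, hR, hη0, fun k α hα F hF hF1 hM => ?_⟩
  set M := ∫ x, F x ∂(haarT k) with hMd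
  obtain ⟨T3, hT3, hE⟩ := hA k α hα F hF (lt_of_lt_of_le hδ hM)
  refine ⟨max T1 (max T2 T3), hT1.trans (le_max_left _ _), fun T hT => ?_⟩
  have hTT1 : T1 ≤ T := (le_max_left _ _).trans hT
  have hTT2 : T2 ≤ T := ((le_max_left _ _).trans (le_max_right _ _)).trans hT
  have hTT3 : T3 ≤ T := ((le_max_right _ _).trans (le_max_right _ _)).trans hT
  have b1 := hB T hTT1
  have b2 := hD T hTT2
  have b3 := hE T hTT3
  have hT10 : 10 ≤ T := hT1.trans hTT1
  have hTpos : 0 < T := by linarith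
  set L := Real.log T with hL
  have hLpos : 0 < L := Real.log_pos (by linarith)
  have hTL : 0 < T * L := by positivity
  have e1 : 2 * Real.pi * (R / (2 * Real.pi)) / L = R / L := by field_simp
  rw [e1] at b2
  have b4 : ∑ s ∈ Zf riemannZeta T (2 * T), ∑ s' ∈ Zf riemannZeta T (2 * T),
        (mult riemannZeta s : ℝ) * (mult riemannZeta s' : ℝ) *
          (if |s.im - s'.im| ≤ R / L then (1 : ℝ) else 0) ≤ C * (T * L) := by
    rw [near_sum]
    refine le_trans (Finset.sum_le_sum fun s _ => ?_) b2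
    apply mul_le_mul_of_nonneg_left _ (Nat.cast_nonneg _)
    have h4 : kk T (2 * T) (R / L) s ≤ kk T (2 * T) (R / L) s ^ 2 :=
      Nat.le_self_pow (by norm_num) _
    exact_mod_cast h4
  have key : ∀ s s' : ℂ, (mult riemannZeta s : ℝ) * (mult riemannZeta s' : ℝ) *
      (F (torusPt α s.im) * (|Real.sin (θ / 2 * (L * (s.im - s'.im)))| /
            (1 + (L * (s.im - s'.im)) ^ 2))) ≤
      (mult riemannZeta s : ℝ) * (mult riemannZeta s' : ℝ) *
          (if R < |L * (s.im - s'.im)| then 1 / (1 + (L * (s.im - s'.im)) ^ 2) else 0) +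
      η * ((mult riemannZeta s : ℝ) * (mult riemannZeta s' : ℝ) *
          (if |s.im - s'.im| ≤ R / L then (1 : ℝ) else 0)) +
      (mult riemannZeta s : ℝ) * (mult riemannZeta s' : ℝ) *
          (if |L * (s.im - s'.im)| ≤ R ∧ η < |Real.sin (θ / 2 * (L * (s.im - s'.im)))| then
            F (torusPt α s.im) else 0) := by
    intro s s'
    have hm : 0 ≤ (mult riemannZeta s : ℝ) * (mult riemannZeta s' : ℝ) := by positivity
    set y := L * (s.im - s'.im) with hy
    have hf0 := hF (torusPt α s.im)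
    have hf1 := hF1 (torusPt α s.im)
    have hsin := Real.abs_sin_le_one (θ / 2 * y)
    have hsin0 := abs_nonneg (Real.sin (θ / 2 * y))
    have hy1 : 1 ≤ 1 + y ^ 2 := by nlinarith [sq_nonneg y]
    have hq : |Real.sin (θ / 2 * y)| / (1 + y ^ 2) ≤ |Real.sin (θ / 2 * y)| :=
      div_le_self hsin0 hy1
    have hq0 : 0 ≤ |Real.sin (θ / 2 * y)| / (1 + y ^ 2) := by positivity
    have hcore : F (torusPt α s.im) * (|Real.sin (θ / 2 * y)| / (1 + y ^ 2)) ≤
        (if R < |y| then 1 / (1 + y ^ 2) else 0) +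
        η * (if |s.im - s'.im| ≤ R / L then (1 : ℝ) else 0) +
        (if |y| ≤ R ∧ η < |Real.sin (θ / 2 * y)| then F (torusPt α s.im) else 0) := by
      by_cases h1 : R < |y|
      · have hno : ¬ (|y| ≤ R ∧ η < |Real.sin (θ / 2 * y)|) :=
          fun h => absurd h.1 (not_le.2 h1)
        rw [if_pos h1, if_neg hno]
        have h2 : F (torusPt α s.im) * (|Real.sin (θ / 2 * y)| / (1 + y ^ 2)) ≤
            1 / (1 + y ^ 2) := by
          calc _ ≤ 1 * (|Real.sin (θ / 2 * y)| / (1 + y ^ 2)) := by gcongr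
            _ ≤ 1 * (1 / (1 + y ^ 2)) := by gcongr
            _ = _ := one_mul _
        have h3 : 0 ≤ η * (if |s.im - s'.im| ≤ R / L then (1 : ℝ) else 0) := by
          split_ifs <;> positivity
        linarith
      · have h1' : |y| ≤ R := not_lt.1 h1
        have h4 : |s.im - s'.im| ≤ R / L := by
          rw [le_div_iff₀ hLpos]
          rw [hy, abs_mul, abs_of_pos hLpos] at h1'
          linarith
        rw [if_neg h1, if_pos h4, zero_add, mul_one]
        by_cases h5 : η < |Real.sin (θ / 2 * y)|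
        · rw [if_pos ⟨h1', h5⟩]
          have : F (torusPt α s.im) * (|Real.sin (θ / 2 * y)| / (1 + y ^ 2)) ≤
              F (torusPt α s.im) := mul_le_of_le_one_right hf0 (hq.trans hsin)
          linarith
        · have hno : ¬ (|y| ≤ R ∧ η < |Real.sin (θ / 2 * y)|) := fun h => h5 h.2
          rw [if_neg hno, add_zero]
          have : F (torusPt α s.im) * (|Real.sin (θ / 2 * y)| / (1 + y ^ 2)) ≤
              |Real.sin (θ / 2 * y)| / (1 + y ^ 2) := mul_le_of_le_one_left hq0 hf1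
          exact (this.trans hq).trans (not_lt.1 h5)
    calc _ ≤ (mult riemannZeta s : ℝ) * (mult riemannZeta s' : ℝ) *
        ((if R < |y| then 1 / (1 + y ^ 2) else 0) +
        η * (if |s.im - s'.im| ≤ R / L then (1 : ℝ) else 0) +
        (if |y| ≤ R ∧ η < |Real.sin (θ / 2 * y)| then F (torusPt α s.im) else 0)) :=
          mul_le_mul_of_nonneg_left hcore hm
      _ = _ := by ring
  have hsum : ∑ s ∈ Zf riemannZeta T (2 * T), ∑ s' ∈ Zf riemannZeta T (2 * T),
      (mult riemannZeta s : ℝ) * (mult riemannZeta s' : ℝ) *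
      (F (torusPt α s.im) * (|Real.sin (θ / 2 * (L * (s.im - s'.im)))| /
            (1 + (L * (s.im - s'.im)) ^ 2))) ≤ _ :=
    Finset.sum_le_sum fun s _ => Finset.sum_le_sum fun s' _ => key s s'
  simp only [Finset.sum_add_distrib, ← Finset.mul_sum] at hsum
  have hηC : η * (C * (T * L)) = c0 * δ / 4 * (T * L) := by
    rw [hη]; field_simp
  have b5 := mul_le_mul_of_nonneg_left b4 hη0.le
  rw [hηC] at b5
  have h6 : c0 * δ * (T * L) ≤ c0 * M * (T * L) := by gcongr
  have h7 := b3.trans hsum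
  linarith

/-- distance from a lattice -/
lemma off_lattice {σ η u : ℝ} (hσ : 0 < σ)
    (h : η < |Real.sin (1 / σ / 2 * (2 * Real.pi * u))|) (k : ℤ) :
    σ * η / Real.pi ≤ |u - k * σ| := by
  have hpi := Real.pi_pos
  have e : 1 / σ / 2 * (2 * Real.pi * u) = Real.pi / σ * (u - k * σ) + k * Real.pi := by
    field_simp
    ring
  rw [e, Real.sin_add_int_mul_pi] at h
  have h1 : |((-1 : ℝ)) ^ k * Real.sin (Real.pi / σ * (u - k * σ))| =
      |Real.sin (Real.pi / σ * (u - k * σ))| := by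
    rw [abs_mul, abs_zpow, abs_neg, abs_one, one_zpow, one_mul]
  rw [h1] at h
  have h2 := Real.abs_sin_le_abs (x := Real.pi / σ * (u - k * σ))
  rw [abs_mul, abs_of_pos (by positivity : 0 < Real.pi / σ)] at h2
  have h3 := h.le.trans h2
  rw [div_le_iff₀ hpi]
  calc σ * η ≤ σ * (Real.pi / σ * |u - k * σ|) := by gcongr
    _ = _ := by field_simp

end Pool.Agent.R482.GB
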