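import Pool.Agent.R482.GB.LatC

/-! # From pairs of zeros to consecutive zeros -/

open Complex Filter Topology Set MeasureTheory

namespace Pool.Agent.R482.GB

open SP H370 H370.A2 H370.A3 TH803TW
open SG (ord NZ zmult ZS)

/-- double sums over zeros as double sums over indices -/
lemma idx_pair (hRH : RiemannHypothesis) {A B : ℝ} (hA : 1 ≤ A) (hAB : A ≤ B) (G : ℝ → ℝ → ℝ) :
    ∑ s ∈ Zf riemannZeta A B, ∑ s' ∈ Zf riemannZeta A B,
      (mult riemannZeta s : ℝ) * (mult riemannZeta s' : ℝ) * G s.im s'.im =
    ∑ i ∈ Finset.Ioc (NZ A) (NZ B), ∑ j ∈ Finset.Ioc (NZ A) (NZ B), G (ord i) (ord j) := by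
  have h1 : ∀ t : ℝ, ∑ s' ∈ Zf riemannZeta A B, (mult riemannZeta s' : ℝ) * G t s'.im =
      ∑ j ∈ Finset.Ioc (NZ A) (NZ B), G t (ord j) := fun t => sum_idx hRH hA hAB (G t)
  rw [← sum_idx hRH hA hAB (fun t => ∑ j ∈ Finset.Ioc (NZ A) (NZ B), G t (ord j))]
  refine Finset.sum_congr rfl fun s _ => ?_
  rw [← h1, Finset.mul_sum]
  refine Finset.sum_congr rfl fun s' _ => by ring

lemma abs_sin_sum {ι : Type*} (S : Finset ι) (t : ι → ℝ) :
    |Real.sin (∑ l ∈ S, t l)| ≤ ∑ l ∈ S, |Real.sin (t l)| := by
  classical
  induction S using Finset.induction_on with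
  | empty => simp
  | insert a S ha ih =>
    rw [Finset.sum_insert ha, Finset.sum_insert ha, Real.sin_add]
    refine (abs_add_le _ _).trans ?_
    rw [abs_mul, abs_mul]
    have h1 := mul_le_of_le_one_right (abs_nonneg (Real.sin (t a)))
      (Real.abs_cos_le_one (∑ l ∈ S, t l))
    have h2 := mul_le_of_le_one_left (abs_nonneg (Real.sin (∑ l ∈ S, t l)))
      (Real.abs_cos_le_one (t a))
    linarith

/-- a large sine for a pair gives a large sine for a consecutive pair in between -/
lemma sin_between {K : ℕ} (hK : 1 ≤ K) {a b : ℕ} (hab : a ≤ b) (hbK : b ≤ a + K) (x : ℕ → ℝ)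
    {θ η : ℝ} (hη : 0 < η) (h : η < |Real.sin (θ * (x b - x a))|) :
    ∃ l, a ≤ l ∧ l < b ∧ η / K < |Real.sin (θ * (x (l + 1) - x l))| := by
  by_contra hcon
  push Not at hcon
  have hK0 : (0 : ℝ) < K := by exact_mod_cast hK
  have e : θ * (x b - x a) = ∑ l ∈ Finset.Ico a b, θ * (x (l + 1) - x l) := by
    rw [← Finset.mul_sum, Finset.sum_Ico_eq_sub _ hab, Finset.sum_range_sub, Finset.sum_range_sub]
    ring
  rw [e] at h
  have h1 := abs_sin_sum (Finset.Ico a b) (fun l => θ * (x (l + 1) - x l))
  have h2 : ∑ l ∈ Finset.Ico a b, |Real.sin (θ * (x (l + 1) - x l))| ≤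
      ∑ l ∈ Finset.Ico a b, η / K := by
    refine Finset.sum_le_sum fun l hl => ?_
    rw [Finset.mem_Ico] at hl
    exact hcon l hl.1 hl.2
  rw [Finset.sum_const, Nat.card_Ico, nsmul_eq_mul] at h2
  have h3 : ((b - a : ℕ) : ℝ) ≤ K := by
    have : b - a ≤ K := by omega
    exact_mod_cast this
  have h4 : ((b - a : ℕ) : ℝ) * (η / K) ≤ η := by
    calc ((b - a : ℕ) : ℝ) * (η / K) ≤ K * (η / K) := by gcongr
      _ = η := by field_simp
  linarith

/-- the combinatorial passage from pairs to consecutive indices -/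
lemma to_consec (a b : ℕ) {K : ℕ} (hK : 1 ≤ K) (x f : ℕ → ℝ)
    (hx : ∀ i j, a < i → i ≤ j → j ≤ b → x i ≤ x j) (hf : ∀ i, 0 ≤ f i) (hf1 : ∀ i, f i ≤ 1)
    {ρ ω η θ : ℝ} (hω : 0 ≤ ω) (hη : 0 < η)
    (hu : ∀ i l, |x i - x l| ≤ ρ → f i ≤ f l + ω) :
    ∑ i ∈ Finset.Ioc a b, ∑ j ∈ Finset.Ioc a b,
      (if |x i - x j| ≤ ρ ∧ η < |Real.sin (θ * (x i - x j))| then f i else 0) ≤
    (∑ i ∈ Finset.Ioc a b, (∑ j ∈ Finset.Ioc a b, if |x i - x j| ≤ ρ then (1 : ℝ) else 0) ^ 2) / K +
      (2 * K + 1) ^ 2 * ∑ l ∈ (Finset.Ioc a b).filter (fun l => l + 1 ≤ b ∧ x (l + 1) - x l ≤ ρ ∧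
        η / K < |Real.sin (θ * (x (l + 1) - x l))|), (f l + ω) := by
  classical
  set I := Finset.Ioc a b with hI
  set J := I.filter (fun l => l + 1 ≤ b ∧ x (l + 1) - x l ≤ ρ ∧
        η / K < |Real.sin (θ * (x (l + 1) - x l))|) with hJ
  have hK0 : (0 : ℝ) < K := by exact_mod_cast hK
  set near : ℕ → ℕ → Prop := fun i j => i ≤ j + K ∧ j ≤ i + K with hnear
  have hcard : ∀ i, ((I.filter (fun j => near i j)).card : ℝ) ≤ 2 * K + 1 := by
    intro i
    have h1 : I.filter (fun j => near i j) ⊆ Finset.Icc (i - K) (i + K) := by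
      intro j hj
      have h2 := (Finset.mem_filter.1 hj).2
      rw [Finset.mem_Icc]
      simp only [hnear] at h2
      omega
    have h2 := Finset.card_le_card h1
    rw [Nat.card_Icc] at h2
    have h3 : (I.filter (fun j => near i j)).card ≤ 2 * K + 1 := by omega
    exact_mod_cast h3
  have hfω : ∀ l, 0 ≤ f l + ω := fun l => add_nonneg (hf l) hω
  -- the pointwise bound
  have key : ∀ i ∈ I, ∀ j ∈ I,
      (if |x i - x j| ≤ ρ ∧ η < |Real.sin (θ * (x i - x j))| then f i else 0) ≤
      (if |x i - x j| ≤ ρ ∧ ¬ near i j then (1 : ℝ) else 0) +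
      (if near i j then ∑ l ∈ J, (if near l i then f l + ω else 0) else 0) := by
    intro i hi j hj
    rw [hI, Finset.mem_Ioc] at hi hj
    have hs0 : 0 ≤ ∑ l ∈ J, (if near l i then f l + ω else 0) :=
      Finset.sum_nonneg fun l _ => by
        split_ifs
        · exact hfω l
        · exact le_rfl
    by_cases h1 : |x i - x j| ≤ ρ ∧ η < |Real.sin (θ * (x i - x j))|
    · rw [if_pos h1]
      by_cases h2 : near i j
      · rw [if_neg (fun h => h.2 h2), if_pos h2, zero_add]
        obtain ⟨l, hl1, hl2, hl3⟩ : ∃ l, (min i j) ≤ l ∧ l < (max i j) ∧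
            η / K < |Real.sin (θ * (x (l + 1) - x l))| := by
          apply sin_between hK min_le_max _ x hη
          · rcases le_total i j with h | h
            · rw [min_eq_left h, max_eq_right h, ← abs_neg, ← Real.sin_neg]
              have : -(θ * (x j - x i)) = θ * (x i - x j) := by ring
              rw [this]
              exact h1.2
            · rw [min_eq_right h, max_eq_left h]
              exact h1.2
          · simp only [hnear] at h2
            omega
        have ha : a < l := lt_of_lt_of_le (lt_min hi.1 hj.1) hl1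
        have hb : l + 1 ≤ b := le_trans hl2 (max_le hi.2 hj.2)
        have g1 : x (min i j) ≤ x l := hx _ _ (lt_min hi.1 hj.1) hl1 (by omega)
        have g2 : x (l + 1) ≤ x (max i j) := hx _ _ (by omega) hl2 (max_le hi.2 hj.2)
        have g3 : x l ≤ x (l + 1) := hx _ _ ha (by omega) hb
        have g4 : x (max i j) - x (min i j) ≤ ρ := by
          rcases le_total i j with h | h
          · rw [min_eq_left h, max_eq_right h]
            have := (abs_le.1 h1.1).1
            linarith
          · rw [min_eq_right h, max_eq_left h]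
            have := (abs_le.1 h1.1).2
            linarith
        have g5 : |x i - x l| ≤ ρ := by
          rcases le_total i j with h | h
          · rw [min_eq_left h, max_eq_right h] at g4
            rw [min_eq_left h] at g1
            rw [max_eq_right h] at g2
            rw [abs_le]; constructor <;> linarith
          · rw [min_eq_right h, max_eq_left h] at g4
            rw [min_eq_right h] at g1
            rw [max_eq_left h] at g2
            rw [abs_le]; constructor <;> linarith
        have g6 : near l i := by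
          simp only [hnear] at h2 ⊢
          rcases le_total i j with h | h
          · rw [min_eq_left h] at hl1
            rw [max_eq_right h] at hl2
            omega
          · rw [min_eq_right h] at hl1
            rw [max_eq_left h] at hl2
            omega
        have hlJ : l ∈ J := by
          rw [hJ, Finset.mem_filter, hI, Finset.mem_Ioc]
          exact ⟨⟨ha, by omega⟩, hb, by linarith, hl3⟩
        calc f i ≤ f l + ω := hu i l g5
          _ = (if near l i then f l + ω else 0) := by rw [if_pos g6]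
          _ ≤ _ := Finset.single_le_sum (f := fun l => if near l i then f l + ω else 0)
              (fun l _ => by
                show 0 ≤ if near l i then f l + ω else 0
                split_ifs
                · exact hfω l
                · exact le_rfl) hlJ
      · rw [if_pos ⟨h1.1, h2⟩, if_neg h2, add_zero]
        exact hf1 i
    · rw [if_neg h1]
      split_ifs <;> first | positivity | linarith
  -- far pairs
  have hfar : ∀ i ∈ I, ∑ j ∈ I, (if |x i - x j| ≤ ρ ∧ ¬ near i j then (1 : ℝ) else 0) ≤
      (∑ j ∈ I, if |x i - x j| ≤ ρ then (1 : ℝ) else 0) ^ 2 / K := by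
    intro i hi
    rw [hI, Finset.mem_Ioc] at hi
    set ki : ℝ := ∑ j ∈ I, if |x i - x j| ≤ ρ then (1 : ℝ) else 0 with hki
    have hki0 : 0 ≤ ki := Finset.sum_nonneg fun j _ => by split_ifs <;> norm_num
    by_cases hex : ∃ j ∈ I, |x i - x j| ≤ ρ ∧ ¬ near i j
    · obtain ⟨j, hj, hj1, hj2⟩ := hex
      rw [hI, Finset.mem_Ioc] at hj
      have hkK : (K : ℝ) ≤ ki := by
        have h1 : ki = ((I.filter (fun j => |x i - x j| ≤ ρ)).card : ℝ) := by
          rw [hki, ← Finset.sum_filter, Finset.sum_const, nsmul_eq_mul, mul_one]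
        rw [h1]
        have h2 : Finset.Icc (min i j) (max i j) ⊆ I.filter (fun j => |x i - x j| ≤ ρ) := by
          intro l hl
          rw [Finset.mem_Icc] at hl
          rw [Finset.mem_filter, hI, Finset.mem_Ioc]
          have ha : a < l := lt_of_lt_of_le (lt_min hi.1 hj.1) hl.1
          have hb : l ≤ b := le_trans hl.2 (max_le hi.2 hj.2)
          refine ⟨⟨ha, hb⟩, ?_⟩
          obtain ⟨c1, c2⟩ := abs_le.1 hj1
          rcases le_total i j with h | h
          · rw [min_eq_left h, max_eq_right h] at hl
            have g1 := hx i l hi.1 hl.1 hb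
            have g2 := hx l j ha hl.2 hj.2
            rw [abs_le]; constructor <;> linarith
          · rw [min_eq_right h, max_eq_left h] at hl
            have g1 := hx j l hj.1 hl.1 hb
            have g2 := hx l i ha hl.2 hi.2
            rw [abs_le]; constructor <;> linarith
        have h3 := Finset.card_le_card h2
        rw [Nat.card_Icc] at h3
        have h4 : K ≤ max i j + 1 - min i j := by
          simp only [hnear] at hj2
          omega
        exact_mod_cast h4.trans h3
      calc ∑ j ∈ I, (if |x i - x j| ≤ ρ ∧ ¬ near i j then (1 : ℝ) else 0) ≤ ki := by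
            rw [hki]
            refine Finset.sum_le_sum fun j _ => ?_
            by_cases h : |x i - x j| ≤ ρ
            · rw [if_pos h]
              split_ifs <;> norm_num
            · rw [if_neg h, if_neg (fun hh => h hh.1)]
        _ ≤ ki ^ 2 / K := by
            rw [le_div_iff₀ hK0, sq]
            exact mul_le_mul_of_nonneg_left hkK hki0
    · push Not at hex
      rw [Finset.sum_eq_zero]
      · positivity
      · intro j hj
        exact if_neg (fun h => h.2 (hex j hj h.1))
  -- near pairs
  have hnr : ∑ i ∈ I, ∑ j ∈ I,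
      (if near i j then ∑ l ∈ J, (if near l i then f l + ω else 0) else 0) ≤
      (2 * K + 1) ^ 2 * ∑ l ∈ J, (f l + ω) := by
    calc _ = ∑ i ∈ I, ((I.filter (fun j => near i j)).card : ℝ) *
          ∑ l ∈ J, (if near l i then f l + ω else 0) := by
          refine Finset.sum_congr rfl fun i _ => ?_
          rw [← Finset.sum_filter, Finset.sum_const, nsmul_eq_mul]
      _ ≤ ∑ i ∈ I, (2 * K + 1 : ℝ) * ∑ l ∈ J, (if near l i then f l + ω else 0) := by
          refine Finset.sum_le_sum fun i _ => ?_
          apply mul_le_mul_of_nonneg_right (hcard i)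
          exact Finset.sum_nonneg fun l _ => by
            split_ifs
            · exact hfω l
            · exact le_rfl
      _ = (2 * K + 1 : ℝ) * ∑ l ∈ J, ∑ i ∈ I, (if near l i then f l + ω else 0) := by
          rw [← Finset.mul_sum, Finset.sum_comm]
      _ = (2 * K + 1 : ℝ) * ∑ l ∈ J, ((I.filter (fun i => near l i)).card : ℝ) * (f l + ω) := by
          congr 1
          refine Finset.sum_congr rfl fun l _ => ?_
          rw [← Finset.sum_filter, Finset.sum_const, nsmul_eq_mul]
      _ ≤ (2 * K + 1 : ℝ) * ∑ l ∈ J, (2 * K + 1 : ℝ) * (f l + ω) := by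
          gcongr with l _
          · exact hfω l
          · exact hcard l
      _ = _ := by rw [← Finset.mul_sum]; ring
  calc _ ≤ ∑ i ∈ I, ∑ j ∈ I, ((if |x i - x j| ≤ ρ ∧ ¬ near i j then (1 : ℝ) else 0) +
      (if near i j then ∑ l ∈ J, (if near l i then f l + ω else 0) else 0)) :=
        Finset.sum_le_sum fun i hi => Finset.sum_le_sum fun j hj => key i hi j hj
    _ = ∑ i ∈ I, ∑ j ∈ I, (if |x i - x j| ≤ ρ ∧ ¬ near i j then (1 : ℝ) else 0) +
      ∑ i ∈ I, ∑ j ∈ I,
        (if near i j then ∑ l ∈ J, (if near l i then f l + ω else 0) else 0) := by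
        simp only [Finset.sum_add_distrib]
    _ ≤ _ := by
        apply add_le_add _ hnr
        rw [Finset.sum_div]
        exact Finset.sum_le_sum hfar

end Pool.Agent.R482.GB
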