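import Pool.Agent.R482.GB.LatD

/-! # Spacings of zeros in Bohr sets that stay away from a lattice -/

open Complex Filter Topology Set MeasureTheory

namespace Pool.Agent.R482.GB

open SP H370 H370.A2 H370.A3 TH803TW
open SG (ord NZ zmult ZS)
open LG (dlt)

/-- second moment of the local counts in index form -/
lemma idx_cube (hRH : RiemannHypothesis) {T ρ : ℝ} (hT : 1 ≤ T) :
    ∑ i ∈ Finset.Ioc (NZ T) (NZ (2 * T)), (∑ j ∈ Finset.Ioc (NZ T) (NZ (2 * T)),
      if |ord i - ord j| ≤ ρ then (1 : ℝ) else 0) ^ 2 =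
    ∑ s ∈ Zf riemannZeta T (2 * T), (mult riemannZeta s : ℝ) *
        (kk T (2 * T) ρ s : ℝ) ^ 2 := by
  classical
  rw [← sum_idx hRH hT (by linarith : T ≤ 2 * T) (fun t => (∑ j ∈ Finset.Ioc (NZ T) (NZ (2 * T)),
      if |t - ord j| ≤ ρ then (1 : ℝ) else 0) ^ 2)]
  refine Finset.sum_congr rfl fun s _ => ?_
  have h := sum_idx hRH hT (by linarith : T ≤ 2 * T)
    (fun u => if |s.im - u| ≤ ρ then (1 : ℝ) else 0)
  rw [← h, kk_cast, Finset.sum_filter]
  congr 2
  refine Finset.sum_congr rfl fun s' _ => ?_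
  split_ifs <;> simp

/-- the consecutive pairs used below -/
noncomputable def JJ (T R θ η : ℝ) : Finset ℕ :=
  open Classical in (Finset.Ioc (NZ T) (NZ (2 * T))).filter (fun l => l + 1 ≤ NZ (2 * T) ∧
    ord (l + 1) - ord l ≤ R / Real.log T ∧
    η < |Real.sin (θ / 2 * Real.log T * (ord (l + 1) - ord l))|)

/-- **spacings in Bohr sets away from a lattice** -/
theorem spacing_lattice (hRH : RiemannHypothesis) {θ : ℝ} (hθ : 0 < θ) (hθ2 : θ < 2) {δ : ℝ}
    (hδ : 0 < δ) : ∃ c R η : ℝ, 0 < c ∧ 0 < R ∧ 0 < η ∧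
      ∀ (k : ℕ) (α : Fin k → ℝ), (∀ n : Fin k → ℤ, ∑ j, (n j : ℝ) * α j = 0 → n = 0) →
      ∀ F : C(UnitAddTorus (Fin k), ℝ), (∀ x, 0 ≤ F x) → (∀ x, F x ≤ 1) →
      (δ ≤ ∫ x, F x ∂(haarT k)) → ∃ T0 : ℝ, 10 ≤ T0 ∧ ∀ T : ℝ, T0 ≤ T →
      c * (T * Real.log T) ≤ ∑ l ∈ JJ T R θ η, F (torusPt α (ord l)) := by
  classical
  have hpi := Real.pi_pos
  obtain ⟨c1, hc1, h1⟩ := pair_lattice hRH hθ hθ2
  obtain ⟨R, η, hR, hη, h2⟩ := h1 δ hδ
  have hR0 : 0 < R := by linarith
  obtain ⟨C, T1, hC, hT1, h3⟩ := cube_dyadic hRH (β := R / (2 * Real.pi)) (by positivity)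
  obtain ⟨K, hK⟩ := exists_nat_ge (max 1 (4 * C / (c1 * δ)))
  have hK1 : (1 : ℝ) ≤ K := (le_max_left _ _).trans hK
  have hK1' : 1 ≤ K := by exact_mod_cast hK1
  have hK0 : (0 : ℝ) < K := by linarith
  have hK2 : C / K ≤ c1 * δ / 4 := by
    have h4 : 4 * C / (c1 * δ) ≤ K := (le_max_right _ _).trans hK
    rw [div_le_iff₀ (by positivity)] at h4
    rw [div_le_iff₀ hK0]
    linarith
  refine ⟨c1 * δ / (4 * (2 * K + 1) ^ 2), R, η / K, by positivity, hR0, by positivity,
    fun k α hα F hF hF1 hM => ?_⟩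
  obtain ⟨T2, hT2, h4⟩ := h2 k α hα F hF hF1 hM
  set ω : ℝ := c1 * δ / (4 * (2 * K + 1) ^ 2) with hω
  have hω0 : 0 < ω := by positivity
  obtain ⟨du, hdu, hunif⟩ := unif_tp (APm_torus hα F) hω0
  obtain ⟨T3, hT3⟩ := (Real.tendsto_log_atTop.eventually_ge_atTop (R / du)).exists_forall_of_atTop
  obtain ⟨T4, hT4, h5⟩ := NN_two
  refine ⟨max (max T1 T2) (max T3 T4), (hT1.trans (le_max_left _ _)).trans (le_max_left _ _),
    fun T hT => ?_⟩
  have hTT1 : T1 ≤ T := ((le_max_left _ _).trans (le_max_left _ _)).trans hT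
  have hTT2 : T2 ≤ T := ((le_max_right _ _).trans (le_max_left _ _)).trans hT
  have hTT3 : T3 ≤ T := ((le_max_left _ _).trans (le_max_right _ _)).trans hT
  have hTT4 : T4 ≤ T := ((le_max_right _ _).trans (le_max_right _ _)).trans hT
  have b1 := h3 T hTT1
  have b2 := h4 T hTT2
  have b3 := hT3 T hTT3
  have b4 := (h5 T hTT4).2
  have hT10 : 10 ≤ T := hT1.trans hTT1
  have hT1' : 1 ≤ T := by linarith
  have hTpos : 0 < T := by linarith
  set L := Real.log T with hL
  have hLpos : 0 < L := Real.log_pos (by linarith)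
  have hTL : 0 < T * L := by positivity
  have hρ0 : 2 * Real.pi * (R / (2 * Real.pi)) / L = R / L := by field_simp
  rw [hρ0] at b1
  have hρdu : R / L ≤ du := by
    rw [div_le_iff₀ hLpos]
    rw [div_le_iff₀ hdu] at b3
    linarith
  rw [← idx_cube hRH hT1'] at b1
  set a := NZ T with ha
  set b := NZ (2 * T) with hb
  set f : ℕ → ℝ := fun n => F (torusPt α (ord n)) with hf
  have e1 : ∑ s ∈ Zf riemannZeta T (2 * T), ∑ s' ∈ Zf riemannZeta T (2 * T),
        (mult riemannZeta s : ℝ) * (mult riemannZeta s' : ℝ) *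
          (if |L * (s.im - s'.im)| ≤ R ∧
            η < |Real.sin (θ / 2 * (L * (s.im - s'.im)))| then
            F (torusPt α s.im) else 0) =
      ∑ i ∈ Finset.Ioc a b, ∑ j ∈ Finset.Ioc a b,
        (if |ord i - ord j| ≤ R / L ∧ η < |Real.sin (θ / 2 * L * (ord i - ord j))| then f i
          else 0) := by
    rw [idx_pair hRH hT1' (by linarith : T ≤ 2 * T) (fun t u =>
      if |L * (t - u)| ≤ R ∧ η < |Real.sin (θ / 2 * (L * (t - u)))| then
            F (torusPt α t) else 0)]
    refine Finset.sum_congr rfl fun i _ => Finset.sum_congr rfl fun j _ => ?_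
    have g1 : |L * (ord i - ord j)| ≤ R ↔ |ord i - ord j| ≤ R / L := by
      rw [abs_mul, abs_of_pos hLpos, le_div_iff₀ hLpos, mul_comm]
    have g2 : θ / 2 * (L * (ord i - ord j)) = θ / 2 * L * (ord i - ord j) := by ring
    simp only [g1, g2, hf]
  rw [e1] at b2
  have h6 := to_consec a b hK1' ord f (fun i j h1 h2 _ => SG.ord_mono (by omega) h2)
    (fun i => hF _) (fun i => hF1 _) (ρ := R / L) (θ := θ / 2 * L) hω0.le hη
    (fun i l h => by
      have := (abs_le.1 (hunif _ _ (h.trans hρdu))).2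
      simp only [hf]
      linarith)
  have h7 : ∑ l ∈ (Finset.Ioc a b).filter (fun l => l + 1 ≤ b ∧ ord (l + 1) - ord l ≤ R / L ∧
        η / K < |Real.sin (θ / 2 * L * (ord (l + 1) - ord l))|), (f l + ω) ≤
      ∑ l ∈ JJ T R θ (η / K), f l + ω * (T * L) := by
    have e2 : (Finset.Ioc a b).filter (fun l => l + 1 ≤ b ∧ ord (l + 1) - ord l ≤ R / L ∧
        η / K < |Real.sin (θ / 2 * L * (ord (l + 1) - ord l))|) = JJ T R θ (η / K) := by
      unfold JJ
      congr
    rw [e2, Finset.sum_add_distrib, Finset.sum_const, nsmul_eq_mul]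
    have h8 : ((JJ T R θ (η / K)).card : ℝ) ≤ T * L := by
      refine le_trans ?_ b4
      have h9 : JJ T R θ (η / K) ⊆ Finset.Ioc (NZ T) (NZ (2 * T)) := Finset.filter_subset _ _
      have h6 := Finset.card_le_card h9
      rw [Nat.card_Ioc, NZ_add hT1' (by linarith : T ≤ 2 * T), Nat.add_sub_cancel_left] at h6
      rw [NN_Zf good_zeta hT1']
      exact_mod_cast h6
    have h10 := mul_le_mul_of_nonneg_right h8 hω0.le
    linarith
  set S1 := ∑ i ∈ Finset.Ioc a b, (∑ j ∈ Finset.Ioc a b,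
    if |ord i - ord j| ≤ R / L then (1 : ℝ) else 0) ^ 2 with hS1
  have h8 : S1 / K ≤ c1 * δ / 4 * (T * L) := by
    calc S1 / K ≤ C * (T * L) / K := by gcongr
      _ = C / K * (T * L) := by ring
      _ ≤ _ := by gcongr
  have h9 : c1 * δ * (T * L) ≤ c1 * (∫ x, F x ∂(haarT k)) * (T * L) := by gcongr
  have hK3 : (0 : ℝ) < (2 * K + 1) ^ 2 := by positivity
  have h10 : (2 * K + 1 : ℝ) ^ 2 * (∑ l ∈ (Finset.Ioc a b).filter (fun l => l + 1 ≤ b ∧
      ord (l + 1) - ord l ≤ R / L ∧ η / K < |Real.sin (θ / 2 * L * (ord (l + 1) - ord l))|),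
        (f l + ω)) ≤ (2 * K + 1 : ℝ) ^ 2 * (∑ l ∈ JJ T R θ (η / K), f l + ω * (T * L)) :=
    mul_le_mul_of_nonneg_left h7 hK3.le
  have h11 : (2 * K + 1 : ℝ) ^ 2 * (ω * (T * L)) = c1 * δ / 4 * (T * L) := by
    rw [hω]; field_simp
  have h12 : c1 * δ / 2 * (T * L) ≤ (2 * K + 1 : ℝ) ^ 2 * ∑ l ∈ JJ T R θ (η / K), f l := by
    rw [mul_add, h11] at h10
    linarith
  have h13 : c1 * δ / (4 * (2 * K + 1) ^ 2) * (T * L) ≤
      (c1 * δ / 2 * (T * L)) / (2 * K + 1 : ℝ) ^ 2 := by
    rw [le_div_iff₀ hK3]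
    have : c1 * δ / (4 * (2 * K + 1) ^ 2) * (T * L) * (2 * K + 1) ^ 2 =
        c1 * δ / 4 * (T * L) := by field_simp
    rw [this]
    have : 0 < c1 * δ * (T * L) := by positivity
    linarith
  refine h13.trans ?_
  rw [div_le_iff₀ hK3]
  linarith

/-- the normalised gap and the gap scaled at the height `T` -/
lemma dlt_near {T R : ℝ} (hT : 10 ≤ T) {n : ℕ} (h1 : 1 ≤ n) (h2 : T < ord n)
    (h3 : ord (n + 1) ≤ 2 * T) (h4 : ord (n + 1) - ord n ≤ R / Real.log T) :
    |dlt n - (ord (n + 1) - ord n) * Real.log T / (2 * Real.pi)| ≤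
      R * (Real.log 2 + 1) / (2 * Real.pi * Real.log T) := by
  have hpi := Real.pi_pos
  have hTpos : 0 < T := by linarith
  have hL0 : 0 < Real.log T := Real.log_pos (by linarith)
  have hmono := SG.ord_mono h1 (by omega : n ≤ n + 1)
  set x := ord n with hx
  set y := ord (n + 1) with hy
  have hx0 : 0 < x := by linarith
  have hy0 : 0 < y := by linarith
  have hdef : dlt n = (y * Real.log y - x * Real.log x) / (2 * Real.pi) := rfl
  have e1 : Real.log y - Real.log x ≤ (y - x) / x := by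
    rw [← Real.log_div (by positivity) (by positivity)]
    have := Real.log_le_sub_one_of_pos (show 0 < y / x by positivity)
    rw [sub_div, div_self hx0.ne']
    exact this
  have e2 : x * (Real.log y - Real.log x) ≤ y - x := by
    calc x * (Real.log y - Real.log x) ≤ x * ((y - x) / x) := by gcongr
      _ = y - x := by field_simp
  have e2' : 0 ≤ x * (Real.log y - Real.log x) := by
    have := Real.log_le_log hx0 hmono
    exact mul_nonneg hx0.le (by linarith)
  have e3 : Real.log y ≤ Real.log 2 + Real.log T := by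
    rw [← Real.log_mul (by norm_num) (by positivity)]
    exact Real.log_le_log hy0 h3
  have e3' : Real.log T ≤ Real.log y := Real.log_le_log hTpos (by linarith)
  have e : dlt n - (y - x) * Real.log T / (2 * Real.pi) =
      ((y - x) * (Real.log y - Real.log T) + x * (Real.log y - Real.log x)) / (2 * Real.pi) := by
    rw [hdef]
    field_simp
    ring
  have e4 : 0 ≤ (y - x) * (Real.log y - Real.log T) :=
    mul_nonneg (by linarith) (by linarith)
  rw [e, abs_of_nonneg (div_nonneg (by linarith) (by positivity)),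
    div_le_div_iff₀ (by positivity) (by positivity)]
  have e5 : (y - x) * (Real.log y - Real.log T) ≤ (y - x) * Real.log 2 :=
    mul_le_mul_of_nonneg_left (by linarith) (by linarith)
  have hl2 : 0 < Real.log 2 := Real.log_pos (by norm_num)
  have e6 : (y - x) * Real.log T ≤ R := by
    calc (y - x) * Real.log T ≤ R / Real.log T * Real.log T := by gcongr
      _ = R := by field_simp
  calc ((y - x) * (Real.log y - Real.log T) + x * (Real.log y - Real.log x)) *
      (2 * Real.pi * Real.log T) ≤ ((y - x) * (Real.log 2 + 1)) * (2 * Real.pi * Real.log T) := by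
        apply mul_le_mul_of_nonneg_right _ (by positivity)
        linarith
    _ = ((y - x) * Real.log T) * ((Real.log 2 + 1) * (2 * Real.pi)) := by ring
    _ ≤ R * ((Real.log 2 + 1) * (2 * Real.pi)) := by gcongr
    _ = _ := by ring

open Classical in
/-- **index form** -/
theorem spacing_idx (hRH : RiemannHypothesis) {σ : ℝ} (hσ : 1 / 2 < σ) {δ : ℝ} (hδ : 0 < δ) :
    ∃ ε : ℝ, 0 < ε ∧ ∀ (k : ℕ) (α : Fin k → ℝ),
      (∀ n : Fin k → ℤ, ∑ j, (n j : ℝ) * α j = 0 → n = 0) →
      ∀ F : C(UnitAddTorus (Fin k), ℝ), (∀ x, 0 ≤ F x) → (∀ x, F x ≤ 1) →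
      (δ ≤ ∫ x, F x ∂(haarT k)) → ∃ N0 : ℕ, ∀ N : ℕ, N0 ≤ N →
      ε * N ≤ ∑ n ∈ (Finset.Icc 1 N).filter (fun n => ∀ m : ℤ, ε ≤ |dlt n - σ * m|),
        F (torusPt α (ord n)) := by
  classical
  have hpi := Real.pi_pos
  have hσ0 : 0 < σ := by linarith
  obtain ⟨c1, R, η, hc1, hR, hη, h1'⟩ := spacing_lattice hRH (θ := 1 / σ) (by positivity)
    (by rw [div_lt_iff₀ hσ0]; linarith) hδ
  obtain ⟨C, T2, hC, hT2, h2⟩ := LG.GapAux.NZ_up
  set ε : ℝ := min (c1 / (3 * C)) (σ * η / (2 * Real.pi)) with hε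
  have hε0 : 0 < ε := by
    rw [hε]
    exact lt_min (by positivity) (by positivity)
  refine ⟨ε, hε0, fun k α hα F hF hF1 hFM => ?_⟩
  obtain ⟨T1, hT1, h1⟩ := h1' k α hα F hF hF1 hFM
  obtain ⟨T3, hT3⟩ := (Real.tendsto_log_atTop.eventually_ge_atTop
    (R * (Real.log 2 + 1) / (σ * η))).exists_forall_of_atTop
  set X : ℝ := max T1 (max T2 T3) with hX
  have hX1 : T1 ≤ X := le_max_left _ _
  have hX2 : T2 ≤ X := (le_max_left _ _).trans (le_max_right _ _)
  have hX3 : T3 ≤ X := (le_max_right _ _).trans (le_max_right _ _)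
  refine ⟨NZ (3 * X) + 1, fun N hN => ?_⟩
  have hN1 : 1 ≤ N := by omega
  have hbig : 3 * X < ord N := by
    by_contra hcon
    push Not at hcon
    have := (SG.ord_le_iff hN1 (3 * X)).mp hcon
    omega
  set T : ℝ := ord N / 3 with hT
  have hTX : X ≤ T := by rw [hT]; linarith
  have hT10 : 10 ≤ T := by linarith
  have hTpos : 0 < T := by linarith
  have hL0 : 0 < Real.log T := Real.log_pos (by linarith)
  have hNle : (N : ℝ) ≤ 3 * C * (T * Real.log T) := by
    have g1 : N ≤ NZ (2 * (3 / 2 * T)) := by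
      apply (SG.ord_le_iff hN1 _).mp
      rw [hT]
      apply le_of_eq
      ring
    have g2 := h2 (3 / 2 * T) (by linarith)
    have g3 : (N : ℝ) ≤ NZ (2 * (3 / 2 * T)) := by exact_mod_cast g1
    have g4 : Real.log (3 / 2 * T) ≤ 2 * Real.log T := by
      have : Real.log (3 / 2 * T) ≤ Real.log (T ^ 2) := Real.log_le_log (by positivity) (by nlinarith)
      rw [Real.log_pow] at this
      push_cast at this
      exact this
    calc (N : ℝ) ≤ C * (3 / 2 * T * Real.log (3 / 2 * T)) := g3.trans g2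
      _ ≤ C * (3 / 2 * T * (2 * Real.log T)) := by gcongr
      _ = _ := by ring
  have hLc : R * (Real.log 2 + 1) ≤ Real.log T * (σ * η) := by
    have := hT3 T (hX3.trans hTX)
    rwa [div_le_iff₀ (by positivity)] at this
  calc ε * N ≤ c1 / (3 * C) * (3 * C * (T * Real.log T)) := by
        have : ε ≤ c1 / (3 * C) := min_le_left _ _
        gcongr
    _ = c1 * (T * Real.log T) := by field_simp
    _ ≤ _ := h1 T (hX1.trans hTX)
    _ ≤ _ := by
      apply Finset.sum_le_sum_of_subset_of_nonneg _ fun _ _ _ => hF _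
      intro n hn
      unfold JJ at hn
      rw [Finset.mem_filter, Finset.mem_Ioc] at hn
      obtain ⟨⟨a1, a2⟩, a3, a4, a5⟩ := hn
      have hn1 : 1 ≤ n := by omega
      have hTn : T < ord n := by
        by_contra hcon
        push Not at hcon
        have := (SG.ord_le_iff hn1 T).mp hcon
        omega
      have hn2 : ord (n + 1) ≤ 2 * T := (SG.ord_le_iff (by omega) _).mpr a3
      rw [Finset.mem_filter, Finset.mem_Icc]
      refine ⟨⟨hn1, ?_⟩, fun m => ?_⟩
      · by_contra hcon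
        push Not at hcon
        have g1 := SG.ord_mono hN1 (by omega : N ≤ n + 1)
        rw [hT] at hn2
        have : 0 < ord N := by linarith
        linarith
      · have g1 := dlt_near hT10 hn1 hTn hn2 a4
        have g2 := off_lattice hσ0 (η := η)
          (u := (ord (n + 1) - ord n) * Real.log T / (2 * Real.pi)) (by
            have e : 1 / σ / 2 * (2 * Real.pi * ((ord (n + 1) - ord n) * Real.log T /
              (2 * Real.pi))) = 1 / σ / 2 * Real.log T * (ord (n + 1) - ord n) := by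
              field_simp
            rw [e]
            exact a5) m
        have g3 : R * (Real.log 2 + 1) / (2 * Real.pi * Real.log T) ≤
            σ * η / (2 * Real.pi) := by
          rw [div_le_div_iff₀ (by positivity) (by positivity)]
          nlinarith
        have g4 : ε ≤ σ * η / (2 * Real.pi) := min_le_right _ _
        have g5 : σ * η / Real.pi = 2 * (σ * η / (2 * Real.pi)) := by field_simp
        set u := (ord (n + 1) - ord n) * Real.log T / (2 * Real.pi) with hu
        have g6 : |u - m * σ| ≤ |dlt n - σ * m| + |dlt n - u| := by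
          have : u - m * σ = (dlt n - σ * m) - (dlt n - u) := by ring
          rw [this]
          exact abs_sub _ _
        linarith

end Pool.Agent.R482.GB
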