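import Pool.Agent.TH803.TW.PairW
import Pool.Agent.TH803.TW.Pbd
import Pool.Agent.R482.GB.Dec

/-! # Positivity of pair sums with almost periodic weights -/

open Complex Filter Topology Set MeasureTheory
open scoped BigOperators

namespace Pool.Agent.R482.GB

open H370 H370.A2 H370.AS H295SI TH803TW

/-- positivity -/
lemma pos_sum {ι : Type*} (S : Finset ι) (m x q : ι → ℝ) {ψ : ℝ → ℝ} (hψ : Continuous ψ)
    (hψ0 : ∀ α, 0 ≤ ψ α) (Λ : ℝ) :
    0 ≤ ∑ s ∈ S, ∑ s' ∈ S, m s * m s' * (rk ψ (Λ * (x s - x s')) * (q s * q s')) := by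
  have h1 : ∀ α : ℝ, ψ α * ((∑ s ∈ S, m s * q s * Real.cos (Λ * x s * α)) ^ 2 +
      (∑ s ∈ S, m s * q s * Real.sin (Λ * x s * α)) ^ 2) =
      ∑ s ∈ S, ∑ s' ∈ S, m s * m s' * (q s * q s') *
        (ψ α * Real.cos (Λ * (x s - x s') * α)) := by
    intro α
    rw [sq, sq, Finset.sum_mul_sum, Finset.sum_mul_sum, ← Finset.sum_add_distrib, Finset.mul_sum]
    refine Finset.sum_congr rfl fun s _ => ?_
    rw [← Finset.sum_add_distrib, Finset.mul_sum]
    refine Finset.sum_congr rfl fun s' _ => ?_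
    rw [show Λ * (x s - x s') * α = Λ * x s * α - Λ * x s' * α by ring, Real.cos_sub]
    ring
  have e : ∑ s ∈ S, ∑ s' ∈ S, m s * m s' * (rk ψ (Λ * (x s - x s')) * (q s * q s')) =
      ∫ α in (-1 : ℝ)..1, ψ α * ((∑ s ∈ S, m s * q s * Real.cos (Λ * x s * α)) ^ 2 +
        (∑ s ∈ S, m s * q s * Real.sin (Λ * x s * α)) ^ 2) := by
    have h2 : ∫ α in (-1 : ℝ)..1, ψ α * ((∑ s ∈ S, m s * q s * Real.cos (Λ * x s * α)) ^ 2 +
        (∑ s ∈ S, m s * q s * Real.sin (Λ * x s * α)) ^ 2) =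
        ∫ α in (-1 : ℝ)..1, ∑ s ∈ S, ∑ s' ∈ S, m s * m s' * (q s * q s') *
        (ψ α * Real.cos (Λ * (x s - x s') * α)) :=
      intervalIntegral.integral_congr fun α _ => h1 α
    rw [h2, intervalIntegral.integral_finset_sum]
    · refine Finset.sum_congr rfl fun s _ => ?_
      rw [intervalIntegral.integral_finset_sum]
      · refine Finset.sum_congr rfl fun s' _ => ?_
        rw [intervalIntegral.integral_const_mul]
        unfold rk
        ring
      · intro s' _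
        exact Continuous.intervalIntegrable (by fun_prop) _ _
    · intro s _
      exact Continuous.intervalIntegrable (by fun_prop) _ _
  rw [e]
  exact intervalIntegral.integral_nonneg (by norm_num) fun α _ => mul_nonneg (hψ0 α) (by positivity)

/-- differences of a trigonometric polynomial -/
lemma tp_diff (S : Finset ℝ) (c : ℝ → ℂ) (x y : ℝ) : |tp S c x - tp S c y| ≤
    (2 * (∑ τ ∈ S, ‖c τ‖) + ∑ τ ∈ S, ‖c τ‖ * |τ|) * Real.sqrt |x - y| := by
  set W := ∑ τ ∈ S, ‖c τ‖ with hW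
  set V := ∑ τ ∈ S, ‖c τ‖ * |τ| with hV
  have hW0 : 0 ≤ W := Finset.sum_nonneg fun _ _ => norm_nonneg _
  have hV0 : 0 ≤ V := Finset.sum_nonneg fun _ _ => by positivity
  have h1 := min_sqrt (abs_nonneg (x - y))
  refine le_trans ?_ (mul_le_mul_of_nonneg_left h1 (by positivity))
  have h2 := tp_bound S c x
  have h3 := tp_bound S c y
  have h4 := tp_lip S c x y
  rcases le_total 1 |x - y| with h | h
  · rw [min_eq_left h]
    have h5 := abs_sub (tp S c x) (tp S c y)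
    nlinarith
  · rw [min_eq_right h]
    have h6 := abs_nonneg (x - y)
    nlinarith

/-- **pair sums with a nonnegative Fourier transform and the weight `g(γ)²`** -/
theorem out_nonneg {F : ℂ → ℂ} (hF : GoodL F) (hline : Line F) {ψ : ℝ → ℝ} (hψ : Continuous ψ)
    (hψ0 : ∀ α, 0 ≤ ψ α) {K : ℝ} (hdec : ∀ x, |rk ψ x| ≤ K / (1 + x ^ 2)) {g : ℝ → ℝ}
    (hg : ∀ ε : ℝ, 0 < ε → ∃ (S : Finset ℝ) (c : ℝ → ℂ), ∀ t, |g t - tp S c t| ≤ ε)
    {lam η : ℝ} (hlam : 0 < lam) (hlam1 : lam ≤ 1) (hη : 0 < η) :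
    ∃ T0 : ℝ, 10 ≤ T0 ∧ ∀ T : ℝ, T0 ≤ T → ∀ Λ : ℝ, lam * Real.log T ≤ Λ →
      -(η * (T * Real.log T)) ≤ PU ψ F Λ T (2 * T) (fun t => g t ^ 2) := by
  have hK : 0 ≤ K := by
    have := (abs_nonneg _).trans (hdec 0)
    simpa using this
  obtain ⟨Cp, T1, hCp, hT1, hP⟩ := P_dyadic hF hline
  set K' : ℝ := 80 * K / lam ^ 2 with hK'
  have hK'0 : 0 ≤ K' := by positivity
  -- a bound for `g`
  obtain ⟨S0, c0, hS0⟩ := hg 1 one_pos
  set G : ℝ := (∑ τ ∈ S0, ‖c0 τ‖) + 1 with hG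
  have hG0 : 0 < G := by
    have : 0 ≤ ∑ τ ∈ S0, ‖c0 τ‖ := Finset.sum_nonneg fun _ _ => norm_nonneg _
    linarith
  have hgG : ∀ t, |g t| ≤ G := by
    intro t
    have h1 := hS0 t
    have h2 := tp_bound S0 c0 t
    have h3 : |g t| ≤ |g t - tp S0 c0 t| + |tp S0 c0 t| := by
      have := abs_add_le (g t - tp S0 c0 t) (tp S0 c0 t)
      rwa [sub_add_cancel] at this
    linarith
  set ε1 : ℝ := min 1 (η / (4 * ((2 * G + 1) * (K' * Cp) + 1))) with hε1
  have hε10 : 0 < ε1 := by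
    apply lt_min one_pos
    have : 0 ≤ (2 * G + 1) * (K' * Cp) := by positivity
    positivity
  have hε11 : ε1 ≤ 1 := min_le_left _ _
  have hε1K : ε1 * (2 * G + 1) * (K' * Cp) ≤ η / 4 := by
    have h1 : ε1 ≤ η / (4 * ((2 * G + 1) * (K' * Cp) + 1)) := min_le_right _ _
    have h2 : 0 ≤ (2 * G + 1) * (K' * Cp) := by positivity
    rw [le_div_iff₀ (by positivity)] at h1
    nlinarith
  obtain ⟨S, c, hc⟩ := hg ε1 hε10
  have hp : ∀ t, |tp S c t| ≤ G + 1 := by
    intro t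
    have h1 := hc t
    have h2 := hgG t
    have h3 : |tp S c t| ≤ |g t - tp S c t| + |g t| := by
      have := abs_sub (g t - tp S c t) (g t)
      rw [sub_sub_cancel_left, abs_neg] at this
      exact this
    linarith
  set W1 : ℝ := (G + 1) * (2 * (∑ τ ∈ S, ‖c τ‖) + ∑ τ ∈ S, ‖c τ‖ * |τ|) with hW1
  have hW10 : 0 ≤ W1 := by
    have h3 : 0 ≤ ∑ τ ∈ S, ‖c τ‖ := Finset.sum_nonneg fun _ _ => norm_nonneg _
    have h4 : 0 ≤ ∑ τ ∈ S, ‖c τ‖ * |τ| := Finset.sum_nonneg fun _ _ => by positivity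
    positivity
  have ev : ∀ᶠ T : ℝ in atTop, (4 * W1 * (K' * Cp) / η + 1) ^ 2 ≤ Real.log T :=
    Real.tendsto_log_atTop.eventually_ge_atTop _
  obtain ⟨T3, hT3⟩ := ev.exists_forall_of_atTop
  refine ⟨max (max 10 T1) T3, (le_max_left _ _).trans (le_max_left _ _), fun T hT Λ hΛ => ?_⟩
  have hT10 : 10 ≤ T := ((le_max_left _ _).trans (le_max_left _ _)).trans hT
  have hTT1 : T1 ≤ T := ((le_max_right _ _).trans (le_max_left _ _)).trans hT
  have hlog := hT3 T ((le_max_right _ _).trans hT)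
  set L := Real.log T with hL
  have hL0 : 0 < L := Real.log_pos (by linarith)
  have hPP := hP T hTT1
  have hPc0 := Pc_nonneg F T (2 * T) L
  set Y := T * L with hY
  have hY0 : 0 < Y := by positivity
  have hsL0 : 0 < Real.sqrt L := Real.sqrt_pos.2 hL0
  have hsL : 4 * W1 * (K' * Cp) / η ≤ Real.sqrt L := by
    have : 4 * W1 * (K' * Cp) / η + 1 ≤ Real.sqrt L := Real.le_sqrt_of_sq_le hlog
    linarith
  have hKP : K' * Pc F T (2 * T) L ≤ K' * Cp * Y := by
    calc K' * Pc F T (2 * T) L ≤ K' * (Cp * Y) := by gcongr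
      _ = _ := by ring
  -- decomposition
  have e : PU ψ F Λ T (2 * T) (fun t => g t ^ 2) =
      (∑ s ∈ Zf F T (2 * T), ∑ s' ∈ Zf F T (2 * T), (mult F s : ℝ) * (mult F s' : ℝ) *
        (rk ψ (Λ * (s.im - s'.im)) * (tp S c s.im * tp S c s'.im))) +
      (∑ s ∈ Zf F T (2 * T), ∑ s' ∈ Zf F T (2 * T), (mult F s : ℝ) * (mult F s' : ℝ) *
        (rk ψ (Λ * (s.im - s'.im)) * (fun s s' : ℂ => tp S c s.im *
          (tp S c s.im - tp S c s'.im)) s s')) +
      (∑ s ∈ Zf F T (2 * T), ∑ s' ∈ Zf F T (2 * T), (mult F s : ℝ) * (mult F s' : ℝ) *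
        (rk ψ (Λ * (s.im - s'.im)) * (fun s _ : ℂ => g s.im ^ 2 - tp S c s.im ^ 2) s s')) := by
    unfold PU
    rw [← Finset.sum_add_distrib, ← Finset.sum_add_distrib]
    refine Finset.sum_congr rfl fun s _ => ?_
    rw [← Finset.sum_add_distrib, ← Finset.sum_add_distrib]
    refine Finset.sum_congr rfl fun s' _ => ?_
    ring
  have a1 := pos_sum (Zf F T (2 * T)) (fun s => (mult F s : ℝ)) (fun s => s.im)
    (fun s => tp S c s.im) hψ hψ0 Λ
  have a2 := small_pair (A := T) (B := 2 * T) (F := F) hdec hlam hlam1 hL0 hΛ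
    (fun s s' : ℂ => tp S c s.im * (tp S c s.im - tp S c s'.im)) (W := W1) (fun s s' => by
      show |tp S c s.im * (tp S c s.im - tp S c s'.im)| ≤ W1 * Real.sqrt |s.im - s'.im|
      rw [abs_mul, hW1, mul_assoc]
      exact mul_le_mul (hp _) (tp_diff _ _ _ _) (abs_nonneg _) (by positivity)) hW10
  have a3 := abs_pair (A := T) (B := 2 * T) (F := F) hdec hlam hlam1 hL0 hΛ
    (fun s _ : ℂ => g s.im ^ 2 - tp S c s.im ^ 2) (W := ε1 * (2 * G + 1)) (fun s s' => by
      show |g s.im ^ 2 - tp S c s.im ^ 2| ≤ ε1 * (2 * G + 1)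
      rw [show g s.im ^ 2 - tp S c s.im ^ 2 = (g s.im - tp S c s.im) * (g s.im + tp S c s.im) by
        ring, abs_mul]
      apply mul_le_mul (hc _) _ (abs_nonneg _) hε10.le
      have h1 := abs_add_le (g s.im) (tp S c s.im)
      have h2 := hgG s.im
      have h3 := hp s.im
      linarith)
  have b2 : W1 * (80 * K / lam ^ 2) / Real.sqrt L * Pc F T (2 * T) L ≤ η / 4 * Y := by
    rw [← hK']
    calc W1 * K' / Real.sqrt L * Pc F T (2 * T) L = W1 / Real.sqrt L *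
          (K' * Pc F T (2 * T) L) := by ring
      _ ≤ W1 / Real.sqrt L * (K' * Cp * Y) := by gcongr
      _ = (W1 * (K' * Cp) / Real.sqrt L) * Y := by ring
      _ ≤ η / 4 * Y := by
          refine mul_le_mul_of_nonneg_right ?_ hY0.le
          rw [div_le_iff₀ hsL0]
          rw [div_le_iff₀ hη] at hsL
          linarith
  have b3 : ε1 * (2 * G + 1) * (80 * K / lam ^ 2) * Pc F T (2 * T) L ≤ η / 4 * Y := by
    rw [← hK']
    calc ε1 * (2 * G + 1) * K' * Pc F T (2 * T) L = ε1 * (2 * G + 1) *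
          (K' * Pc F T (2 * T) L) := by ring
      _ ≤ ε1 * (2 * G + 1) * (K' * Cp * Y) := by
          apply mul_le_mul_of_nonneg_left hKP (by positivity)
      _ = (ε1 * (2 * G + 1) * (K' * Cp)) * Y := by ring
      _ ≤ η / 4 * Y := by gcongr
  have c2 := (abs_le.1 (a2.trans b2)).1
  have c3 := (abs_le.1 (a3.trans b3)).1
  rw [e]
  have hηY : 0 < η * Y := by positivity
  linarith only [a1, c2, c3, hηY]

end Pool.Agent.R482.GB
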