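import Pool.Agent.TH803.TW.Bdry
import Pool.Agent.R482.GB.Pos

/-! # Montgomery's inequality with almost periodic weights -/

open Complex Filter Topology Set MeasureTheory
open scoped BigOperators

namespace Pool.Agent.R482.GB

open H370 H370.A2 H370.AS H295SI TH803TW

/-- cosine transform of the even extension of `h` on `[0, a]` -/
noncomputable def CC (h : ℝ → ℝ) (a y : ℝ) : ℝ := 2 * ∫ α in (0 : ℝ)..a, h α * Real.cos (y * α)

/-- pair sum -/
noncomputable def PQ (h : ℝ → ℝ) (a T : ℝ) (w : ℝ → ℝ) : ℝ :=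
  ∑ s ∈ Zf riemannZeta T (2 * T), ∑ s' ∈ Zf riemannZeta T (2 * T),
    (mult riemannZeta s : ℝ) * (mult riemannZeta s' : ℝ) *
      (CC h a (Real.log T * (s.im - s'.im)) * w s.im)

/-- rescaled kernel -/
noncomputable def scl (h : ℝ → ℝ) (a : ℝ) : ℝ → ℝ := ev (fun u => a * h (a * u)) 1

lemma scl_cont {h : ℝ → ℝ} (hh : Continuous h) (a : ℝ) : Continuous (scl h a) :=
  ev_cont (by fun_prop) 1

lemma rk_ev {f : ℝ → ℝ} (hf : Continuous f) (y : ℝ) :
    rk (ev f 1) y = 2 * ∫ α in (0 : ℝ)..1, f α * Real.cos (y * α) := by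
  unfold rk
  have h0 := int_even (F := fun α : ℝ => ev f 1 α * Real.cos (y * α))
    ((ev_cont hf 1).mul (by fun_prop)) (fun α => by
      show ev f 1 (-α) * Real.cos (y * -α) = _
      rw [ev_even, mul_neg, Real.cos_neg]) 1
  rw [h0]
  congr 1
  refine intervalIntegral.integral_congr fun α hα => ?_
  rw [Set.uIcc_of_le zero_le_one] at hα
  show ev f 1 α * _ = _
  rw [ev_in hα.1 hα.2]

lemma rk_scl {h : ℝ → ℝ} (hh : Continuous h) {a : ℝ} (y : ℝ) :
    rk (scl h a) (a * y) = CC h a y := by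
  unfold scl CC
  rw [rk_ev (by fun_prop)]
  congr 1
  have h2 := intervalIntegral.mul_integral_comp_mul_left (a := (0 : ℝ)) (b := 1) (c := a)
    (f := fun α : ℝ => h α * Real.cos (y * α))
  rw [mul_zero, mul_one] at h2
  rw [← h2, ← intervalIntegral.integral_const_mul]
  refine intervalIntegral.integral_congr fun α _ => ?_
  show a * h (a * α) * Real.cos (a * y * α) = a * (h (a * α) * Real.cos (y * (a * α)))
  rw [show a * y * α = y * (a * α) by ring]
  ring

lemma scl_dec {h : ℝ → ℝ} (hh : ContDiff ℝ 2 h) {a : ℝ} (h1 : h a = 0) :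
    ∃ K : ℝ, ∀ x : ℝ, |rk (scl h a) x| ≤ K / (1 + x ^ 2) := by
  have h2 : ContDiff ℝ 2 (fun u => a * h (a * u)) := by fun_prop
  obtain ⟨K, -, hK⟩ := cos_dec h2 zero_le_one (by simp [h1])
  refine ⟨2 * K, fun x => ?_⟩
  unfold scl
  rw [rk_ev h2.continuous, abs_mul, abs_of_pos (by norm_num : (0 : ℝ) < 2), mul_div_assoc]
  exact mul_le_mul_of_nonneg_left (hK x) (by norm_num)

lemma PU_scl {h : ℝ → ℝ} (hh : Continuous h) (a T : ℝ) (w : ℝ → ℝ) :
    PU (scl h a) riemannZeta (a * Real.log T) T (2 * T) w = PQ h a T w := by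
  unfold PU PQ
  refine Finset.sum_congr rfl fun s _ => Finset.sum_congr rfl fun s' _ => ?_
  rw [mul_assoc a, rk_scl hh]

lemma cR_scl {h : ℝ → ℝ} {a : ℝ} (ha : 0 < a) :
    cR (scl h a) a = h 0 + 2 * ∫ α in (0 : ℝ)..a, α * h α := by
  have h2 := intervalIntegral.mul_integral_comp_mul_left (a := (0 : ℝ)) (b := 1) (c := a)
    (f := fun α : ℝ => α * h α)
  rw [mul_zero, mul_one] at h2
  have h3 : ∫ α in (0 : ℝ)..1, α * scl h a α = ∫ α in (0 : ℝ)..1, (a * α) * h (a * α) := by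
    refine intervalIntegral.integral_congr fun α hα => ?_
    rw [Set.uIcc_of_le zero_le_one] at hα
    show α * ev (fun u => a * h (a * u)) 1 α = _
    rw [ev_in hα.1 hα.2]
    ring
  have h4 : scl h a 0 = a * h 0 := by
    unfold scl
    rw [ev_in le_rfl zero_le_one, mul_zero]
  unfold cR
  rw [h3, h4, ← h2]
  field_simp

/-- the inner part -/
lemma inner' (hRH : RiemannHypothesis) (hline : Line riemannZeta) {h : ℝ → ℝ}
    (hh : ContDiff ℝ 2 h) {a : ℝ} (ha : 0 < a) (ha1 : a < 1) (h1 : h a = 0) {φ : ℝ → ℝ} {M : ℝ}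
    (hφ : APm φ M) {η : ℝ} (hη : 0 < η) :
    ∃ T0 : ℝ, 10 ≤ T0 ∧ ∀ T : ℝ, T0 ≤ T →
      |PQ h a T φ - (T * Real.log T / (2 * Real.pi)) *
        (M * (h 0 + 2 * ∫ α in (0 : ℝ)..a, α * h α))| ≤ η * (T * Real.log T) := by
  obtain ⟨K, hK⟩ := scl_dec hh h1
  have hs1 : scl h a 1 = 0 := by
    unfold scl
    rw [ev_in zero_le_one le_rfl, mul_one, h1, mul_zero]
  obtain ⟨T0, hT0, hT⟩ := pair_dyadic hRH hline (scl_cont hh.continuous a)
    (fun α => by unfold scl; rw [ev_even]) hs1 hK hφ a η ha ha1 hη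
  refine ⟨T0, hT0, fun T hTT => ?_⟩
  have := hT T hTT
  rwa [PU_scl hh.continuous, cR_scl ha] at this

/-- the outer part -/
lemma outer' (hline : Line riemannZeta) {h : ℝ → ℝ}
    (hh : ContDiff ℝ 2 h) {a : ℝ} (ha : 0 < a) (h1 : h a = 0)
    (hpos : ∀ α, 0 ≤ α → α ≤ a → 0 ≤ h α) {g : ℝ → ℝ}
    (hg : ∀ ε : ℝ, 0 < ε → ∃ (S : Finset ℝ) (c : ℝ → ℂ), ∀ t, |g t - tp S c t| ≤ ε)
    {η : ℝ} (hη : 0 < η) :
    ∃ T0 : ℝ, 10 ≤ T0 ∧ ∀ T : ℝ, T0 ≤ T →
      -(η * (T * Real.log T)) ≤ PQ h a T (fun t => g t ^ 2) := by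
  obtain ⟨K, hK⟩ := scl_dec hh h1
  obtain ⟨T0, hT0, hT⟩ := out_nonneg (F := riemannZeta) good_zeta hline (scl_cont hh.continuous a)
    (fun α => by
      unfold scl ev
      have h2 : 0 ≤ min |α| 1 := le_min (abs_nonneg _) zero_le_one
      have h3 : min |α| 1 ≤ 1 := min_le_right _ _
      exact mul_nonneg ha.le (hpos _ (by positivity) (by nlinarith)))
    hK hg (lam := min a 1) (lt_min ha one_pos) (min_le_right _ _) hη
  refine ⟨T0, hT0, fun T hTT => ?_⟩
  have hL : 0 ≤ Real.log T := Real.log_nonneg (by linarith)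
  have := hT T hTT (a * Real.log T) (mul_le_mul_of_nonneg_right (min_le_left _ _) hL)
  rwa [PU_scl hh.continuous] at this

/-- **Montgomery's inequality in Bohr sets** -/
theorem transfer (hRH : RiemannHypothesis) (hline : Line riemannZeta) {A : ℝ} (hA : 0 < A)
    {f : ℝ → ℝ} (hf : ContDiff ℝ 2 f) (hfA : f A = 0) {κ₀ : ℝ} (hκ₀ : κ₀ < 1)
    (hpos : ∀ α, κ₀ ≤ α → α ≤ A → 0 ≤ f α) {g : ℝ → ℝ}
    (hg : ∀ ε : ℝ, 0 < ε → ∃ (S : Finset ℝ) (c : ℝ → ℂ), ∀ t, |g t - tp S c t| ≤ ε) {M : ℝ}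
    (hM : APm (fun t => g t ^ 2) M) {η : ℝ} (hη : 0 < η) :
    ∃ T0 : ℝ, 10 ≤ T0 ∧ ∀ T : ℝ, T0 ≤ T →
      (T * Real.log T / (2 * Real.pi)) * (M * (f 0 + 2 * ∫ α in (0 : ℝ)..(min 1 A), α * f α)) -
        η * (T * Real.log T) ≤ PQ f A T (fun t => g t ^ 2) := by
  have hpi := Real.pi_pos
  have hpi3 := Real.pi_gt_three
  rcases lt_or_ge A 1 with hA1 | hA1
  · obtain ⟨T0, hT0, hT⟩ := inner' hRH hline hf hA hA1 hfA hM hη
    refine ⟨T0, hT0, fun T hTT => ?_⟩
    rw [min_eq_right hA1.le]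
    have := (abs_le.1 (hT T hTT)).1
    linarith
  rw [min_eq_left hA1]
  have hfc : Continuous f := hf.continuous
  obtain ⟨B, hB0, hB⟩ : ∃ B : ℝ, 0 ≤ B ∧ ∀ α ∈ Set.Icc (0 : ℝ) 1, |α * f α| ≤ B := by
    obtain ⟨B, hB⟩ := isCompact_Icc.exists_bound_of_continuousOn (s := Set.Icc (0 : ℝ) 1)
      (f := fun α => α * f α) (by fun_prop)
    exact ⟨B, (norm_nonneg _).trans (hB 0 ⟨le_rfl, zero_le_one⟩), fun α hα => hB α hα⟩
  set m0 : ℝ := max κ₀ 0 with hm0
  have hm01 : m0 < 1 := max_lt hκ₀ one_pos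
  have hm00 : 0 ≤ m0 := le_max_right _ _
  set δ : ℝ := min ((1 - m0) / 2) (η / (3 * (|M| * B + 1))) with hδ
  have hMB : 0 ≤ |M| * B := by positivity
  have hδ0 : 0 < δ := lt_min (by linarith) (by positivity)
  have hδ1 : δ ≤ (1 - m0) / 2 := min_le_left _ _
  have hδ2 : δ * (|M| * B) ≤ η / 3 := by
    have h1 : δ ≤ η / (3 * (|M| * B + 1)) := min_le_right _ _
    rw [le_div_iff₀ (by positivity)] at h1
    nlinarith
  set κ₁ : ℝ := 1 - δ with hκ₁
  set κ : ℝ := 1 - δ / 2 with hκ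
  have k0 : 0 < κ₁ := by rw [hκ₁]; linarith
  have k1 : κ₁ < κ := by rw [hκ₁, hκ]; linarith
  have k2 : κ < 1 := by rw [hκ]; linarith
  have k3 : κ₀ ≤ κ₁ := by
    have := le_max_left κ₀ 0
    rw [hκ₁]; linarith
  set h1 : ℝ → ℝ := fun α => f α * ct κ₁ κ α with hh1
  set h2 : ℝ → ℝ := fun α => f α * (1 - ct κ₁ κ α) with hh2
  have s1 : ContDiff ℝ 2 h1 := hf.mul (ct_smooth κ₁ κ)
  have s2 : ContDiff ℝ 2 h2 := hf.mul (contDiff_const.sub (ct_smooth κ₁ κ))
  have z1 : h1 κ = 0 := by simp only [hh1]; rw [ct_zero k0 k1 le_rfl, mul_zero]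
  have z2 : h2 A = 0 := by simp only [hh2]; rw [hfA, zero_mul]
  have p2 : ∀ α, 0 ≤ α → α ≤ A → 0 ≤ h2 α := by
    intro α hα0 hαA
    simp only [hh2]
    rcases le_total α κ₁ with h | h
    · rw [ct_one k0 k1 hα0 h, sub_self, mul_zero]
    · exact mul_nonneg (hpos α (k3.trans h) hαA) (by linarith [ct_le κ₁ κ α])
  obtain ⟨T1, hT1, H1⟩ := inner' hRH hline s1 (k0.trans k1) k2 z1 hM (η := η / 3) (by positivity)
  obtain ⟨T2, hT2, H2⟩ := outer' hline s2 hA z2 p2 hg (η := η / 3) (by positivity)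
  refine ⟨max T1 T2, hT1.trans (le_max_left _ _), fun T hT => ?_⟩
  have a1 := (abs_le.1 (H1 T ((le_max_left _ _).trans hT))).1
  have a2 := H2 T ((le_max_right _ _).trans hT)
  have hT10 : 10 ≤ T := hT1.trans ((le_max_left _ _).trans hT)
  have hL : 0 < Real.log T := Real.log_pos (by linarith)
  -- splitting the transform
  have hcc : ∀ y : ℝ, CC f A y = CC h1 κ y + CC h2 A y := by
    intro y
    have i1 : ∀ a b : ℝ, IntervalIntegrable (fun α => h1 α * Real.cos (y * α)) volume a b :=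
      fun a b => (s1.continuous.mul (by fun_prop)).intervalIntegrable _ _
    have i2 : ∀ a b : ℝ, IntervalIntegrable (fun α => h2 α * Real.cos (y * α)) volume a b :=
      fun a b => (s2.continuous.mul (by fun_prop)).intervalIntegrable _ _
    have e1 : ∫ α in κ..A, h1 α * Real.cos (y * α) = 0 := by
      rw [intervalIntegral.integral_congr (g := fun _ => (0 : ℝ))]
      · simp
      · intro α hα
        rw [Set.uIcc_of_le (k2.le.trans hA1)] at hα
        simp only [hh1]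
        rw [ct_zero k0 k1 hα.1, mul_zero, zero_mul]
    have e2 : ∫ α in (0 : ℝ)..A, f α * Real.cos (y * α) =
        (∫ α in (0 : ℝ)..A, h1 α * Real.cos (y * α)) +
          ∫ α in (0 : ℝ)..A, h2 α * Real.cos (y * α) := by
      rw [← intervalIntegral.integral_add (i1 _ _) (i2 _ _)]
      refine intervalIntegral.integral_congr fun α _ => ?_
      simp only [hh1, hh2]
      ring
    unfold CC
    rw [e2, ← intervalIntegral.integral_add_adjacent_intervals (i1 0 κ) (i1 κ A), e1]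
    ring
  have hPQ : PQ f A T (fun t => g t ^ 2) = PQ h1 κ T (fun t => g t ^ 2) +
      PQ h2 A T (fun t => g t ^ 2) := by
    unfold PQ
    rw [← Finset.sum_add_distrib]
    refine Finset.sum_congr rfl fun s _ => ?_
    rw [← Finset.sum_add_distrib]
    refine Finset.sum_congr rfl fun s' _ => ?_
    rw [hcc]
    ring
  -- the main term
  have hmain : |(f 0 + 2 * ∫ α in (0 : ℝ)..1, α * f α) -
      (h1 0 + 2 * ∫ α in (0 : ℝ)..κ, α * h1 α)| ≤ 2 * (δ * B) := by
    have c1 : h1 0 = f 0 := by simp only [hh1]; rw [ct_one k0 k1 le_rfl k0.le, mul_one]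
    have i1 : ∀ a b : ℝ, IntervalIntegrable (fun α => α * h1 α) volume a b :=
      fun a b => (continuous_id.mul s1.continuous).intervalIntegrable _ _
    have i2 : ∀ a b : ℝ, IntervalIntegrable (fun α => α * h2 α) volume a b :=
      fun a b => (continuous_id.mul s2.continuous).intervalIntegrable _ _
    have e1 : ∫ α in κ..1, α * h1 α = 0 := by
      rw [intervalIntegral.integral_congr (g := fun _ => (0 : ℝ))]
      · simp
      · intro α hα
        rw [Set.uIcc_of_le k2.le] at hα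
        simp only [hh1]
        rw [ct_zero k0 k1 hα.1, mul_zero, mul_zero]
    have e2 : ∫ α in (0 : ℝ)..κ₁, α * h2 α = 0 := by
      rw [intervalIntegral.integral_congr (g := fun _ => (0 : ℝ))]
      · simp
      · intro α hα
        rw [Set.uIcc_of_le k0.le] at hα
        simp only [hh2]
        rw [ct_one k0 k1 hα.1 hα.2, sub_self, mul_zero, mul_zero]
    have e3 : ∫ α in (0 : ℝ)..1, α * f α =
        (∫ α in (0 : ℝ)..1, α * h1 α) + ∫ α in (0 : ℝ)..1, α * h2 α := by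
      rw [← intervalIntegral.integral_add (i1 _ _) (i2 _ _)]
      refine intervalIntegral.integral_congr fun α _ => ?_
      simp only [hh1, hh2]
      ring
    have e4 : |∫ α in κ₁..1, α * h2 α| ≤ δ * B := by
      have h5 := intervalIntegral.norm_integral_le_of_norm_le_const (a := κ₁) (b := 1) (C := B)
        (f := fun α => α * h2 α) (by
          intro α hα
          rw [Set.uIoc_of_le (k1.trans k2).le] at hα
          have h6 := hB α ⟨k0.le.trans hα.1.le, hα.2⟩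
          simp only [hh2]
          rw [Real.norm_eq_abs, ← mul_assoc, abs_mul]
          refine (mul_le_of_le_one_right (abs_nonneg _) ?_).trans h6
          rw [abs_le]
          constructor <;> linarith [ct_le κ₁ κ α, ct_nonneg κ₁ κ α])
      rw [Real.norm_eq_abs] at h5
      refine h5.trans (le_of_eq ?_)
      rw [hκ₁, abs_of_nonneg (by linarith)]
      ring
    rw [c1, e3, ← intervalIntegral.integral_add_adjacent_intervals (i1 0 κ) (i1 κ 1), e1,
      ← intervalIntegral.integral_add_adjacent_intervals (i2 0 κ₁) (i2 κ₁ 1), e2]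
    have e5 : f 0 + 2 * ((∫ α in (0 : ℝ)..κ, α * h1 α) + 0 + (0 + ∫ α in κ₁..1, α * h2 α)) -
        (f 0 + 2 * ∫ α in (0 : ℝ)..κ, α * h1 α) = 2 * ∫ α in κ₁..1, α * h2 α := by ring
    rw [e5, abs_mul, abs_of_pos (by norm_num : (0 : ℝ) < 2)]
    linarith
  rw [hPQ]
  set V := f 0 + 2 * ∫ α in (0 : ℝ)..1, α * f α with hV
  set V1 := h1 0 + 2 * ∫ α in (0 : ℝ)..κ, α * h1 α with hV1
  set Y := T * Real.log T with hY
  have hY0 : 0 < Y := by positivity
  have d1 : |Y / (2 * Real.pi) * (M * (V - V1))| ≤ η / 3 * Y := by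
    rw [abs_mul, abs_mul, abs_of_nonneg (by positivity : 0 ≤ Y / (2 * Real.pi))]
    calc Y / (2 * Real.pi) * (|M| * |V - V1|) ≤ Y / (2 * Real.pi) * (|M| * (2 * (δ * B))) := by
          gcongr
      _ = Y / Real.pi * (δ * (|M| * B)) := by field_simp
      _ ≤ Y / 1 * (η / 3) := by
          apply mul_le_mul _ hδ2 (by positivity) (by positivity)
          gcongr
          linarith
      _ = _ := by ring
  have d2 := (abs_le.1 d1).2
  have e : Y / (2 * Real.pi) * (M * V) = Y / (2 * Real.pi) * (M * V1) +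
      Y / (2 * Real.pi) * (M * (V - V1)) := by ring
  rw [e]
  linarith

end Pool.Agent.R482.GB
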