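import Pool.Agent.R482.GB.Idx

/-! # Small gaps in Bohr sets -/

open Complex Filter Topology Set MeasureTheory

namespace Pool.Agent.R482.GB

open SP H370 H370.A2 H370.A3 TH803TW
open SG (ord NZ zmult ZS)

/-- almost periodic functions are uniformly continuous (crude form) -/
lemma unif_tp {φ : ℝ → ℝ} {M : ℝ} (hφ : APm φ M) {ω : ℝ} (hω : 0 < ω) :
    ∃ δ : ℝ, 0 < δ ∧ ∀ x y : ℝ, |x - y| ≤ δ → |φ x - φ y| ≤ ω := by
  obtain ⟨S, c, -, h1, -⟩ := hφ (ω / 3) (by positivity)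
  set K : ℝ := 2 * (∑ τ ∈ S, ‖c τ‖) + ∑ τ ∈ S, ‖c τ‖ * |τ| with hK
  have hK0 : 0 ≤ K := by
    have h3 : 0 ≤ ∑ τ ∈ S, ‖c τ‖ := Finset.sum_nonneg fun _ _ => norm_nonneg _
    have h4 : 0 ≤ ∑ τ ∈ S, ‖c τ‖ * |τ| := Finset.sum_nonneg fun _ _ => by positivity
    positivity
  refine ⟨(ω / (3 * (K + 1))) ^ 2, by positivity, fun x y hxy => ?_⟩
  have h2 := tp_diff S c x y
  have h3 : Real.sqrt |x - y| ≤ ω / (3 * (K + 1)) := by
    rw [Real.sqrt_le_left (by positivity)]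
    exact hxy
  have h4 : K * Real.sqrt |x - y| ≤ ω / 3 := by
    calc K * Real.sqrt |x - y| ≤ K * (ω / (3 * (K + 1))) := by gcongr
      _ = K / (K + 1) * (ω / 3) := by field_simp
      _ ≤ 1 * (ω / 3) := by
          apply mul_le_mul_of_nonneg_right _ (by positivity)
          rw [div_le_one (by positivity)]
          linarith
      _ = _ := one_mul _
  have a1 := abs_le.1 (h1 x)
  have a2 := abs_le.1 (h1 y)
  have a3 := abs_le.1 (h2.trans h4)
  rw [abs_le]
  constructor <;> linarith [a1.1, a1.2, a2.1, a2.2, a3.1, a3.2]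

/-- the number of zeros, two-sided -/
lemma NN_two : ∃ T₀ : ℝ, 10 ≤ T₀ ∧ ∀ T : ℝ, T₀ ≤ T →
    T * Real.log T / 8 ≤ (NN riemannZeta T (2 * T) : ℝ) ∧
      (NN riemannZeta T (2 * T) : ℝ) ≤ T * Real.log T := by
  obtain ⟨T2, hT2, hN⟩ := N_dyadic (1 / 40) (by norm_num)
  refine ⟨T2, hT2, fun T hT => ?_⟩
  have hL0 : 0 < Real.log T := Real.log_pos (by linarith)
  have hpi := Real.pi_lt_d2
  have hpi3 := Real.pi_gt_three
  have a2 := hN T hT
  set Y := T * Real.log T with hY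
  have hY0 : 0 < Y := by
    have : 0 < T := by linarith
    positivity
  have h3 : Y * (3 / 20) ≤ Y / (2 * Real.pi) := by
    rw [le_div_iff₀ (by positivity)]
    nlinarith
  have h4 : Y / (2 * Real.pi) ≤ Y / 6 := by
    apply div_le_div_of_nonneg_left hY0.le (by norm_num) (by linarith)
  obtain ⟨h1, h2⟩ := abs_le.1 a2
  constructor <;> linarith

/-- **small gaps in Bohr sets** -/
theorem small_w (hRH : RiemannHypothesis) {β : ℝ} (hβ : 0 < β) (hV : 1 < VV β) :
    ∃ κ : ℝ, 0 < κ ∧ ∀ (k : ℕ) (α : Fin k → ℝ),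
      (∀ n : Fin k → ℤ, ∑ j, (n j : ℝ) * α j = 0 → n = 0) →
      ∀ F : C(UnitAddTorus (Fin k), ℝ), (∀ x, 0 ≤ F x) → (∀ x, F x ≤ 1) →
      (0 < ∫ x, F x ∂(haarT k)) → ∃ T0 : ℝ, 10 ≤ T0 ∧ ∀ T : ℝ, T0 ≤ T →
      κ * (∫ x, F x ∂(haarT k)) ^ 2 * (T * Real.log T) ≤
      ∑ n ∈ (EE_finite T (2 * T) (2 * Real.pi * β / Real.log T)).toFinset,
        F (torusPt α (ord n)) := by
  classical
  have hpi := Real.pi_pos
  obtain ⟨C, T4, hC, hT4, h4⟩ := cube_dyadic hRH hβ
  refine ⟨(VV β - 1) ^ 2 / (1024 * C), by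
    have : 0 < VV β - 1 := by linarith
    positivity, fun k α hα F hF hF1 hFM => ?_⟩
  set M := ∫ x, F x ∂(haarT k) with hM
  set ε : ℝ := M * (VV β - 1) / 4 with hε
  have hε0 : 0 < ε := by
    have : 0 < VV β - 1 := by linarith
    positivity
  obtain ⟨T1, hT1, h1⟩ := close_weights hRH hβ hα F hF hε0
  obtain ⟨T2, hT2, h2⟩ := first hRH (APm_torus hα F) (fun t => hF _) hFM.le hε0
  obtain ⟨T3, hT3, h3⟩ := NN_two
  set c2 : ℝ := (2 * ε / 8) ^ 2 / C with hc2
  have hc20 : 0 < c2 := by positivity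
  obtain ⟨δ, hδ, hunif⟩ := unif_tp (APm_torus hα F) (ω := c2 / 2) (by positivity)
  obtain ⟨T5, hT5⟩ := (Real.tendsto_log_atTop.eventually_ge_atTop
    (2 * Real.pi * β / δ)).exists_forall_of_atTop
  refine ⟨max (max T1 T2) (max (max T3 T4) T5),
    (hT1.trans (le_max_left _ _)).trans (le_max_left _ _), fun T hT => ?_⟩
  have hc24 : (VV β - 1) ^ 2 / (1024 * C) * M ^ 2 = c2 / 4 := by
    rw [hc2, hε]
    field_simp
    ring
  rw [hc24]
  have hTT1 : T1 ≤ T := ((le_max_left _ _).trans (le_max_left _ _)).trans hT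
  have hTT2 : T2 ≤ T := ((le_max_right _ _).trans (le_max_left _ _)).trans hT
  have hTT3 : T3 ≤ T := (((le_max_left _ _).trans (le_max_left _ _)).trans
    (le_max_right _ _)).trans hT
  have hTT4 : T4 ≤ T := (((le_max_right _ _).trans (le_max_left _ _)).trans
    (le_max_right _ _)).trans hT
  have hTT5 : T5 ≤ T := ((le_max_right _ _).trans (le_max_right _ _)).trans hT
  have hT10 : 10 ≤ T := hT1.trans hTT1
  have hT1' : 1 ≤ T := by linarith
  have b1 := h1 T hTT1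
  have b2 := (abs_le.1 (h2 T hTT2)).2
  obtain ⟨b3, b3'⟩ := h3 T hTT3
  have b4 := h4 T hTT4
  have b5 := hT5 T hTT5
  have hTpos : 0 < T := by linarith
  set L := Real.log T with hL
  have hLpos : 0 < L := Real.log_pos (by linarith)
  set ρ := 2 * Real.pi * β / L with hρ
  have hρ0 : 0 ≤ ρ := by positivity
  have hρδ : ρ ≤ δ := by
    rw [hρ, div_le_iff₀ hLpos]
    rw [div_le_iff₀ hδ] at b5
    linarith
  set N : ℝ := (NN riemannZeta T (2 * T) : ℝ) with hN
  have hN0 : 0 ≤ N := Nat.cast_nonneg _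
  set φ : ℝ → ℝ := fun t => F (torusPt α t) with hφ
  have hφ0 : ∀ t, 0 ≤ φ t := fun t => hF _
  have hφ1 : ∀ t, φ t ≤ 1 := fun t => hF1 _
  -- the pair sum in terms of `kk`
  have e1 : ∑ s ∈ Zf riemannZeta T (2 * T), ∑ s' ∈ Zf riemannZeta T (2 * T),
          (mult riemannZeta s : ℝ) * (mult riemannZeta s' : ℝ) *
            (if |s.im - s'.im| ≤ ρ then F (torusPt α s.im) else 0) =
      ∑ s ∈ Zf riemannZeta T (2 * T), (mult riemannZeta s : ℝ) *
        (φ s.im * (kk T (2 * T) ρ s : ℝ)) := by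
    refine Finset.sum_congr rfl fun s _ => ?_
    rw [kk_cast, Finset.sum_filter, Finset.mul_sum, Finset.mul_sum]
    refine Finset.sum_congr rfl fun s' _ => ?_
    simp only [hφ]
    split_ifs <;> ring
  rw [e1] at b1
  set S := (Zf riemannZeta T (2 * T)).filter (fun s => 2 ≤ kk T (2 * T) ρ s) with hS
  have hSk : 2 * ε * N ≤ ∑ s ∈ S, (mult riemannZeta s : ℝ) *
      (φ s.im * (kk T (2 * T) ρ s : ℝ)) := by
    have g1 : ∑ s ∈ Zf riemannZeta T (2 * T), (mult riemannZeta s : ℝ) *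
        (φ s.im * (kk T (2 * T) ρ s : ℝ)) =
        ∑ s ∈ S, (mult riemannZeta s : ℝ) * (φ s.im * (kk T (2 * T) ρ s : ℝ)) +
        ∑ s ∈ (Zf riemannZeta T (2 * T)).filter (fun s => ¬ 2 ≤ kk T (2 * T) ρ s),
          (mult riemannZeta s : ℝ) * (φ s.im * (kk T (2 * T) ρ s : ℝ)) := by
      rw [hS, Finset.sum_filter_add_sum_filter_not]
    have g2 : ∑ s ∈ (Zf riemannZeta T (2 * T)).filter (fun s => ¬ 2 ≤ kk T (2 * T) ρ s),
          (mult riemannZeta s : ℝ) * (φ s.im * (kk T (2 * T) ρ s : ℝ)) ≤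
          MW riemannZeta T (2 * T) φ := by
      unfold MW
      calc _ ≤ ∑ s ∈ (Zf riemannZeta T (2 * T)).filter (fun s => ¬ 2 ≤ kk T (2 * T) ρ s),
          (mult riemannZeta s : ℝ) * φ s.im := by
            refine Finset.sum_le_sum fun s hs => ?_
            have h3 := (Finset.mem_filter.1 hs).2
            have h4 : (kk T (2 * T) ρ s : ℝ) ≤ 1 := by
              have : kk T (2 * T) ρ s ≤ 1 := by omega
              exact_mod_cast this
            exact mul_le_mul_of_nonneg_left (mul_le_of_le_one_right (hφ0 _) h4)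
              (Nat.cast_nonneg _)
        _ ≤ _ := Finset.sum_le_sum_of_subset_of_nonneg (Finset.filter_subset _ _)
            fun s _ _ => mul_nonneg (Nat.cast_nonneg _) (hφ0 _)
    have g3 : (M * VV β - ε) * N = (M + ε) * N + 2 * ε * N := by
      rw [hε]; ring
    rw [g3] at b1
    linarith
  -- Cauchy-Schwarz
  have hcs : (∑ s ∈ S, (mult riemannZeta s : ℝ) * (φ s.im * (kk T (2 * T) ρ s : ℝ))) ^ 2 ≤
      (∑ s ∈ S, (mult riemannZeta s : ℝ) * φ s.im) *
        ∑ s ∈ S, (mult riemannZeta s : ℝ) * (φ s.im * (kk T (2 * T) ρ s : ℝ) ^ 2) := by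
    refine Finset.sum_sq_le_sum_mul_sum_of_sq_eq_mul S (fun s _ => ?_)
      (fun s _ => ?_) fun s _ => by ring
    · have := hφ0 s.im; positivity
    · have := hφ0 s.im; positivity
  have hS3 : ∑ s ∈ S, (mult riemannZeta s : ℝ) * (φ s.im * (kk T (2 * T) ρ s : ℝ) ^ 2) ≤
      C * (T * L) := by
    refine le_trans ?_ b4
    refine (Finset.sum_le_sum_of_subset_of_nonneg (Finset.filter_subset _ _)
      fun s _ _ => by have := hφ0 s.im; positivity).trans ?_
    refine Finset.sum_le_sum fun s _ => ?_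
    apply mul_le_mul_of_nonneg_left _ (Nat.cast_nonneg _)
    exact mul_le_of_le_one_left (by positivity) (hφ1 _)
  have hW := W_le_w hRH (B := 2 * T) hT1' hρ0 φ hφ0
  have hW0 : 0 ≤ ∑ s ∈ S, (mult riemannZeta s : ℝ) * φ s.im :=
    Finset.sum_nonneg fun s _ => mul_nonneg (Nat.cast_nonneg _) (hφ0 _)
  have hTL : 0 < T * L := by positivity
  have hsq : (2 * ε * (T * L / 8)) ^ 2 ≤
      (∑ s ∈ S, (mult riemannZeta s : ℝ) * φ s.im) * (C * (T * L)) := by
    calc (2 * ε * (T * L / 8)) ^ 2 ≤ (2 * ε * N) ^ 2 := by gcongr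
      _ ≤ (∑ s ∈ S, (mult riemannZeta s : ℝ) * (φ s.im * (kk T (2 * T) ρ s : ℝ))) ^ 2 := by
          gcongr
      _ ≤ _ := hcs
      _ ≤ _ := by gcongr
  have hfinal : c2 * (T * L) ≤ ∑ s ∈ S, (mult riemannZeta s : ℝ) * φ s.im := by
    have h1 : (2 * ε * (T * L / 8)) ^ 2 = (c2 * (T * L)) * (C * (T * L)) := by
      rw [hc2]
      field_simp
    rw [h1] at hsq
    exact le_of_mul_le_mul_right hsq (by positivity)
  -- the number of indices
  set E := (EE_finite T (2 * T) ρ).toFinset with hE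
  have hEcard : (E.card : ℝ) ≤ T * L := by
    refine le_trans ?_ b3'
    have h5 : E ⊆ Finset.Ioc (NZ T) (NZ (2 * T)) := by
      intro n hn
      rw [hE, Set.Finite.mem_toFinset] at hn
      obtain ⟨a1, a2, a3, a4⟩ := hn
      rw [Finset.mem_Ioc]
      constructor
      · by_contra hcon
        push Not at hcon
        have := (SG.ord_le_iff a1 T).mpr hcon
        linarith
      · have h6 : ord n ≤ 2 * T := (SG.ord_mono a1 (by omega)).trans a3
        exact (SG.ord_le_iff a1 _).mp h6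
    have h6 := Finset.card_le_card h5
    rw [Nat.card_Ioc, NZ_add hT1' (by linarith : T ≤ 2 * T), Nat.add_sub_cancel_left] at h6
    rw [hN, NN_Zf good_zeta hT1']
    exact_mod_cast h6
  have hstep : ∑ n ∈ E, (φ (ord n) + φ (ord (n + 1))) ≤
      ∑ n ∈ E, (2 * φ (ord n) + c2 / 2) := by
    refine Finset.sum_le_sum fun n hn => ?_
    rw [hE, Set.Finite.mem_toFinset] at hn
    obtain ⟨a1, a2, a3, a4⟩ := hn
    have h5 : |ord (n + 1) - ord n| ≤ δ := by
      rw [abs_of_nonneg (sub_nonneg.2 (SG.ord_mono a1 (by omega)))]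
      exact a4.trans hρδ
    have h6 := (abs_le.1 (hunif _ _ h5)).2
    simp only [hφ]
    linarith
  have hstep2 : ∑ n ∈ E, (2 * φ (ord n) + c2 / 2) =
      2 * (∑ n ∈ E, φ (ord n)) + (E.card : ℝ) * (c2 / 2) := by
    rw [Finset.sum_add_distrib, ← Finset.mul_sum, Finset.sum_const, nsmul_eq_mul]
  rw [hstep2] at hstep
  have h7 : (E.card : ℝ) * (c2 / 2) ≤ T * L * (c2 / 2) := by gcongr
  have h8 := hfinal.trans (hW.trans hstep)
  have h9 : ∑ n ∈ E, φ (ord n) = ∑ n ∈ E, F (torusPt α (ord n)) := rfl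
  rw [h9] at h8
  linarith

end Pool.Agent.R482.GB
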